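import Mathlib
import Pool.Agent.TH335.RF.Q1
set_option autoImplicit false

/-! # The planar estimate: the circle, `L^4` over a strip, with the `L^2` norm of the density -/

namespace Pool.Agent.V5helper17.RL

open MeasureTheory Set Complex
open scoped ENNReal RealInnerProductSpace
open Pool.Agent.H789R2.FR (E sg T sg_finite sc band Ex)
open Pool.Agent.H789R2.FR.E4w (Ex_meas)
open Pool.Agent.H438R2.BR (J J_mp J_inner)
open Pool.Agent.H438R2.BR.T10 (e0 e0_norm)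
open Pool.Agent.H438R2.PD (T_meas' T_comp P1 P2)
open Pool.Agent.TH335.RF (line_mp up wt graph_int graph_lint bd bd_meas exists_bd sc_pos sc_le
  sc_meas' wt_line co_up up_meas e0_zero)

/-- coordinates on the plane -/
theorem lint_J2 (G : E (1 + 1) → ℝ≥0∞) (hG : Measurable G) :
    ∫⁻ a, G a = ∫⁻ y : ℝ, ∫⁻ z : ℝ, G (J (y • e0) (z • e0)) := by
  have hJ := J_mp 1 1
  have hm : Measurable fun p : E 1 × E 1 => G (J p.1 p.2) := hG.comp hJ.measurable
  calc ∫⁻ a, G a = ∫⁻ p : E 1 × E 1, G (J p.1 p.2) := (hJ.lintegral_comp hG).symm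
    _ = ∫⁻ x : E 1, ∫⁻ y : E 1, G (J x y) := lintegral_prod _ hm.aemeasurable
    _ = ∫⁻ y : ℝ, ∫⁻ w : E 1, G (J (y • e0) w) :=
        (line_mp.lintegral_comp hm.lintegral_prod_right').symm
    _ = _ := lintegral_congr fun y =>
        (line_mp.lintegral_comp (hm.comp measurable_prodMk_left)).symm

theorem J2_zero (y z : ℝ) : (J (y • e0) (z • e0) : E (1 + 1)) 0 = y := by
  have h : (J (y • e0) (z • e0) : E (1 + 1)) (Fin.castAdd 1 0) = (y • e0) 0 :=
    congrArg (fun w : E 1 => w 0) (Pool.Agent.H438R2.PD.P1_J (y • e0) (z • e0))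
  rw [show (0 : Fin (1 + 1)) = Fin.castAdd 1 0 from rfl, h, PiLp.smul_apply, e0_zero, smul_eq_mul,
    mul_one]

theorem co_zero (z : E (1 + 1)) : (P1 1 1 z) 0 = z 0 := rfl

theorem coord_meas {n : ℕ} (i : Fin n) : Measurable fun a : E n => a i := by fun_prop

/-- the strip -/
def St (Y : ℝ) : Set (E (1 + 1)) := {a | |a 0| ≤ Y}

theorem St_meas (Y : ℝ) : MeasurableSet (St Y) :=
  measurableSet_le (coord_meas 0).abs measurable_const

theorem lint_St (Y : ℝ) (G : E (1 + 1) → ℝ≥0∞) (hG : Measurable G) :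
    ∫⁻ a in St Y, G a = ∫⁻ y in Icc (-Y) Y, ∫⁻ z : ℝ, G (J (y • e0) (z • e0)) := by
  rw [← lintegral_indicator (St_meas Y), lint_J2 _ (hG.indicator (St_meas Y)),
    ← lintegral_indicator measurableSet_Icc]
  refine lintegral_congr fun y => ?_
  by_cases hy : y ∈ Icc (-Y) Y
  · rw [indicator_of_mem hy]
    refine lintegral_congr fun z => ?_
    rw [indicator_of_mem]
    show |(J (y • e0) (z • e0) : E (1 + 1)) 0| ≤ Y
    rw [J2_zero]
    exact abs_le.2 hy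
  · rw [indicator_of_notMem hy]
    rw [← lintegral_zero (μ := (volume : Measure ℝ))]
    refine lintegral_congr fun z => ?_
    rw [indicator_of_notMem]
    show ¬ |(J (y • e0) (z • e0) : E (1 + 1)) 0| ≤ Y
    rw [J2_zero]
    exact fun h => hy (abs_le.1 h)

/-- the density of the right half circle in the coordinate `c` -/
noncomputable def bf (φ : E (1 + 1) → ℂ) (c : ℝ) : ℂ := (((sc c)⁻¹ : ℝ) : ℂ) * φ (up (c • e0))

theorem upl_meas : Measurable fun c : ℝ => up (c • e0) :=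
  up_meas.comp (measurable_id.smul_const e0)

theorem bf_meas (φ : E (1 + 1) → ℂ) (hφ : Measurable φ) : Measurable (bf φ) := by
  unfold bf
  exact (sc_meas'.inv).complex_ofReal.mul (hφ.comp upl_meas)

theorem ball_line (c : ℝ) : c • e0 ∈ Metric.ball (0 : E 1) 1 ↔ c ∈ Ioo (-1 : ℝ) 1 := by
  rw [mem_ball_zero_iff, norm_smul, e0_norm, mul_one, Real.norm_eq_abs, abs_lt]
  rfl

theorem T_half (φ : E (1 + 1) → ℂ) (hφ : Measurable φ)
    (h0 : ∀ z, z ∉ Pool.Agent.TH335.RF.U 1 → φ z = 0) (y z : ℝ) :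
    T φ (J (y • e0) (z • e0)) = Ex (bf φ) y z := by
  unfold T
  have hmeas : Measurable fun w : E (1 + 1) =>
      Complex.exp (-((⟪J (y • e0) (z • e0), w⟫ : ℝ) : ℂ) * I) * φ w := by
    have h1 : Measurable fun w : E (1 + 1) => (⟪J (y • e0) (z • e0), w⟫ : ℝ) := by fun_prop
    exact (Complex.measurable_exp.comp ((Complex.measurable_ofReal.comp h1).neg.mul_const I)).mul hφ
  rw [graph_int le_rfl _ hmeas (fun w hw => by rw [h0 w hw, mul_zero])]
  unfold Ex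
  have hm2 : Measurable fun y' : E 1 => (Metric.ball (0 : E 1) 1).indicator
      (fun y' => (((wt y')⁻¹ : ℝ) : ℂ) * (Complex.exp (-((⟪J (y • e0) (z • e0), up y'⟫ : ℝ) : ℂ) * I)
        * φ (up y'))) y' := by
    refine Measurable.indicator ?_ measurableSet_ball
    exact (Pool.Agent.TH335.RF.wt_meas.inv).complex_ofReal.mul (hmeas.comp up_meas)
  rw [← integral_indicator measurableSet_ball, ← integral_indicator measurableSet_Ioo,
    ← line_mp.map_eq, integral_map line_mp.measurable.aemeasurable hm2.aestronglyMeasurable]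
  refine integral_congr_ae (Filter.Eventually.of_forall fun c => ?_)
  simp only
  by_cases hc : c ∈ Ioo (-1 : ℝ) 1
  · rw [indicator_of_mem ((ball_line c).2 hc), indicator_of_mem hc]
    unfold bf
    rw [wt_line]
    have e2 : (⟪J (y • e0) (z • e0), up (c • e0)⟫ : ℝ) = y * sc c + z * c := by
      unfold up
      rw [J_inner, wt_line, real_inner_smul_left, real_inner_smul_right, real_inner_smul_left,
        real_inner_smul_right, real_inner_self_eq_norm_sq, e0_norm]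
      ring
    rw [e2]
    ring
  · rw [indicator_of_notMem (fun h => hc ((ball_line c).1 h)), indicator_of_notMem hc]

theorem lint_half (f : E (1 + 1) → ℝ≥0∞) (hf : Measurable f) :
    ∫⁻ z in Pool.Agent.TH335.RF.U 1, f z ∂(sg (1 + 1)) =
      ∫⁻ c in Ioo (-1 : ℝ) 1, ENNReal.ofReal (sc c)⁻¹ * f (up (c • e0)) := by
  rw [graph_lint le_rfl f hf, ← lintegral_indicator measurableSet_ball,
    ← lintegral_indicator measurableSet_Ioo, ← line_mp.map_eq,
    lintegral_map _ line_mp.measurable]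
  · refine lintegral_congr fun c => ?_
    by_cases hc : c ∈ Ioo (-1 : ℝ) 1
    · rw [indicator_of_mem ((ball_line c).2 hc), indicator_of_mem hc, wt_line]
    · rw [indicator_of_notMem (fun h => hc ((ball_line c).1 h)), indicator_of_notMem hc]
  · exact (Pool.Agent.TH335.RF.winv_meas.mul (hf.comp up_meas)).indicator measurableSet_ball

theorem enorm_pow4 (w : ℂ) : ‖w‖ₑ ^ 4 = ENNReal.ofReal (‖w‖ ^ 4) := by
  rw [← ofReal_norm, ENNReal.ofReal_pow (norm_nonneg _)]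

theorem enorm_pow2 (w : ℂ) : ‖w‖ₑ ^ 2 = ENNReal.ofReal (‖w‖ ^ 2) := by
  rw [← ofReal_norm, ENNReal.ofReal_pow (norm_nonneg _)]

/-- the piece on a band -/
noncomputable def bp (φ : E (1 + 1) → ℂ) (j : ℕ) : ℝ → ℂ := (bd j).indicator (bf φ)

theorem bp_meas (φ : E (1 + 1) → ℂ) (hφ : Measurable φ) (j : ℕ) : Measurable (bp φ j) :=
  (bf_meas φ hφ).indicator (bd_meas j)

theorem bp_le (φ : E (1 + 1) → ℂ) (B : ℝ) (hB : ∀ u, ‖φ u‖ ≤ B) (j : ℕ) (c : ℝ) :
    ‖bp φ j c‖ ≤ 2 * B / (1 / 2 : ℝ) ^ j := by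
  have hB0 : 0 ≤ B := (norm_nonneg _).trans (hB 0)
  have hμ0 : (0 : ℝ) < (1 / 2 : ℝ) ^ j := by positivity
  unfold bp
  by_cases hc : c ∈ bd j
  · rw [indicator_of_mem hc]
    have hc1 : (1 / 2 : ℝ) ^ j / 2 < sc c := hc.2.1
    have hs : 0 < sc c := lt_trans (by positivity) hc1
    unfold bf
    rw [norm_mul, Complex.norm_real, Real.norm_of_nonneg (inv_nonneg.2 hs.le)]
    calc (sc c)⁻¹ * ‖φ (up (c • e0))‖ ≤ ((1 / 2 : ℝ) ^ j / 2)⁻¹ * B := by
          apply mul_le_mul _ (hB _) (norm_nonneg _) (by positivity)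
          exact inv_anti₀ (by positivity) hc1.le
      _ = _ := by field_simp
  · rw [indicator_of_notMem hc, norm_zero]
    positivity

theorem band_bound : ∃ C : ℝ, 0 < C ∧ ∀ (φ : E (1 + 1) → ℂ), Measurable φ → ∀ B : ℝ,
    (∀ u, ‖φ u‖ ≤ B) → ∀ (j : ℕ) (Y : ℝ), 1 ≤ Y * (1 / 2 : ℝ) ^ j →
    ∫⁻ y in Icc (-Y) Y, ∫⁻ z : ℝ, ‖Ex (bp φ j) y z‖ₑ ^ 4 ≤
      ENNReal.ofReal (C * B ^ 2 * (1 + Real.log Y)) *
        ∫⁻ c in bd j, ENNReal.ofReal (sc c)⁻¹ * ‖φ (up (c • e0))‖ₑ ^ 2 := by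
  obtain ⟨C, hC, h⟩ := Pool.Agent.H789R2.FR.E4r
  refine ⟨8 * C, by positivity, fun φ hφ B hB j Y hY => ?_⟩
  set μ : ℝ := (1 / 2 : ℝ) ^ j with hμ
  have hμ0 : 0 < μ := by positivity
  have hμ1 : μ ≤ 1 := pow_le_one₀ (by norm_num) (by norm_num)
  have hB0 : 0 ≤ B := (norm_nonneg _).trans (hB 0)
  have hY1 : 1 ≤ Y := by
    by_contra hc
    push Not at hc
    have : Y * μ < 1 := by
      rcases le_or_gt 0 Y with h1 | h1
      · calc Y * μ ≤ Y * 1 := by gcongr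
          _ < 1 := by linarith
      · have : Y * μ ≤ 0 := mul_nonpos_of_nonpos_of_nonneg h1.le hμ0.le
        linarith
    linarith
  have hlogY : 0 ≤ Real.log Y := Real.log_nonneg hY1
  have hlog2 : Real.log (Y * μ) ≤ Real.log Y :=
    Real.log_le_log (by linarith) (by nlinarith)
  have hlog3 : 0 ≤ Real.log (Y * μ) := Real.log_nonneg hY
  simp only [enorm_pow4]
  refine (h μ hμ0 hμ1 Y hY (bp φ j) (bp_meas φ hφ j) _ (bp_le φ B hB j)
    (fun c hc => indicator_of_notMem hc _)).trans ?_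
  have hint : Integrable (bp φ j) := Pool.Agent.H789R2.FR.E4w.int_of_bdd _ (bp_meas φ hφ j) _
    (bp_le φ B hB j) (fun c hc => indicator_of_notMem (fun h' => hc ⟨(abs_lt.1 h'.1).1.le,
      (abs_lt.1 h'.1).2.le⟩) _)
  have hint2 : Integrable (fun c => ‖bp φ j c‖ ^ 2) := by
    have h1 : Integrable (fun c => (2 * B / μ) * ‖bp φ j c‖) := hint.norm.const_mul _
    refine h1.mono' (((bp_meas φ hφ j).norm.pow_const 2).aestronglyMeasurable)
      (Filter.Eventually.of_forall fun c => ?_)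
    rw [Real.norm_of_nonneg (by positivity), sq]
    exact mul_le_mul_of_nonneg_right (bp_le φ B hB j c) (norm_nonneg _)
  have e2 : ∫⁻ c, ‖bp φ j c‖ₑ ^ 2 ≤ ENNReal.ofReal (2 / μ) *
      ∫⁻ c in bd j, ENNReal.ofReal (sc c)⁻¹ * ‖φ (up (c • e0))‖ₑ ^ 2 := by
    rw [← lintegral_indicator (bd_meas j), ← lintegral_const_mul' _ _ ENNReal.ofReal_ne_top]
    refine lintegral_mono fun c => ?_
    unfold bp
    by_cases hc : c ∈ bd j
    · rw [indicator_of_mem hc, indicator_of_mem hc]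
      have hc1 : μ / 2 < sc c := hc.2.1
      have hs : 0 < sc c := lt_trans (by positivity) hc1
      unfold bf
      rw [enorm_mul, mul_pow, ← mul_assoc]
      gcongr
      rw [enorm_pow2, Complex.norm_real, Real.norm_of_nonneg (inv_nonneg.2 hs.le),
        ← ENNReal.ofReal_mul (by positivity), sq]
      apply ENNReal.ofReal_le_ofReal
      apply mul_le_mul_of_nonneg_right _ (by positivity)
      rw [show 2 / μ = (μ / 2)⁻¹ by field_simp]
      exact inv_anti₀ (by positivity) hc1.le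
    · rw [indicator_of_notMem hc]
      simp
  calc ENNReal.ofReal (C * (2 * B / μ) ^ 2 * μ ^ 3 * (1 + Real.log (Y * μ)) *
        ∫ c, ‖bp φ j c‖ ^ 2)
      = ENNReal.ofReal (C * (2 * B / μ) ^ 2 * μ ^ 3 * (1 + Real.log (Y * μ))) *
        ∫⁻ c, ‖bp φ j c‖ₑ ^ 2 := by
        rw [ENNReal.ofReal_mul (by positivity), ofReal_integral_eq_lintegral_ofReal hint2
          (Filter.Eventually.of_forall fun c => by positivity)]
        simp only [enorm_pow2]
    _ ≤ ENNReal.ofReal (C * (2 * B / μ) ^ 2 * μ ^ 3 * (1 + Real.log (Y * μ))) *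
        (ENNReal.ofReal (2 / μ) *
      ∫⁻ c in bd j, ENNReal.ofReal (sc c)⁻¹ * ‖φ (up (c • e0))‖ₑ ^ 2) := by gcongr
    _ = ENNReal.ofReal (C * (2 * B / μ) ^ 2 * μ ^ 3 * (1 + Real.log (Y * μ)) * (2 / μ)) *
      ∫⁻ c in bd j, ENNReal.ofReal (sc c)⁻¹ * ‖φ (up (c • e0))‖ₑ ^ 2 := by
        rw [← mul_assoc, ← ENNReal.ofReal_mul (by positivity)]
    _ ≤ _ := by
        refine mul_le_mul' (ENNReal.ofReal_le_ofReal ?_) le_rfl
        have : C * (2 * B / μ) ^ 2 * μ ^ 3 * (1 + Real.log (Y * μ)) * (2 / μ) =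
          8 * C * B ^ 2 * (1 + Real.log (Y * μ)) := by
          field_simp
          ring
        rw [this]
        gcongr

theorem bf_split (φ : E (1 + 1) → ℂ) (n : ℕ)
    (hη : ∀ u, 0 < u 0 → |u 0| ≤ (1 / 2 : ℝ) ^ n → φ u = 0) {c : ℝ} (hc : c ∈ Ioo (-1 : ℝ) 1) :
    bf φ c = ∑ j ∈ Finset.range n, bp φ j c := by
  obtain ⟨j, hj, hi⟩ := exists_bd hc
  have hup : (up (c • e0) : E (1 + 1)) 0 = sc c := by
    have := co_up (c • e0)
    rw [co_zero, wt_line] at this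
    exact this
  by_cases hjn : j < n
  · rw [Finset.sum_eq_single j]
    · unfold bp
      rw [indicator_of_mem hj]
    · intro i _ hij
      unfold bp
      rw [indicator_of_notMem (hi i hij)]
    · intro h
      exact absurd (Finset.mem_range.2 hjn) h
  · have h0 : bf φ c = 0 := by
      unfold bf
      rw [hη, mul_zero]
      · rw [hup]
        exact sc_pos hc
      · rw [hup, abs_of_pos (sc_pos hc)]
        exact hj.2.2.trans (pow_le_pow_of_le_one (by norm_num) (by norm_num) (by omega))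
    rw [h0]
    symm
    apply Finset.sum_eq_zero
    intro i hi'
    unfold bp
    rw [indicator_of_notMem]
    apply hi
    have := Finset.mem_range.1 hi'
    omega

theorem Ex_sum (φ : E (1 + 1) → ℂ) (hφ : Measurable φ) (B : ℝ) (hB : ∀ u, ‖φ u‖ ≤ B) (n : ℕ)
    (hη : ∀ u, 0 < u 0 → |u 0| ≤ (1 / 2 : ℝ) ^ n → φ u = 0) (y z : ℝ) :
    Ex (bf φ) y z = ∑ j ∈ Finset.range n, Ex (bp φ j) y z := by
  unfold Ex
  rw [← integral_finsetSum]
  · refine setIntegral_congr_fun measurableSet_Ioo fun c hc => ?_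
    rw [bf_split φ n hη hc, Finset.mul_sum]
  · intro j _
    have hint : Integrable (bp φ j) := Pool.Agent.H789R2.FR.E4w.int_of_bdd _ (bp_meas φ hφ j) _
      (bp_le φ B hB j) (fun c hc => indicator_of_notMem (fun h' => hc ⟨(abs_lt.1 h'.1).1.le,
        (abs_lt.1 h'.1).2.le⟩) _)
    refine (hint.restrict (s := Ioo (-1 : ℝ) 1)).bdd_mul (c := 1) ?_ ?_
    · have := sc_meas'
      apply Measurable.aestronglyMeasurable
      fun_prop
    · refine Filter.Eventually.of_forall fun c => ?_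
      rw [Pool.Agent.H789R2.FR.E4w.norm_phase]

theorem bands_le (f : ℝ → ℝ≥0∞) (n : ℕ) :
    ∑ j ∈ Finset.range n, ∫⁻ c in bd j, f c ≤ ∫⁻ c in Ioo (-1 : ℝ) 1, f c := by
  have hd : (↑(Finset.range n) : Set ℕ).PairwiseDisjoint bd := by
    intro i _ j _ hij
    rw [Function.onFun, Set.disjoint_left]
    intro c hc hc'
    obtain ⟨l, hl, hl'⟩ := exists_bd (abs_lt.1 hc.1)
    by_cases h : i = l
    · exact hl' j (by omega) hc'
    · exact hl' i h hc
  rw [← lintegral_biUnion_finset hd (fun j _ => bd_meas j)]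
  apply lintegral_mono_set
  intro c hc
  simp only [mem_iUnion] at hc
  obtain ⟨j, _, hj⟩ := hc
  exact abs_lt.1 hj.1

theorem swap_sum (S : Set ℝ) (s : Finset ℕ) (K : ℝ≥0∞) (hK : K ≠ ∞) (f : ℕ → ℝ → ℝ → ℝ≥0∞)
    (hf : ∀ j, Measurable (Function.uncurry (f j))) :
    ∫⁻ y in S, ∫⁻ z : ℝ, K * ∑ j ∈ s, f j y z = K * ∑ j ∈ s, ∫⁻ y in S, ∫⁻ z : ℝ, f j y z := by
  rw [← lintegral_finsetSum]
  · rw [← lintegral_const_mul' _ _ hK]
    refine lintegral_congr fun y => ?_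
    rw [lintegral_const_mul' _ _ hK, lintegral_finsetSum]
    intro j _
    exact (hf j).comp measurable_prodMk_left
  · intro j _
    exact (hf j).lintegral_prod_right'

theorem half_bound : ∃ C : ℝ, 0 < C ∧ ∀ (φ : E (1 + 1) → ℂ), Measurable φ → ∀ B : ℝ,
    (∀ u, ‖φ u‖ ≤ B) → (∀ z, z ∉ Pool.Agent.TH335.RF.U 1 → φ z = 0) →
    ∀ η : ℝ, 0 < η → η ≤ 1 → (∀ u, |u 0| < η → φ u = 0) → ∀ Y : ℝ, 1 ≤ Y * η →
    ∫⁻ a in St Y, ‖T φ a‖ₑ ^ 4 ≤
      ENNReal.ofReal (C * (1 + Real.log Y) ^ 4 * B ^ 2) * ∫⁻ u, ‖φ u‖ₑ ^ 2 ∂(sg (1 + 1)) := by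
  obtain ⟨C, hC, h⟩ := band_bound
  refine ⟨8 * C, by positivity, fun φ hφ B hB h0 η hη hη1 hs Y hY => ?_⟩
  have hB0 : 0 ≤ B := (norm_nonneg _).trans (hB 0)
  have hY1 : 1 ≤ Y := by
    by_contra hc
    push Not at hc
    rcases le_or_gt 0 Y with h1 | h1
    · have : Y * η ≤ Y * 1 := by gcongr
      linarith
    · have : Y * η ≤ 0 := mul_nonpos_of_nonpos_of_nonneg h1.le hη.le
      linarith
  have hlogY : 0 ≤ Real.log Y := Real.log_nonneg hY1
  obtain ⟨n, hn1, hn2⟩ := exists_nat_pow_near_of_lt_one hη hη1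
    (by norm_num : (0 : ℝ) < 1 / 2) (by norm_num : (1 / 2 : ℝ) < 1)
  -- number of bands
  have hnlog : ((n : ℝ) + 1) ≤ 2 * (1 + Real.log Y) := by
    have h1 : Real.log ((2 : ℝ) ^ n) ≤ Real.log Y := by
      apply Real.log_le_log (by positivity)
      have h2 : Y * (1 / 2 : ℝ) ^ n ≥ 1 := by
        have : Y * η ≤ Y * (1 / 2 : ℝ) ^ n := by gcongr
        linarith
      have h3 : (2 : ℝ) ^ n * (1 / 2 : ℝ) ^ n = 1 := by
        rw [← mul_pow]
        norm_num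
      have h4 : (0 : ℝ) < 2 ^ n := by positivity
      nlinarith
    rw [Real.log_pow] at h1
    have h5 := Real.log_two_gt_d9
    have h6 : (n : ℝ) * 0.5 ≤ n * Real.log 2 := by gcongr; linarith
    linarith
  have hT4 : Measurable fun a => ‖T φ a‖ₑ ^ 4 := (T_meas' φ hφ).enorm.pow_const 4
  rw [lint_St Y _ hT4]
  simp only [T_half φ hφ h0]
  have hsupp : ∀ u : E (1 + 1), 0 < u 0 → |u 0| ≤ (1 / 2 : ℝ) ^ (n + 1) → φ u = 0 :=
    fun u _ hu => hs u (lt_of_le_of_lt hu hn1)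
  have hpt : ∀ y z, ‖Ex (bf φ) y z‖ₑ ^ 4 ≤ ENNReal.ofReal (((n : ℝ) + 1) ^ 3) *
      ∑ j ∈ Finset.range (n + 1), ‖Ex (bp φ j) y z‖ₑ ^ 4 := by
    intro y z
    rw [Ex_sum φ hφ B hB (n + 1) hsupp]
    have h1 := ENNReal.rpow_sum_le_const_mul_sum_rpow (Finset.range (n + 1))
      (fun j => ‖Ex (bp φ j) y z‖ₑ) (p := 4) (by norm_num)
    have h2 : ‖∑ j ∈ Finset.range (n + 1), Ex (bp φ j) y z‖ₑ ≤
        ∑ j ∈ Finset.range (n + 1), ‖Ex (bp φ j) y z‖ₑ := enorm_sum_le _ _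
    calc ‖∑ j ∈ Finset.range (n + 1), Ex (bp φ j) y z‖ₑ ^ 4
        ≤ (∑ j ∈ Finset.range (n + 1), ‖Ex (bp φ j) y z‖ₑ) ^ 4 := by gcongr
      _ = (∑ j ∈ Finset.range (n + 1), ‖Ex (bp φ j) y z‖ₑ) ^ (4 : ℝ) := by norm_num
      _ ≤ _ := h1
      _ = _ := by
          have e1 : ((Finset.range (n + 1)).card : ℝ≥0∞) ^ ((4 : ℝ) - 1) =
            ENNReal.ofReal (((n : ℝ) + 1) ^ 3) := by
            rw [Finset.card_range, show ((4 : ℝ) - 1) = ((3 : ℕ) : ℝ) by norm_num,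
              ENNReal.rpow_natCast, ENNReal.ofReal_pow (by positivity),
              show ((n : ℝ) + 1) = ((n + 1 : ℕ) : ℝ) by push_cast; ring, ENNReal.ofReal_natCast]
          rw [e1]
          norm_num
  have hEm : ∀ j, Measurable fun p : ℝ × ℝ => ‖Ex (bp φ j) p.1 p.2‖ₑ ^ 4 := fun j =>
    (Ex_meas _ (bp_meas φ hφ j)).enorm.pow_const _
  have hμj : ∀ j ∈ Finset.range (n + 1), 1 ≤ Y * (1 / 2 : ℝ) ^ j := by
    intro j hj
    have h1 : (1 / 2 : ℝ) ^ n ≤ (1 / 2 : ℝ) ^ j :=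
      pow_le_pow_of_le_one (by norm_num) (by norm_num) (by have := Finset.mem_range.1 hj; omega)
    have : Y * η ≤ Y * (1 / 2 : ℝ) ^ j := by gcongr; linarith
    linarith
  calc ∫⁻ y in Icc (-Y) Y, ∫⁻ z : ℝ, ‖Ex (bf φ) y z‖ₑ ^ 4
      ≤ ∫⁻ y in Icc (-Y) Y, ∫⁻ z : ℝ, ENNReal.ofReal (((n : ℝ) + 1) ^ 3) *
        ∑ j ∈ Finset.range (n + 1), ‖Ex (bp φ j) y z‖ₑ ^ 4 :=
        lintegral_mono fun y => lintegral_mono fun z => hpt y z
    _ = ENNReal.ofReal (((n : ℝ) + 1) ^ 3) * ∑ j ∈ Finset.range (n + 1),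
        ∫⁻ y in Icc (-Y) Y, ∫⁻ z : ℝ, ‖Ex (bp φ j) y z‖ₑ ^ 4 := by
        exact swap_sum _ _ _ ENNReal.ofReal_ne_top (fun j y z => ‖Ex (bp φ j) y z‖ₑ ^ 4) hEm
    _ ≤ ENNReal.ofReal (((n : ℝ) + 1) ^ 3) * ∑ j ∈ Finset.range (n + 1),
        (ENNReal.ofReal (C * B ^ 2 * (1 + Real.log Y)) *
        ∫⁻ c in bd j, ENNReal.ofReal (sc c)⁻¹ * ‖φ (up (c • e0))‖ₑ ^ 2) := by
        gcongr with j hj
        exact h φ hφ B hB j Y (hμj j hj)
    _ = ENNReal.ofReal (((n : ℝ) + 1) ^ 3) * (ENNReal.ofReal (C * B ^ 2 * (1 + Real.log Y)) *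
        ∑ j ∈ Finset.range (n + 1),
        ∫⁻ c in bd j, ENNReal.ofReal (sc c)⁻¹ * ‖φ (up (c • e0))‖ₑ ^ 2) := by
        rw [← Finset.mul_sum]
    _ ≤ ENNReal.ofReal (((n : ℝ) + 1) ^ 3) * (ENNReal.ofReal (C * B ^ 2 * (1 + Real.log Y)) *
        ∫⁻ c in Ioo (-1 : ℝ) 1, ENNReal.ofReal (sc c)⁻¹ * ‖φ (up (c • e0))‖ₑ ^ 2) := by
        gcongr
        exact bands_le _ _
    _ = ENNReal.ofReal (((n : ℝ) + 1) ^ 3 * (C * B ^ 2 * (1 + Real.log Y))) *
        ∫⁻ z in Pool.Agent.TH335.RF.U 1, ‖φ z‖ₑ ^ 2 ∂(sg (1 + 1)) := by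
        rw [← mul_assoc, ← ENNReal.ofReal_mul (by positivity),
          lint_half _ (hφ.enorm.pow_const 2)]
    _ ≤ _ := by
        refine mul_le_mul' (ENNReal.ofReal_le_ofReal ?_) (setLIntegral_le_lintegral _ _)
        calc ((n : ℝ) + 1) ^ 3 * (C * B ^ 2 * (1 + Real.log Y))
            ≤ (2 * (1 + Real.log Y)) ^ 3 * (C * B ^ 2 * (1 + Real.log Y)) := by gcongr
          _ = _ := by ring

theorem T_add {n : ℕ} (f g : E n → ℂ) (hf : Measurable f) (hg : Measurable g) (B : ℝ)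
    (hfB : ∀ u, ‖f u‖ ≤ B) (hgB : ∀ u, ‖g u‖ ≤ B) (x : E n) :
    T (fun u => f u + g u) x = T f x + T g x := by
  have := sg_finite n
  unfold T
  have hm : Measurable fun w : E n => Complex.exp (-((⟪x, w⟫ : ℝ) : ℂ) * I) := by
    have h1 : Measurable fun w : E n => (⟪x, w⟫ : ℝ) := by fun_prop
    exact Complex.measurable_exp.comp ((Complex.measurable_ofReal.comp h1).neg.mul_const I)
  have hint : ∀ h : E n → ℂ, Measurable h → (∀ u, ‖h u‖ ≤ B) →
      Integrable (fun w => Complex.exp (-((⟪x, w⟫ : ℝ) : ℂ) * I) * h w) (sg n) := by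
    intro h hh hB
    refine Integrable.of_bound (hm.mul hh).aestronglyMeasurable B
      (Filter.Eventually.of_forall fun w => ?_)
    rw [norm_mul, Pool.Agent.H789R2.FR.E4w.norm_phase, one_mul]
    exact hB w
  rw [← integral_add (hint f hf hfB) (hint g hg hgB)]
  congr 1
  funext w
  ring

theorem add_pow4 (a b : ℝ≥0∞) : (a + b) ^ 4 ≤ 8 * (a ^ 4 + b ^ 4) := by
  have h := ENNReal.rpow_add_le_mul_rpow_add_rpow a b (p := 4) (by norm_num)
  have e : (2 : ℝ≥0∞) ^ ((4 : ℝ) - 1) = 8 := by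
    rw [show ((4 : ℝ) - 1) = ((3 : ℕ) : ℝ) by norm_num, ENNReal.rpow_natCast]
    norm_num
  rw [e] at h
  simpa using h

/-- The planar estimate. -/
theorem planar : ∃ C : ℝ, 0 < C ∧ ∀ (φ : E (1 + 1) → ℂ), Measurable φ → ∀ B : ℝ,
    (∀ u, ‖φ u‖ ≤ B) → ∀ η : ℝ, 0 < η → η ≤ 1 → (∀ u, |u 0| < η → φ u = 0) →
    ∀ Y : ℝ, 1 ≤ Y * η →
    ∫⁻ a in St Y, ‖T φ a‖ₑ ^ 4 ≤
      ENNReal.ofReal (C * (1 + Real.log Y) ^ 4 * B ^ 2) * ∫⁻ u, ‖φ u‖ₑ ^ 2 ∂(sg (1 + 1)) := by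
  obtain ⟨C, hC, h⟩ := half_bound
  refine ⟨16 * C, by positivity, fun φ hφ B hB η hη hη1 hs Y hY => ?_⟩
  have hB0 : 0 ≤ B := (norm_nonneg _).trans (hB 0)
  have hUm : MeasurableSet (Pool.Agent.TH335.RF.U 1) := Pool.Agent.TH335.RF.U_meas 1
  set L : E (1 + 1) ≃ₗᵢ[ℝ] E (1 + 1) := LinearIsometryEquiv.neg ℝ with hL
  have hLm : Measurable fun u : E (1 + 1) => L u := L.continuous.measurable
  set φ1 : E (1 + 1) → ℂ := (Pool.Agent.TH335.RF.U 1).indicator φ with hφ1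
  set φ2 : E (1 + 1) → ℂ := (Pool.Agent.TH335.RF.U 1).indicator (fun u => φ (L u)) with hφ2
  have hφ1m : Measurable φ1 := hφ.indicator hUm
  have hφ2m : Measurable φ2 := (hφ.comp hLm).indicator hUm
  have hφ1B : ∀ u, ‖φ1 u‖ ≤ B := fun u => (norm_indicator_le_norm_self _ _).trans (hB u)
  have hφ2B : ∀ u, ‖φ2 u‖ ≤ B := fun u => (norm_indicator_le_norm_self _ _).trans (hB _)
  have hLc : ∀ u : E (1 + 1), (L u) 0 = - u 0 := fun u => rfl
  have hLL : ∀ u : E (1 + 1), L (L u) = u := fun u => neg_neg u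
  have hsum : ∀ u, φ u = φ1 u + φ2 (L u) := by
    intro u
    have hu : u ∈ Pool.Agent.TH335.RF.U 1 ↔ 0 < u 0 := Iff.rfl
    have hLu : L u ∈ Pool.Agent.TH335.RF.U 1 ↔ 0 < (L u) 0 := Iff.rfl
    rcases lt_trichotomy (u 0) 0 with h1 | h1 | h1
    · rw [hφ1, hφ2, indicator_of_notMem (by rw [hu]; exact not_lt.2 h1.le),
        indicator_of_mem (by rw [hLu, hLc]; linarith), hLL, zero_add]
    · rw [hφ1, hφ2, indicator_of_notMem (by rw [hu, h1]; exact lt_irrefl _),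
        indicator_of_notMem (by rw [hLu, hLc, h1, neg_zero]; exact lt_irrefl _), zero_add]
      exact hs u (by rw [h1, abs_zero]; exact hη)
    · rw [hφ1, hφ2, indicator_of_mem (by rw [hu]; exact h1),
        indicator_of_notMem (by rw [hLu, hLc]; exact not_lt.2 (by linarith)), add_zero]
  have hTs : ∀ a, T φ a = T φ1 a + T φ2 (L a) := by
    intro a
    rw [← T_comp L φ2 a, ← T_add φ1 (fun u => φ2 (L u)) hφ1m (hφ2m.comp hLm) B hφ1B
      (fun u => hφ2B _)]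
    congr 1
    funext u
    exact hsum u
  have h1 := h φ1 hφ1m B hφ1B (fun z hz => indicator_of_notMem hz _) η hη hη1
    (fun u hu => by
      rw [hφ1]
      by_cases hm : u ∈ Pool.Agent.TH335.RF.U 1
      · rw [indicator_of_mem hm]; exact hs u hu
      · exact indicator_of_notMem hm _) Y hY
  have h2 := h φ2 hφ2m B hφ2B (fun z hz => indicator_of_notMem hz _) η hη hη1
    (fun u hu => by
      rw [hφ2]
      by_cases hm : u ∈ Pool.Agent.TH335.RF.U 1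
      · rw [indicator_of_mem hm]; exact hs _ (by rw [hLc, abs_neg]; exact hu)
      · exact indicator_of_notMem hm _) Y hY
  have hT4 : ∀ f : E (1 + 1) → ℂ, Measurable f → Measurable fun a => ‖T f a‖ₑ ^ 4 :=
    fun f hf => (T_meas' f hf).enorm.pow_const 4
  have h2' : ∫⁻ a in St Y, ‖T φ2 (L a)‖ₑ ^ 4 = ∫⁻ a in St Y, ‖T φ2 a‖ₑ ^ 4 := by
    rw [← lintegral_indicator (St_meas Y), ← lintegral_indicator (St_meas Y)]
    rw [← L.measurePreserving.lintegral_comp ((hT4 φ2 hφ2m).indicator (St_meas Y))]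
    refine lintegral_congr fun a => ?_
    have hmem : a ∈ St Y ↔ L a ∈ St Y := by
      show |a 0| ≤ Y ↔ |(L a) 0| ≤ Y
      rw [hLc, abs_neg]
    by_cases ha : a ∈ St Y
    · rw [indicator_of_mem ha, indicator_of_mem (hmem.1 ha)]
    · rw [indicator_of_notMem ha, indicator_of_notMem (fun h => ha (hmem.2 h))]
  have hn1 : ∫⁻ u, ‖φ1 u‖ₑ ^ 2 ∂(sg (1 + 1)) ≤ ∫⁻ u, ‖φ u‖ₑ ^ 2 ∂(sg (1 + 1)) := by
    refine lintegral_mono fun u => ?_
    have : ‖φ1 u‖ₑ ≤ ‖φ u‖ₑ := by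
      rw [← ofReal_norm, ← ofReal_norm]
      exact ENNReal.ofReal_le_ofReal (norm_indicator_le_norm_self _ _)
    gcongr
  have hn2 : ∫⁻ u, ‖φ2 u‖ₑ ^ 2 ∂(sg (1 + 1)) ≤ ∫⁻ u, ‖φ u‖ₑ ^ 2 ∂(sg (1 + 1)) := by
    rw [← (Pool.Agent.H789R2.FR.sg_inv L).lintegral_comp (hφ.enorm.pow_const 2)]
    refine lintegral_mono fun u => ?_
    have : ‖φ2 u‖ₑ ≤ ‖φ (L u)‖ₑ := by
      rw [← ofReal_norm, ← ofReal_norm]
      exact ENNReal.ofReal_le_ofReal (norm_indicator_le_norm_self _ _)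
    gcongr
  set K := ENNReal.ofReal (C * (1 + Real.log Y) ^ 4 * B ^ 2) with hK
  set N := ∫⁻ u, ‖φ u‖ₑ ^ 2 ∂(sg (1 + 1)) with hN
  calc ∫⁻ a in St Y, ‖T φ a‖ₑ ^ 4
      ≤ ∫⁻ a in St Y, 8 * (‖T φ1 a‖ₑ ^ 4 + ‖T φ2 (L a)‖ₑ ^ 4) := by
        refine lintegral_mono fun a => ?_
        rw [hTs a]
        refine le_trans ?_ (add_pow4 _ _)
        gcongr
        exact enorm_add_le _ _
    _ = 8 * ((∫⁻ a in St Y, ‖T φ1 a‖ₑ ^ 4) + (∫⁻ a in St Y, ‖T φ2 (L a)‖ₑ ^ 4)) := by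
        rw [lintegral_const_mul' _ _ (by norm_num), lintegral_add_left (hT4 φ1 hφ1m)]
    _ ≤ 8 * (K * N + K * N) := by
        rw [h2']
        gcongr
        · exact h1.trans (by gcongr)
        · exact h2.trans (by gcongr)
    _ = ENNReal.ofReal 16 * (K * N) := by
        rw [show ENNReal.ofReal 16 = 16 by norm_num]
        ring
    _ = _ := by
        rw [← mul_assoc, hK, ← ENNReal.ofReal_mul (by norm_num)]
        congr 2
        ring

end Pool.Agent.V5helper17.RL
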