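import Mathlib
import Pool.Agent.V5helper17.RL.Planar
import Pool.Agent.TH304.J1597
import Pool.Agent.H789R2.FR.Lp
set_option autoImplicit false

/-! # The `L^4` estimate for densities supported near a great circle -/

namespace Pool.Agent.V5helper17.RL

open MeasureTheory Set Complex
open scoped ENNReal RealInnerProductSpace
open Pool.Agent.H789R2.FR (E sg T sg_finite)
open Pool.Agent.H438R2.BR (J J_mp J_inner)
open Pool.Agent.H438R2.PD (T_meas' T_comp P1 P2 P1_J P2_J)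
open Pool.Agent.TH335.RF (wt wt_meas FB FB_L2)

theorem par_meas (d m : ℕ) : Measurable fun p : E m × E d => J (wt p.1 • p.2) p.1 := by
  have hJc : Measurable fun p : E d × E m => J p.1 p.2 := (J_mp d m).measurable
  exact hJc.comp (Measurable.prodMk ((wt_meas.comp measurable_fst).smul measurable_snd)
    measurable_fst)

/-- Archimedes' formula in measure form -/
def Arch (d m : ℕ) : Prop := sg (d + m) =
    ((volume.restrict (Metric.ball (0 : E m) 1)).prod (sg d)).map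
      (fun p : E m × E d => J (wt p.1 • p.2) p.1)

theorem arch2 (m : ℕ) (hm : 1 ≤ m) : Arch (1 + 1) m :=
  Pool.Agent.TH278.FN.sg_arch m hm

theorem arch_lint {d m : ℕ} (h : Arch d m) (f : E (d + m) → ℝ≥0∞) (hf : Measurable f) :
    ∫⁻ z, f z ∂(sg (d + m)) = ∫⁻ v in Metric.ball (0 : E m) 1,
      ∫⁻ u, f (J (wt v • u) v) ∂(sg d) := by
  have := sg_finite d
  have hm : Measurable fun p : E m × E d => f (J (wt p.1 • p.2) p.1) := hf.comp (par_meas d m)
  rw [show sg (d + m) = _ from h, lintegral_map hf (par_meas d m)]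
  exact lintegral_prod _ hm.aemeasurable

/-- the slice of a density -/
noncomputable def sl {d m : ℕ} (F : E (d + m) → ℂ) (v : E m) (u : E d) : ℂ :=
  F (J (wt v • u) v)

theorem sl_meas {d m : ℕ} (F : E (d + m) → ℂ) (hF : Measurable F) :
    Measurable fun p : E m × E d => sl F p.1 p.2 := hF.comp (par_meas d m)

theorem sl_meas1 {d m : ℕ} (F : E (d + m) → ℂ) (hF : Measurable F) (v : E m) :
    Measurable (sl F v) :=
  Measurable.comp (g := fun p : E m × E d => sl F p.1 p.2) (f := fun u => (v, u)) (sl_meas F hF)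
    (measurable_const.prodMk measurable_id)

/-- the amplitude -/
noncomputable def am {d m : ℕ} (F : E (d + m) → ℂ) (a : E d) (v : E m) : ℂ :=
  T (sl F v) (wt v • a)

theorem am_meas {d m : ℕ} (F : E (d + m) → ℂ) (hF : Measurable F) :
    Measurable fun p : E d × E m => am F p.1 p.2 := by
  have := sg_finite d
  have h0 : Measurable fun q : (E d × E m) × E d => ((q.1.2, q.2) : E m × E d) :=
    Measurable.prodMk (measurable_snd.comp measurable_fst) measurable_snd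
  have h1 := (sl_meas F hF).comp h0
  simp only [Function.comp_def] at h1
  have h2 : Measurable fun q : (E d × E m) × E d => (⟪wt q.1.2 • q.1.1, q.2⟫ : ℝ) := by
    have h3 : Measurable fun q : (E d × E m) × E d => wt q.1.2 • q.1.1 :=
      (wt_meas.comp (measurable_snd.comp measurable_fst)).smul (measurable_fst.comp measurable_fst)
    exact (continuous_inner (𝕜 := ℝ)).measurable.comp (h3.prodMk measurable_snd)
  have h4 : Measurable fun q : (E d × E m) × E d =>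
    Complex.exp (-((⟪wt q.1.2 • q.1.1, q.2⟫ : ℝ) : ℂ) * I) * sl F q.1.2 q.2 :=
    (Complex.measurable_exp.comp ((Complex.measurable_ofReal.comp h2).neg.mul_const I)).mul h1
  exact (h4.stronglyMeasurable.integral_prod_right (ν := sg d)).measurable

theorem am_meas1 {d m : ℕ} (F : E (d + m) → ℂ) (hF : Measurable F) (a : E d) :
    Measurable (am F a) :=
  Measurable.comp (g := fun p : E d × E m => am F p.1 p.2) (f := fun u => (a, u)) (am_meas F hF)
    (measurable_const.prodMk measurable_id)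

theorem T_am {d m : ℕ} (h : Arch d m) (F : E (d + m) → ℂ) (hF : Measurable F) (B : ℝ)
    (hB : ∀ z, ‖F z‖ ≤ B) (a : E d) (y : E m) :
    T F (J a y) = FB (am F a) y := by
  have := sg_finite d
  have hb : IsFiniteMeasure (volume.restrict (Metric.ball (0 : E m) 1)) :=
    ⟨by simpa using measure_ball_lt_top⟩
  unfold T
  have hmeas : Measurable fun w : E (d + m) =>
      Complex.exp (-((⟪J a y, w⟫ : ℝ) : ℂ) * I) * F w := by
    have h1 : Measurable fun w : E (d + m) => (⟪J a y, w⟫ : ℝ) := by fun_prop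
    exact (Complex.measurable_exp.comp ((Complex.measurable_ofReal.comp h1).neg.mul_const I)).mul hF
  rw [show sg (d + m) = _ from h, integral_map (par_meas d m).aemeasurable hmeas.aestronglyMeasurable,
    integral_prod]
  · unfold FB
    congr 1
    funext v
    unfold am T
    rw [← integral_mul_const]
    congr 1
    funext u
    unfold sl
    rw [J_inner, real_inner_smul_left, real_inner_smul_right, real_inner_comm v y]
    have : Complex.exp (-((wt v * ⟪a, u⟫ + ⟪v, y⟫ : ℝ) : ℂ) * I) =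
        Complex.exp (-((wt v * ⟪a, u⟫ : ℝ) : ℂ) * I) * Complex.exp (-((⟪v, y⟫ : ℝ) : ℂ) * I) := by
      rw [← Complex.exp_add]
      congr 1
      push_cast
      ring
    rw [this]
    ring
  · have hmm : Measurable fun p : E m × E d => Complex.exp
        (-((⟪J a y, J (wt p.1 • p.2) p.1⟫ : ℝ) : ℂ) * I) * F (J (wt p.1 • p.2) p.1) :=
      hmeas.comp (par_meas d m)
    refine Integrable.of_bound hmm.aestronglyMeasurable B
      (Filter.Eventually.of_forall fun w => ?_)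
    rw [norm_mul, Pool.Agent.H789R2.FR.E4w.norm_phase, one_mul]
    exact hB _

theorem cs_lint {α : Type*} [MeasurableSpace α] (μ : Measure α) (f : α → ℝ≥0∞)
    (hf : Measurable f) : (∫⁻ x, f x ∂μ) ^ 2 ≤ μ univ * ∫⁻ x, f x ^ 2 ∂μ := by
  have h2 := ENNReal.lintegral_mul_le_Lp_mul_Lq μ Real.HolderConjugate.two_two (f := f)
    (g := fun _ => (1 : ℝ≥0∞)) hf.aemeasurable aemeasurable_const
  simp only [Pi.mul_apply, mul_one, ENNReal.one_rpow, lintegral_one] at h2
  calc (∫⁻ x, f x ∂μ) ^ 2 ≤ ((∫⁻ x, f x ^ (2 : ℝ) ∂μ) ^ (1 / (2 : ℝ)) * μ univ ^ (1 / (2 : ℝ))) ^ 2 :=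
        by gcongr
    _ = _ := by
        rw [mul_pow, ← ENNReal.rpow_natCast, ← ENNReal.rpow_natCast, ← ENNReal.rpow_mul,
          ← ENNReal.rpow_mul]
        norm_num
        rw [mul_comm]

/-- the fourth power of the Fourier integral of a function supported in a small ball -/
theorem FB_four {m : ℕ} (A : E m → ℂ) (hA : Measurable A) (lam : ℝ)
    (hs : ∀ v, lam < ‖v‖ → A v = 0)
    (hfin : ∫⁻ z in Metric.ball (0 : E m) 1, ‖A z‖ₑ ^ 2 ≠ ⊤) :
    ∫⁻ y, ‖FB A y‖ₑ ^ 4 ≤ ENNReal.ofReal ((2 * Real.pi) ^ m) *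
      volume (Metric.closedBall (0 : E m) lam) ^ 2 *
      ∫⁻ v in Metric.ball (0 : E m) 1, ‖A v‖ₑ ^ 4 := by
  set V := volume (Metric.closedBall (0 : E m) lam) with hV
  set S := ∫⁻ z in Metric.ball (0 : E m) 1, ‖A z‖ₑ ^ 2 with hS
  set Q := ∫⁻ z in Metric.ball (0 : E m) 1, ‖A z‖ₑ ^ 4 with hQ
  have hcb : MeasurableSet (Metric.closedBall (0 : E m) lam) := Metric.isClosed_closedBall.measurableSet
  have hVtop : V ≠ ⊤ := measure_closedBall_lt_top.ne
  have hred : ∀ f : ℂ → ℝ≥0∞, f 0 = 0 → ∫⁻ z in Metric.ball (0 : E m) 1, f (A z) =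
      ∫⁻ z in Metric.ball (0 : E m) 1, (Metric.closedBall (0 : E m) lam).indicator
        (fun z => f (A z)) z := by
    intro f hf
    refine lintegral_congr fun z => ?_
    by_cases hz : z ∈ Metric.closedBall (0 : E m) lam
    · rw [indicator_of_mem hz]
    · rw [indicator_of_notMem hz, hs z, hf]
      rw [mem_closedBall_zero_iff] at hz
      exact lt_of_not_ge hz
  set ν := (volume.restrict (Metric.ball (0 : E m) 1)).restrict (Metric.closedBall (0 : E m) lam)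
    with hν
  have hνu : ν univ ≤ V := by
    rw [hν, Measure.restrict_apply_univ, hV]
    exact Measure.restrict_apply_le _ _
  have hred2 : ∀ f : ℂ → ℝ≥0∞, f 0 = 0 → ∫⁻ z in Metric.ball (0 : E m) 1, f (A z) =
      ∫⁻ z, f (A z) ∂ν := by
    intro f hf
    rw [hred f hf, lintegral_indicator hcb]
  have hsup : ∀ y, ‖FB A y‖ₑ ^ 2 ≤ V * S := by
    intro y
    have h1 : ‖FB A y‖ₑ ≤ ∫⁻ z, ‖A z‖ₑ ∂ν := by
      rw [← hred2 (fun w => ‖w‖ₑ) enorm_zero]
      unfold FB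
      refine (enorm_integral_le_lintegral_enorm _).trans (le_of_eq ?_)
      refine lintegral_congr fun z => ?_
      rw [enorm_mul, Pool.Agent.TH335.RF.enorm_e, mul_one]
    calc ‖FB A y‖ₑ ^ 2 ≤ (∫⁻ z, ‖A z‖ₑ ∂ν) ^ 2 := by gcongr
      _ ≤ ν univ * ∫⁻ z, ‖A z‖ₑ ^ 2 ∂ν := cs_lint ν _ hA.enorm
      _ ≤ V * S := by
          rw [hS, hred2 (fun w => ‖w‖ₑ ^ 2) (by simp)]
          gcongr
  have hL2 : ∫⁻ y, ‖FB A y‖ₑ ^ 2 = ENNReal.ofReal ((2 * Real.pi) ^ m) * S := by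
    have h := FB_L2 A hA (by simpa using hfin)
    simpa using h
  have hSQ : S ^ 2 ≤ V * Q := by
    rw [hS, hQ, hred2 (fun w => ‖w‖ₑ ^ 2) (by simp), hred2 (fun w => ‖w‖ₑ ^ 4) (by simp)]
    refine (cs_lint ν _ (hA.enorm.pow_const 2)).trans ?_
    have : ∀ z, (‖A z‖ₑ ^ 2) ^ 2 = ‖A z‖ₑ ^ 4 := fun z => by rw [← pow_mul]
    simp only [this]
    gcongr
  calc ∫⁻ y, ‖FB A y‖ₑ ^ 4 ≤ ∫⁻ y, (V * S) * ‖FB A y‖ₑ ^ 2 := by
        refine lintegral_mono fun y => ?_
        have : ‖FB A y‖ₑ ^ 4 = ‖FB A y‖ₑ ^ 2 * ‖FB A y‖ₑ ^ 2 := by ring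
        rw [this]
        gcongr
        exact hsup y
    _ = (V * S) * (ENNReal.ofReal ((2 * Real.pi) ^ m) * S) := by
        rw [lintegral_const_mul' _ _ (ENNReal.mul_ne_top hVtop hfin), hL2]
    _ = ENNReal.ofReal ((2 * Real.pi) ^ m) * V * S ^ 2 := by ring
    _ ≤ ENNReal.ofReal ((2 * Real.pi) ^ m) * V * (V * Q) := by gcongr
    _ = _ := by ring

theorem lint_smul {d : ℕ} (H : E d → ℝ≥0∞) (hH : Measurable H) (s : ℝ) (hs : 0 < s) :
    ∫⁻ a, H (s • a) = ENNReal.ofReal ((s ^ d)⁻¹) * ∫⁻ a, H a := by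
  have h := Measure.map_addHaar_smul (volume : Measure (E d)) hs.ne'
  rw [finrank_euclideanSpace_fin, abs_of_pos (by positivity)] at h
  have hm : Measurable fun a : E d => s • a := measurable_const_smul s
  calc ∫⁻ a, H (s • a) = ∫⁻ a, H a ∂(Measure.map (s • ·) volume) := (lintegral_map hH hm).symm
    _ = _ := by rw [h, lintegral_smul_measure, smul_eq_mul]

theorem strip_abs {d m : ℕ} (h : Arch d m) (S : Set (E d)) (hS : MeasurableSet S)
    (hSs : ∀ s : ℝ, 0 < s → s ≤ 1 → ∀ a ∈ S, s • a ∈ S) (P : (E d → ℂ) → Prop) (K : ℝ≥0∞)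
    (hK : ∀ φ : E d → ℂ, Measurable φ → P φ →
      ∫⁻ a in S, ‖T φ a‖ₑ ^ 4 ≤ K * ∫⁻ u, ‖φ u‖ₑ ^ 2 ∂(sg d))
    (F : E (d + m) → ℂ) (hF : Measurable F) (B : ℝ) (hB : ∀ z, ‖F z‖ ≤ B) (lam : ℝ)
    (hlam : lam ≤ 1 / 2) (hs : ∀ z, lam < ‖P2 d m z‖ → F z = 0)
    (hP : ∀ v, P (sl F v)) :
    ∫⁻ x in P1 d m ⁻¹' S, ‖T F x‖ₑ ^ 4 ≤ ENNReal.ofReal ((2 * Real.pi) ^ m) *
      volume (Metric.closedBall (0 : E m) lam) ^ 2 * (ENNReal.ofReal (2 ^ d) * K) *
      ∫⁻ z, ‖F z‖ₑ ^ 2 ∂(sg (d + m)) := by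
  have hfin := sg_finite d
  have hB0 : 0 ≤ B := (norm_nonneg _).trans (hB 0)
  set c1 := ENNReal.ofReal ((2 * Real.pi) ^ m) * volume (Metric.closedBall (0 : E m) lam) ^ 2
    with hc1
  have hc1top : c1 ≠ ⊤ := ENNReal.mul_ne_top ENNReal.ofReal_ne_top
    (ENNReal.pow_ne_top measure_closedBall_lt_top.ne)
  have hslz : ∀ v : E m, lam < ‖v‖ → ∀ u, sl F v u = 0 := by
    intro v hv u
    unfold sl
    apply hs
    rw [P2_J]
    exact hv
  have hamz : ∀ (a : E d) (v : E m), lam < ‖v‖ → am F a v = 0 := by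
    intro a v hv
    unfold am T
    simp [hslz v hv]
  have hamm := am_meas F hF
  have hamb : ∀ (a : E d) (v : E m), ‖am F a v‖ ≤ B * (sg d).real univ := by
    intro a v
    unfold am
    exact Pool.Agent.H789R2.FR.Lp_T_bdd (fun u => hB _) _
  have hT4 : Measurable fun x => ‖T F x‖ₑ ^ 4 := (T_meas' F hF).enorm.pow_const 4
  have hSm : MeasurableSet (P1 d m ⁻¹' S) := (Pool.Agent.H438R2.PD.P1_meas d m) hS
  have hJ := J_mp d m
  -- split the physical variables
  have e1 : ∫⁻ x in P1 d m ⁻¹' S, ‖T F x‖ₑ ^ 4 = ∫⁻ a in S, ∫⁻ y : E m, ‖FB (am F a) y‖ₑ ^ 4 := by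
    rw [← lintegral_indicator hSm, ← hJ.lintegral_comp (hT4.indicator hSm)]
    have hm2 : Measurable fun p : E d × E m =>
        (P1 d m ⁻¹' S).indicator (fun x => ‖T F x‖ₑ ^ 4) (J p.1 p.2) :=
      (hT4.indicator hSm).comp hJ.measurable
    rw [lintegral_prod _ hm2.aemeasurable, ← lintegral_indicator hS]
    refine lintegral_congr fun a => ?_
    by_cases ha : a ∈ S
    · rw [indicator_of_mem ha]
      refine lintegral_congr fun y => ?_
      rw [indicator_of_mem (show J a y ∈ P1 d m ⁻¹' S by rw [mem_preimage, P1_J]; exact ha),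
        T_am h F hF B hB]
    · rw [indicator_of_notMem ha]
      rw [← lintegral_zero (μ := (volume : Measure (E m)))]
      refine lintegral_congr fun y => ?_
      rw [indicator_of_notMem (show J a y ∉ P1 d m ⁻¹' S by rw [mem_preimage, P1_J]; exact ha)]
  have hm4 : Measurable fun p : E d × E m => ‖am F p.1 p.2‖ₑ ^ 4 := hamm.enorm.pow_const 4
  have e2 : ∀ a : E d, ∫⁻ y : E m, ‖FB (am F a) y‖ₑ ^ 4 ≤
      c1 * ∫⁻ v in Metric.ball (0 : E m) 1, ‖am F a v‖ₑ ^ 4 := by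
    intro a
    have ham : Measurable (am F a) := am_meas1 F hF a
    refine FB_four (am F a) ham lam (hamz a) ?_
    have : ∫⁻ z in Metric.ball (0 : E m) 1, ‖am F a z‖ₑ ^ 2 ≤
        ∫⁻ _z in Metric.ball (0 : E m) 1, ENNReal.ofReal ((B * (sg d).real univ) ^ 2) := by
      refine lintegral_mono fun z => ?_
      rw [enorm_pow2]
      exact ENNReal.ofReal_le_ofReal (pow_le_pow_left₀ (norm_nonneg _) (hamb a z) 2)
    refine ne_top_of_le_ne_top ?_ this
    rw [lintegral_const, Measure.restrict_apply_univ]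
    exact ENNReal.mul_ne_top ENNReal.ofReal_ne_top measure_ball_lt_top.ne
  have e3 : ∀ v ∈ Metric.ball (0 : E m) 1, ∫⁻ a in S, ‖am F a v‖ₑ ^ 4 ≤
      (ENNReal.ofReal (2 ^ d) * K) * ∫⁻ u, ‖sl F v u‖ₑ ^ 2 ∂(sg d) := by
    intro v hv
    by_cases hvl : lam < ‖v‖
    · have : ∀ a : E d, ‖am F a v‖ₑ ^ 4 = 0 := fun a => by rw [hamz a v hvl]; simp
      simp [this]
    · push Not at hvl
      have hv2 : ‖v‖ ≤ 1 / 2 := hvl.trans hlam
      have hw1 : 1 / 2 ≤ wt v := by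
        unfold wt
        apply Real.le_sqrt_of_sq_le
        have : ‖v‖ ^ 2 ≤ (1 / 2) ^ 2 := pow_le_pow_left₀ (norm_nonneg _) hv2 2
        linarith
      have hw0 : 0 < wt v := by linarith
      have hw2 : wt v ≤ 1 := Pool.Agent.TH335.RF.wt_le_one v
      have hslm := sl_meas1 F hF v
      have hTm : Measurable fun a => ‖T (sl F v) a‖ₑ ^ 4 := (T_meas' _ hslm).enorm.pow_const 4
      calc ∫⁻ a in S, ‖am F a v‖ₑ ^ 4
          ≤ ∫⁻ a, (S.indicator fun a => ‖T (sl F v) a‖ₑ ^ 4) (wt v • a) := by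
            rw [← lintegral_indicator hS]
            refine lintegral_mono fun a => ?_
            by_cases ha : a ∈ S
            · rw [indicator_of_mem ha, indicator_of_mem (hSs _ hw0 hw2 a ha)]
              rfl
            · rw [indicator_of_notMem ha]
              exact zero_le
        _ = ENNReal.ofReal ((wt v ^ d)⁻¹) * ∫⁻ a in S, ‖T (sl F v) a‖ₑ ^ 4 := by
            rw [lint_smul _ (hTm.indicator hS) _ hw0, lintegral_indicator hS]
        _ ≤ ENNReal.ofReal (2 ^ d) * (K * ∫⁻ u, ‖sl F v u‖ₑ ^ 2 ∂(sg d)) := by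
            gcongr
            · rw [← inv_pow]
              apply pow_le_pow_left₀ (by positivity)
              rw [inv_le_comm₀ hw0 (by norm_num)]
              linarith
            · exact hK _ hslm (hP v)
        _ = _ := by ring
  calc ∫⁻ x in P1 d m ⁻¹' S, ‖T F x‖ₑ ^ 4
      = ∫⁻ a in S, ∫⁻ y : E m, ‖FB (am F a) y‖ₑ ^ 4 := e1
    _ ≤ ∫⁻ a in S, c1 * ∫⁻ v in Metric.ball (0 : E m) 1, ‖am F a v‖ₑ ^ 4 :=
        lintegral_mono fun a => e2 a
    _ = c1 * ∫⁻ v in Metric.ball (0 : E m) 1, ∫⁻ a in S, ‖am F a v‖ₑ ^ 4 := by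
        rw [lintegral_const_mul' _ _ hc1top, lintegral_lintegral_swap hm4.aemeasurable]
    _ ≤ c1 * ∫⁻ v in Metric.ball (0 : E m) 1,
        (ENNReal.ofReal (2 ^ d) * K) * ∫⁻ u, ‖sl F v u‖ₑ ^ 2 ∂(sg d) := by
        gcongr 1
        exact setLIntegral_mono' measurableSet_ball fun v hv => e3 v hv
    _ = c1 * ((ENNReal.ofReal (2 ^ d) * K) * ∫⁻ z, ‖F z‖ₑ ^ 2 ∂(sg (d + m))) := by
        have hm5 : Measurable fun v : E m => ∫⁻ u, ‖sl F v u‖ₑ ^ 2 ∂(sg d) :=
          ((sl_meas F hF).enorm.pow_const 2).lintegral_prod_right'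
        rw [lintegral_const_mul _ hm5, arch_lint h _ (hF.enorm.pow_const 2)]
        rfl
    _ = _ := by rw [← mul_assoc]

theorem St_smul (Y : ℝ) (s : ℝ) (h0 : 0 < s) (h1 : s ≤ 1) (a : E (1 + 1)) (ha : a ∈ St Y) :
    s • a ∈ St Y := by
  have ha' : |a 0| ≤ Y := ha
  show |(s • a) 0| ≤ Y
  rw [PiLp.smul_apply, smul_eq_mul, abs_mul, abs_of_pos h0]
  calc s * |a 0| ≤ 1 * |a 0| := by gcongr
    _ ≤ Y := by rw [one_mul]; exact ha'

/-- The `L^4` estimate for densities near a great circle. -/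
theorem strip (m : ℕ) (hm : 1 ≤ m) : ∃ C : ℝ, 0 < C ∧ ∀ (F : E (1 + 1 + m) → ℂ), Measurable F →
    ∀ B : ℝ, (∀ z, ‖F z‖ ≤ B) → ∀ lam η Y : ℝ, 0 < lam → lam ≤ 1 / 2 → 0 < η → η ≤ 1 →
    (∀ z, lam < ‖P2 (1 + 1) m z‖ → F z = 0) → (∀ z, |(P1 (1 + 1) m z) 0| < η → F z = 0) →
    1 ≤ Y * η →
    ∫⁻ x in P1 (1 + 1) m ⁻¹' (St Y), ‖T F x‖ₑ ^ 4 ≤
      ENNReal.ofReal (C * (1 + Real.log Y) ^ 4 * B ^ 2 * lam ^ (2 * m)) *
        ∫⁻ z, ‖F z‖ₑ ^ 2 ∂(sg (1 + 1 + m)) := by
  obtain ⟨C, hC, h⟩ := planar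
  set b1 : ℝ := volume.real (Metric.ball (0 : E m) 1) with hb1
  have hb1p : 0 < b1 := by
    rw [hb1, measureReal_def]
    exact ENNReal.toReal_pos (Metric.measure_ball_pos volume 0 one_pos).ne' measure_ball_lt_top.ne
  have hpi := Real.pi_pos
  refine ⟨(2 * Real.pi) ^ m * b1 ^ 2 * (2 ^ (1 + 1) * C), by positivity, ?_⟩
  intro F hF B hB lam η Y hlam hlam2 hη hη1 hs1 hs2 hY
  have hB0 : 0 ≤ B := (norm_nonneg _).trans (hB 0)
  have key := strip_abs (arch2 m hm) (St Y) (St_meas Y) (St_smul Y)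
    (fun φ => (∀ u, ‖φ u‖ ≤ B) ∧ ∀ u, |u 0| < η → φ u = 0)
    (ENNReal.ofReal (C * (1 + Real.log Y) ^ 4 * B ^ 2))
    (fun φ hφ hP => h φ hφ B hP.1 η hη hη1 hP.2 Y hY) F hF B hB lam hlam2 hs1
    (fun v => ⟨fun u => hB _, fun u hu => by
      unfold sl
      apply hs2
      rw [P1_J, PiLp.smul_apply, smul_eq_mul, abs_mul, abs_of_nonneg
        (Pool.Agent.TH335.RF.wt_nonneg v)]
      calc wt v * |u 0| ≤ 1 * |u 0| := by
            gcongr
            exact Pool.Agent.TH335.RF.wt_le_one v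
        _ < η := by rw [one_mul]; exact hu⟩)
  refine key.trans (le_of_eq ?_)
  congr 1
  have hv : volume (Metric.closedBall (0 : E m) lam) = ENNReal.ofReal (lam ^ m * b1) := by
    rw [Measure.addHaar_closedBall _ _ hlam.le, finrank_euclideanSpace_fin,
      ENNReal.ofReal_mul (by positivity), hb1, measureReal_def,
      ENNReal.ofReal_toReal measure_ball_lt_top.ne]
  rw [hv, ← ENNReal.ofReal_pow (by positivity), ← ENNReal.ofReal_mul (by positivity),
    ← ENNReal.ofReal_mul (by positivity), ← ENNReal.ofReal_mul (by positivity)]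
  congr 1
  ring

end Pool.Agent.V5helper17.RL
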