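import Mathlib
import Pool.Agent.V5helper17.RL.Planar
import Pool.Agent.TH304.J1597
set_option autoImplicit false

/-! # Colatitude and longitude on the sphere of `E (k + 1)` -/

namespace Pool.Agent.V5helper17.RL

open MeasureTheory Set Complex
open scoped ENNReal RealInnerProductSpace
open Pool.Agent.H789R2.FR (E sg T sg_finite)
open Pool.Agent.H438R2.BR (J J_mp J_inner)
open Pool.Agent.H438R2.BR.T10 (e0 e0_norm)
open Pool.Agent.H438R2.PD (T_meas' T_comp P1 P2 P1_J P2_J)
open Pool.Agent.TH335.RF (line_mp)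

/-- the point with colatitude `θ` in the direction `u` -/
noncomputable def lp {k : ℕ} (θ : ℝ) (u : E k) : E (k + 1) :=
  J (Real.sin θ • u) (Real.cos θ • e0)

theorem lp_meas (k : ℕ) : Measurable fun p : ℝ × E k => lp p.1 p.2 := by
  unfold lp
  have hJc : Measurable fun p : E k × E 1 => J p.1 p.2 := (J_mp k 1).measurable
  exact hJc.comp (Measurable.prodMk ((Real.measurable_sin.comp measurable_fst).smul measurable_snd)
    ((Real.measurable_cos.comp measurable_fst).smul_const _))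

theorem subst_cos (h : ℝ → ℝ≥0∞) :
    ∫⁻ c in Ioo (-1 : ℝ) 1, h c =
      ∫⁻ θ in Ioo (0 : ℝ) Real.pi, ENNReal.ofReal (Real.sin θ) * h (Real.cos θ) := by
  have hpi := Real.pi_pos
  have himg : Real.cos '' Ioo (0 : ℝ) Real.pi = Ioo (-1 : ℝ) 1 := by
    ext c
    constructor
    · rintro ⟨t, ht, rfl⟩
      have h1 := Real.strictAntiOn_cos (show (0 : ℝ) ∈ Icc (0 : ℝ) Real.pi from ⟨le_rfl, hpi.le⟩)
        (show t ∈ Icc (0 : ℝ) Real.pi from ⟨ht.1.le, ht.2.le⟩) ht.1
      have h2 := Real.strictAntiOn_cos (show t ∈ Icc (0 : ℝ) Real.pi from ⟨ht.1.le, ht.2.le⟩)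
        (show Real.pi ∈ Icc (0 : ℝ) Real.pi from ⟨hpi.le, le_rfl⟩) ht.2
      rw [Real.cos_zero] at h1
      rw [Real.cos_pi] at h2
      exact ⟨h2, h1⟩
    · intro hc
      refine ⟨Real.arccos c, ⟨Real.arccos_pos.2 hc.2, ?_⟩, Real.cos_arccos hc.1.le hc.2.le⟩
      exact Real.arccos_lt_pi.2 hc.1
  have hinj : InjOn Real.cos (Ioo (0 : ℝ) Real.pi) :=
    Real.injOn_cos.mono Ioo_subset_Icc_self
  rw [← himg, lintegral_image_eq_lintegral_abs_deriv_mul measurableSet_Ioo
    (fun t _ => (Real.hasDerivAt_cos t).hasDerivWithinAt) hinj]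
  apply setLIntegral_congr_fun measurableSet_Ioo
  intro t ht
  simp only
  rw [abs_neg, abs_of_pos (Real.sin_pos_of_mem_Ioo ht)]

theorem lat_lint {k : ℕ} (hk : 1 ≤ k) (f : E (k + 1) → ℝ≥0∞) (hf : Measurable f) :
    ∫⁻ z, f z ∂(sg (k + 1)) = ∫⁻ θ in Ioo (0 : ℝ) Real.pi,
      ENNReal.ofReal (Real.sin θ ^ (k - 1)) * ∫⁻ u, f (lp θ u) ∂(sg k) := by
  have hfin := sg_finite k
  rw [Pool.Agent.TH278.FN.arch k 1 hk le_rfl f hf]
  have hJc : Measurable fun p : E k × E 1 => J p.1 p.2 := (J_mp k 1).measurable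
  set G : E 1 → ℝ≥0∞ := fun y => ENNReal.ofReal ((1 - ‖y‖ ^ 2) ^ (((k : ℝ) - 2) / 2)) *
        ∫⁻ u, f (J (Real.sqrt (1 - ‖y‖ ^ 2) • u) y) ∂(sg k) with hG
  have hGm : Measurable G := by
    rw [hG]
    refine Measurable.mul ?_ ?_
    · exact ((measurable_const.sub (measurable_norm.pow_const 2)).pow_const _).ennreal_ofReal
    · have h0 : Measurable fun p : E 1 × E k =>
          ((Real.sqrt (1 - ‖p.1‖ ^ 2) • p.2, p.1) : E k × E 1) :=
        Measurable.prodMk ((Real.continuous_sqrt.measurable.comp (measurable_const.sub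
          ((measurable_norm.comp measurable_fst).pow_const 2))).smul measurable_snd) measurable_fst
      have h1 : Measurable fun p : E 1 × E k => f (J (Real.sqrt (1 - ‖p.1‖ ^ 2) • p.2) p.1) :=
        hf.comp (hJc.comp h0)
      exact h1.lintegral_prod_right'
  calc ∫⁻ y in Metric.ball (0 : E 1) 1, G y
      = ∫⁻ c : ℝ, (Metric.ball (0 : E 1) 1).indicator G (c • e0) := by
        rw [← lintegral_indicator measurableSet_ball]
        exact (line_mp.lintegral_comp (hGm.indicator measurableSet_ball)).symm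
    _ = ∫⁻ c in Ioo (-1 : ℝ) 1, G (c • e0) := by
        rw [← lintegral_indicator measurableSet_Ioo]
        refine lintegral_congr fun c => ?_
        by_cases hc : c ∈ Ioo (-1 : ℝ) 1
        · rw [indicator_of_mem ((ball_line c).2 hc), indicator_of_mem hc]
        · rw [indicator_of_notMem (fun h => hc ((ball_line c).1 h)), indicator_of_notMem hc]
    _ = ∫⁻ θ in Ioo (0 : ℝ) Real.pi, ENNReal.ofReal (Real.sin θ) * G (Real.cos θ • e0) :=
        subst_cos fun c => G (c • e0)
    _ = _ := by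
        refine setLIntegral_congr_fun measurableSet_Ioo fun θ hθ => ?_
        have hs := Real.sin_pos_of_mem_Ioo hθ
        have e1 : 1 - ‖Real.cos θ • e0‖ ^ 2 = Real.sin θ ^ 2 := by
          rw [norm_smul, e0_norm, mul_one, Real.norm_eq_abs, sq_abs]
          have := Real.sin_sq_add_cos_sq θ
          linarith
        simp only [hG]
        rw [e1, Real.sqrt_sq hs.le, ← mul_assoc, ← ENNReal.ofReal_mul hs.le]
        have e2 : Real.sin θ * (Real.sin θ ^ 2) ^ (((k : ℝ) - 2) / 2) = Real.sin θ ^ (k - 1) := by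
          rw [← Real.rpow_natCast (Real.sin θ) 2, ← Real.rpow_mul hs.le,
            ← Real.rpow_natCast (Real.sin θ) (k - 1), Nat.cast_sub hk]
          nth_rewrite 1 [← Real.rpow_one (Real.sin θ)]
          rw [← Real.rpow_add hs]
          congr 1
          push_cast
          ring
        rw [e2]
        rfl

/-- the measure on colatitudes -/
noncomputable def cm (k : ℕ) : Measure ℝ :=
  (volume.restrict (Ioo (0 : ℝ) Real.pi)).withDensity
    fun θ => ENNReal.ofReal (Real.sin θ ^ (k - 1))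

theorem dens_meas (k : ℕ) : Measurable fun θ : ℝ => ENNReal.ofReal (Real.sin θ ^ (k - 1)) :=
  (Real.measurable_sin.pow_const _).ennreal_ofReal

theorem cm_lint (k : ℕ) (f : ℝ → ℝ≥0∞) (hf : Measurable f) : ∫⁻ θ, f θ ∂(cm k) =
    ∫⁻ θ in Ioo (0 : ℝ) Real.pi, ENNReal.ofReal (Real.sin θ ^ (k - 1)) * f θ := by
  unfold cm
  rw [lintegral_withDensity_eq_lintegral_mul _ (dens_meas k) hf]
  rfl

theorem cm_fin (k : ℕ) : IsFiniteMeasure (cm k) := by
  refine ⟨?_⟩
  have h := cm_lint k (fun _ => 1) measurable_const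
  rw [lintegral_one] at h
  rw [h]
  have : ∫⁻ θ in Ioo (0 : ℝ) Real.pi, ENNReal.ofReal (Real.sin θ ^ (k - 1)) * 1 ≤
      ∫⁻ _θ in Ioo (0 : ℝ) Real.pi, 1 := by
    refine setLIntegral_mono' measurableSet_Ioo fun θ hθ => ?_
    rw [mul_one, ← ENNReal.ofReal_one]
    apply ENNReal.ofReal_le_ofReal
    exact pow_le_one₀ (Real.sin_pos_of_mem_Ioo hθ).le (Real.sin_le_one θ)
  refine lt_of_le_of_lt this ?_
  rw [lintegral_one, Measure.restrict_apply_univ, Real.volume_Ioo]
  exact ENNReal.ofReal_lt_top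

theorem lat_measure {k : ℕ} (hk : 1 ≤ k) :
    sg (k + 1) = ((cm k).prod (sg k)).map (fun p : ℝ × E k => lp p.1 p.2) := by
  have hfin := sg_finite k
  have hfin2 := cm_fin k
  refine Measure.ext_of_lintegral _ fun f hf => ?_
  have hm : Measurable fun p : ℝ × E k => f (lp p.1 p.2) := hf.comp (lp_meas k)
  rw [lat_lint hk f hf, lintegral_map hf (lp_meas k), lintegral_prod _ hm.aemeasurable,
    cm_lint k _ hm.lintegral_prod_right']

end Pool.Agent.V5helper17.RL
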