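import Mathlib
import Pool.Agent.V5helper17.RL.Lat
import Pool.Agent.H789R2.FR.Lp
set_option autoImplicit false

/-! # The extension operator in colatitude and longitude -/

namespace Pool.Agent.V5helper17.RL

open MeasureTheory Set Complex
open scoped ENNReal RealInnerProductSpace
open Pool.Agent.H789R2.FR (E sg T sg_finite)
open Pool.Agent.H438R2.BR (J J_mp J_inner)
open Pool.Agent.H438R2.BR.T10 (e0 e0_norm)
open Pool.Agent.H438R2.PD (T_meas' T_comp P1 P2 P1_J P2_J P1_meas P2_meas)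
open Pool.Agent.TH335.RF (line_mp e0_zero)

/-- a bounded measurable density in colatitude and longitude -/
structure Bd {k : ℕ} (B : ℝ) (b : ℝ → E k → ℂ) : Prop where
  meas : Measurable fun p : ℝ × E k => b p.1 p.2
  le : ∀ θ u, ‖b θ u‖ ≤ B

theorem Bd.nonneg {k : ℕ} {B : ℝ} {b : ℝ → E k → ℂ} (h : Bd B b) : 0 ≤ B :=
  (norm_nonneg _).trans (h.le 0 0)

theorem Bd.meas1 {k : ℕ} {B : ℝ} {b : ℝ → E k → ℂ} (h : Bd B b) (θ : ℝ) : Measurable (b θ) :=
  Measurable.comp (g := fun p : ℝ × E k => b p.1 p.2) (f := fun u => (θ, u)) h.meas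
    (measurable_const.prodMk measurable_id)

/-- the density on the sphere of `E (k + 1)` -/
noncomputable def Gb {k : ℕ} (b : ℝ → E k → ℂ) (w : E (k + 1)) : ℂ :=
  b (Real.arccos ((P2 k 1 w) 0)) (‖P1 k 1 w‖⁻¹ • P1 k 1 w)

theorem Gb_lp {k : ℕ} (b : ℝ → E k → ℂ) {θ : ℝ} (hθ : θ ∈ Ioo (0 : ℝ) Real.pi) {u : E k}
    (hu : ‖u‖ = 1) : Gb b (lp θ u) = b θ u := by
  have hs := Real.sin_pos_of_mem_Ioo hθ
  unfold Gb lp
  rw [P1_J, P2_J, norm_smul, hu, mul_one, Real.norm_of_nonneg hs.le, smul_smul,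
    inv_mul_cancel₀ hs.ne', one_smul, PiLp.smul_apply, e0_zero, smul_eq_mul, mul_one,
    Real.arccos_cos hθ.1.le hθ.2.le]

theorem Gb_meas {k : ℕ} {B : ℝ} {b : ℝ → E k → ℂ} (h : Bd B b) : Measurable (Gb b) := by
  have h1 : Measurable fun w : E (k + 1) =>
      ((Real.arccos ((P2 k 1 w) 0), ‖P1 k 1 w‖⁻¹ • P1 k 1 w) : ℝ × E k) := by
    refine Measurable.prodMk ?_ ?_
    · exact Real.measurable_arccos.comp ((coord_meas 0).comp (P2_meas k 1))
    · exact (P1_meas k 1).norm.inv.smul (P1_meas k 1)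
  exact Measurable.comp (g := fun p : ℝ × E k => b p.1 p.2) h.meas h1

theorem Gb_le {k : ℕ} {B : ℝ} {b : ℝ → E k → ℂ} (h : Bd B b) (w : E (k + 1)) : ‖Gb b w‖ ≤ B :=
  h.le _ _

/-- the extension operator -/
noncomputable def U {k : ℕ} (b : ℝ → E k → ℂ) (x : E k) (z : ℝ) : ℂ :=
  T (Gb b) (J x (z • e0))

theorem phys_meas (k : ℕ) : Measurable fun p : E k × ℝ => J p.1 (p.2 • e0) := by
  have hJc : Measurable fun p : E k × E 1 => J p.1 p.2 := (J_mp k 1).measurable
  exact hJc.comp (Measurable.prodMk measurable_fst (measurable_snd.smul_const _))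

theorem U_meas {k : ℕ} {B : ℝ} {b : ℝ → E k → ℂ} (h : Bd B b) :
    Measurable fun p : E k × ℝ => U b p.1 p.2 :=
  (T_meas' _ (Gb_meas h)).comp (phys_meas k)

theorem U_le {k : ℕ} {B : ℝ} {b : ℝ → E k → ℂ} (h : Bd B b) (x : E k) (z : ℝ) :
    ‖U b x z‖ ≤ B * (sg (k + 1)).real univ :=
  Pool.Agent.H789R2.FR.Lp_T_bdd (Gb_le h) _

theorem U_add {k : ℕ} {B B' : ℝ} {b b' : ℝ → E k → ℂ} (h : Bd B b) (h' : Bd B' b') (x : E k)
    (z : ℝ) : U (fun θ u => b θ u + b' θ u) x z = U b x z + U b' x z := by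
  unfold U
  rw [← T_add (Gb b) (Gb b') (Gb_meas h) (Gb_meas h') (max B B')
    (fun u => (Gb_le h u).trans (le_max_left _ _))
    (fun u => (Gb_le h' u).trans (le_max_right _ _))]
  rfl

/-- physical coordinates -/
theorem lint_phys {k : ℕ} (H : E (k + 1) → ℝ≥0∞) (hH : Measurable H) :
    ∫⁻ X, H X = ∫⁻ x : E k, ∫⁻ z : ℝ, H (J x (z • e0)) := by
  have hJ := J_mp k 1
  have hm : Measurable fun p : E k × E 1 => H (J p.1 p.2) := hH.comp hJ.measurable
  calc ∫⁻ a, H a = ∫⁻ p : E k × E 1, H (J p.1 p.2) := (hJ.lintegral_comp hH).symm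
    _ = ∫⁻ x : E k, ∫⁻ y : E 1, H (J x y) := lintegral_prod _ hm.aemeasurable
    _ = _ := lintegral_congr fun y =>
        (line_mp.lintegral_comp (f := fun w => H (J y w))
          (Measurable.comp (g := fun p : E k × E 1 => H (J p.1 p.2)) (f := fun w => (y, w)) hm
            (measurable_const.prodMk measurable_id))).symm

/-- integrals over the sphere of functions of the density -/
theorem Gb_lint {k : ℕ} (hk : 1 ≤ k) {B : ℝ} {b : ℝ → E k → ℂ} (h : Bd B b) (f : ℂ → ℝ≥0∞)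
    (hf : Measurable f) : ∫⁻ w, f (Gb b w) ∂(sg (k + 1)) = ∫⁻ θ in Ioo (0 : ℝ) Real.pi,
      ENNReal.ofReal (Real.sin θ ^ (k - 1)) * ∫⁻ u, f (b θ u) ∂(sg k) := by
  rw [lat_lint hk (fun w => f (Gb b w)) (hf.comp (Gb_meas h))]
  refine setLIntegral_congr_fun measurableSet_Ioo fun θ hθ => ?_
  congr 1
  refine lintegral_congr_ae ?_
  filter_upwards [Pool.Agent.H789R2.FR.sg_ae k] with u hu
  rw [Gb_lp b hθ hu]

/-- the formula of the extension operator as an integral over the colatitude -/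
theorem U_formula {k : ℕ} (hk : 1 ≤ k) {B : ℝ} {b : ℝ → E k → ℂ} (h : Bd B b) (x : E k) (z : ℝ) :
    U b x z = ∫ θ in Ioo (0 : ℝ) Real.pi, Complex.exp (-((z * Real.cos θ : ℝ) : ℂ) * I) *
      (((Real.sin θ ^ (k - 1) : ℝ) : ℂ) * T (b θ) (Real.sin θ • x)) := by
  have hfin := sg_finite k
  have hfin2 := cm_fin k
  unfold U
  have hG := Gb_meas h
  have hmeas : Measurable fun w : E (k + 1) =>
      Complex.exp (-((⟪J x (z • e0), w⟫ : ℝ) : ℂ) * I) * Gb b w := by
    have h1 : Measurable fun w : E (k + 1) => (⟪J x (z • e0), w⟫ : ℝ) := by fun_prop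
    exact (Complex.measurable_exp.comp ((Complex.measurable_ofReal.comp h1).neg.mul_const I)).mul hG
  have hmm : Measurable fun p : ℝ × E k => Complex.exp
      (-((⟪J x (z • e0), lp p.1 p.2⟫ : ℝ) : ℂ) * I) * Gb b (lp p.1 p.2) :=
    hmeas.comp (lp_meas k)
  have e1 : T (Gb b) (J x (z • e0)) = ∫ θ, ∫ u, Complex.exp
      (-((⟪J x (z • e0), lp θ u⟫ : ℝ) : ℂ) * I) * Gb b (lp θ u) ∂(sg k) ∂(cm k) := by
    unfold T
    rw [lat_measure hk, integral_map (lp_meas k).aemeasurable hmeas.aestronglyMeasurable,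
      integral_prod]
    refine Integrable.of_bound hmm.aestronglyMeasurable B
      (Filter.Eventually.of_forall fun w => ?_)
    rw [norm_mul, Pool.Agent.H789R2.FR.E4w.norm_phase, one_mul]
    exact Gb_le h _
  rw [e1]
  unfold cm
  rw [integral_withDensity_eq_integral_toReal_smul (dens_meas k)
      (Filter.Eventually.of_forall fun _ => ENNReal.ofReal_lt_top)]
  refine setIntegral_congr_fun measurableSet_Ioo fun θ hθ => ?_
  have hs := Real.sin_pos_of_mem_Ioo hθ
  have hin : ∀ u, (⟪J x (z • e0), lp θ u⟫ : ℝ) = ⟪Real.sin θ • x, u⟫ + z * Real.cos θ := by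
    intro u
    unfold lp
    rw [J_inner, real_inner_smul_left, real_inner_smul_left, real_inner_smul_right,
      real_inner_smul_right, real_inner_self_eq_norm_sq, e0_norm]
    ring
  have e2 : ∫ u, Complex.exp (-((⟪J x (z • e0), lp θ u⟫ : ℝ) : ℂ) * I) * Gb b (lp θ u) ∂(sg k) =
      Complex.exp (-((z * Real.cos θ : ℝ) : ℂ) * I) * T (b θ) (Real.sin θ • x) := by
    unfold T
    rw [← integral_const_mul]
    refine integral_congr_ae ?_
    filter_upwards [Pool.Agent.H789R2.FR.sg_ae k] with u hu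
    rw [Gb_lp b hθ hu, hin]
    have : Complex.exp (-((⟪Real.sin θ • x, u⟫ + z * Real.cos θ : ℝ) : ℂ) * I) =
        Complex.exp (-((z * Real.cos θ : ℝ) : ℂ) * I) *
        Complex.exp (-((⟪Real.sin θ • x, u⟫ : ℝ) : ℂ) * I) := by
      rw [← Complex.exp_add]
      congr 1
      push_cast
      ring
    rw [this]
    ring
  rw [e2, ENNReal.toReal_ofReal (pow_nonneg hs.le _), Complex.real_smul]
  ring

end Pool.Agent.V5helper17.RL
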