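import Mathlib
import Pool.Agent.V5helper17.RL.Uop
import Pool.Agent.V5helper17.RL.Strip
set_option autoImplicit false

/-! # The `L^4` estimate near a great circle through the poles -/

namespace Pool.Agent.V5helper17.RL

open MeasureTheory Set Complex Metric
open scoped ENNReal RealInnerProductSpace
open Pool.Agent.H789R2.FR (E sg T sg_finite)
open Pool.Agent.H438R2.BR (J J_mp J_inner)
open Pool.Agent.H438R2.BR.T10 (e0 e0_norm)
open Pool.Agent.H438R2.PD (T_meas' T_comp P1 P2 P1_J P2_J P1_meas P2_meas)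
open Pool.Agent.TH335.RF (line_mp e0_zero)

theorem iso_mp {n n' : ℕ} (h : n = n') (L : E n ≃ₗᵢ[ℝ] E n') :
    MeasurePreserving L (sg n) (sg n') := by
  subst h
  exact Pool.Agent.H789R2.FR.sg_inv L

theorem T_iso {n n' : ℕ} (h : n = n') (L : E n ≃ₗᵢ[ℝ] E n') (g : E n' → ℂ) (x : E n) :
    T (fun w => g (L w)) x = T g (L x) := by
  unfold T
  rw [← (iso_mp h L).integral_comp L.toHomeomorph.measurableEmbedding
    (fun z => Complex.exp (-((⟪L x, z⟫ : ℝ) : ℂ) * I) * g z)]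
  congr 1
  ext w
  rw [L.inner_map_map]

theorem JP (k m : ℕ) (z : E (k + m)) : J (P1 k m z) (P2 k m z) = z := by
  unfold J P1 P2
  ext i
  refine Fin.addCases (fun j => ?_) (fun j => ?_) i
  · simp [Fin.append_left]
  · simp [Fin.append_right]

theorem J_norm_sq {k m : ℕ} (x : E k) (y : E m) : ‖J x y‖ ^ 2 = ‖x‖ ^ 2 + ‖y‖ ^ 2 := by
  rw [← real_inner_self_eq_norm_sq, J_inner, real_inner_self_eq_norm_sq,
    real_inner_self_eq_norm_sq]

theorem norm_E1 (y : E 1) : ‖y‖ ^ 2 = (y 0) ^ 2 := by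
  rw [EuclideanSpace.norm_eq, Real.sq_sqrt (Finset.sum_nonneg fun i _ => by positivity)]
  simp

theorem inner_E1 (y : E 1) : (⟪e0, y⟫ : ℝ) = y 0 := by
  simp [e0, EuclideanSpace.inner_single_left]

theorem norm_E2 (a : E (1 + 1)) : ‖a‖ ^ 2 = (a 0) ^ 2 + (a 1) ^ 2 := by
  rw [EuclideanSpace.norm_eq, Real.sq_sqrt (Finset.sum_nonneg fun i _ => by positivity)]
  rw [show (Finset.univ : Finset (Fin (1 + 1))) = {0, 1} from rfl]
  rw [Finset.sum_pair (by decide)]
  simp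

/-- distance to a line -/
noncomputable def dl {k : ℕ} (e u : E k) : ℝ := ‖u - ⟪e, u⟫ • e‖

theorem dl_sq {k : ℕ} (e u : E k) (he : ‖e‖ = 1) : dl e u ^ 2 = ‖u‖ ^ 2 - ⟪e, u⟫ ^ 2 := by
  unfold dl
  rw [← real_inner_self_eq_norm_sq, inner_sub_left, inner_sub_right, inner_sub_right,
    real_inner_smul_left, real_inner_smul_left, real_inner_smul_right,
    real_inner_smul_right, real_inner_self_eq_norm_sq, real_inner_self_eq_norm_sq, he,
    real_inner_comm u e]
  ring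

theorem dl_smul {k : ℕ} (e u : E k) (s : ℝ) (hs : 0 ≤ s) : dl e (s • u) = s * dl e u := by
  unfold dl
  rw [real_inner_smul_right, mul_smul, ← smul_sub, norm_smul, Real.norm_of_nonneg hs]

theorem dl_nonneg {k : ℕ} (e u : E k) : 0 ≤ dl e u := norm_nonneg _

/-- the change of frame -/
theorem exists_frame (m : ℕ) (e : E (m + 1)) (he : ‖e‖ = 1) :
    ∃ L : E (m + 1 + 1) ≃ₗᵢ[ℝ] E (1 + 1 + m), ∀ X : E (m + 1 + 1),
      (P1 (1 + 1) m (L X)) 0 = ⟪e, P1 (m + 1) 1 X⟫ ∧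
      ‖P2 (1 + 1) m (L X)‖ = dl e (P1 (m + 1) 1 X) := by
  set v : Fin (1 + 1 + m) → E (m + 1 + 1) := fun i =>
    if i = Fin.castAdd m 0 then J e (0 : E 1) else J (0 : E (m + 1)) e0 with hv
  set i0 : Fin (1 + 1 + m) := Fin.castAdd m 0 with hi0
  set i1 : Fin (1 + 1 + m) := Fin.castAdd m 1 with hi1
  have h01 : i1 ≠ i0 := by
    rw [hi0, hi1]
    intro h
    have := congrArg Fin.val h
    simp at this
  have hv0 : v i0 = J e (0 : E 1) := by rw [hv]; simp
  have hv1 : v i1 = J (0 : E (m + 1)) e0 := by rw [hv]; simp only; rw [if_neg h01]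
  set s : Set (Fin (1 + 1 + m)) := {i0, i1} with hs
  have hn0 : ‖J e (0 : E 1)‖ = 1 := by
    have := J_norm_sq e (0 : E 1)
    rw [he, norm_zero] at this
    have h2 : ‖J e (0 : E 1)‖ ^ 2 = 1 := by rw [this]; norm_num
    exact (pow_eq_one_iff_of_nonneg (norm_nonneg _) (by norm_num)).1 h2
  have hn1 : ‖J (0 : E (m + 1)) e0‖ = 1 := by
    have := J_norm_sq (0 : E (m + 1)) e0
    rw [e0_norm, norm_zero] at this
    have h2 : ‖J (0 : E (m + 1)) e0‖ ^ 2 = 1 := by rw [this]; norm_num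
    exact (pow_eq_one_iff_of_nonneg (norm_nonneg _) (by norm_num)).1 h2
  have hin : (⟪J e (0 : E 1), J (0 : E (m + 1)) e0⟫ : ℝ) = 0 := by
    rw [J_inner]
    simp
  have hort : Orthonormal ℝ (s.domRestrict v) := by
    constructor
    · rintro ⟨i, hi⟩
      rcases hi with rfl | hi
      · show ‖v i0‖ = 1
        rw [hv0]
        exact hn0
      · have : i = i1 := hi
        subst this
        show ‖v i1‖ = 1
        rw [hv1]
        exact hn1
    · rintro ⟨i, hi⟩ ⟨j, hj⟩ hij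
      have hij' : i ≠ j := fun h => hij (Subtype.ext h)
      rcases hi with rfl | hi <;> rcases hj with rfl | hj
      · exact absurd rfl hij'
      · have : j = i1 := hj
        subst this
        show (⟪v i0, v i1⟫ : ℝ) = 0
        rw [hv0, hv1]
        exact hin
      · have : i = i1 := hi
        subst this
        show (⟪v i1, v i0⟫ : ℝ) = 0
        rw [hv0, hv1, real_inner_comm]
        exact hin
      · have h1 : i = i1 := hi
        have h2 : j = i1 := hj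
        exact absurd (h1.trans h2.symm) hij'
  obtain ⟨b, hb⟩ := hort.exists_orthonormalBasis_extension_of_card_eq
    (by simp; omega)
  refine ⟨b.repr, fun X => ?_⟩
  have hX := JP (m + 1) 1 X
  set x' := P1 (m + 1) 1 X with hx'
  set y := P2 (m + 1) 1 X with hy
  have c0 : (b.repr X) i0 = ⟪e, x'⟫ := by
    rw [b.repr_apply_apply, hb i0 (by rw [hs]; simp), hv0, ← hX, J_inner]
    simp
  have c1 : (b.repr X) i1 = y 0 := by
    rw [b.repr_apply_apply, hb i1 (by rw [hs]; simp), hv1, ← hX, J_inner, inner_E1]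
    simp
  have hP10 : (P1 (1 + 1) m (b.repr X)) 0 = ⟪e, x'⟫ := c0
  have hP11 : (P1 (1 + 1) m (b.repr X)) 1 = y 0 := c1
  refine ⟨hP10, ?_⟩
  have hN : ‖b.repr X‖ ^ 2 = ‖x'‖ ^ 2 + (y 0) ^ 2 := by
    rw [b.repr.norm_map, ← hX, J_norm_sq, norm_E1]
  have hN2 : ‖b.repr X‖ ^ 2 = ‖P1 (1 + 1) m (b.repr X)‖ ^ 2 + ‖P2 (1 + 1) m (b.repr X)‖ ^ 2 := by
    rw [← J_norm_sq, JP]
  have h3 : ‖P2 (1 + 1) m (b.repr X)‖ ^ 2 = dl e x' ^ 2 := by
    rw [dl_sq e x' he]
    rw [norm_E2, hP10, hP11] at hN2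
    linarith
  exact (sq_eq_sq₀ (norm_nonneg _) (dl_nonneg _ _)).1 h3

/-- almost everywhere statements on the sphere -/
theorem sphere_ae {k : ℕ} (hk : 1 ≤ k) (Q : E (k + 1) → Prop) (hQ : MeasurableSet {w | Q w})
    (h : ∀ θ ∈ Ioo (0 : ℝ) Real.pi, ∀ u : E k, ‖u‖ = 1 → Q (lp θ u)) :
    ∀ᵐ w ∂(sg (k + 1)), Q w := by
  have hfin := sg_finite k
  have hfin2 := cm_fin k
  rw [lat_measure hk, ae_map_iff (lp_meas k).aemeasurable hQ]
  have h1 : ∀ᵐ p : ℝ × E k ∂((cm k).prod (sg k)), p.1 ∈ Ioo (0 : ℝ) Real.pi := by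
    apply Measure.quasiMeasurePreserving_fst.ae
    unfold cm
    apply (withDensity_absolutelyContinuous _ _).ae_le
    exact ae_restrict_mem measurableSet_Ioo
  have h2 : ∀ᵐ p : ℝ × E k ∂((cm k).prod (sg k)), ‖p.2‖ = 1 :=
    Measure.quasiMeasurePreserving_snd.ae (Pool.Agent.H789R2.FR.sg_ae k)
  filter_upwards [h1, h2] with p hp1 hp2
  exact h p.1 hp1 p.2 hp2

/-- physical integrals over cylinders -/
theorem lint_cyl {k : ℕ} (H : E (k + 1) → ℝ≥0∞) (hH : Measurable H) (S : Set (E k))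
    (hS : MeasurableSet S) :
    ∫⁻ x in S, ∫⁻ z : ℝ, H (J x (z • e0)) = ∫⁻ X in P1 k 1 ⁻¹' S, H X := by
  have hSm : MeasurableSet (P1 k 1 ⁻¹' S) := (P1_meas k 1) hS
  rw [← lintegral_indicator hSm, lint_phys _ (hH.indicator hSm), ← lintegral_indicator hS]
  refine lintegral_congr fun x => ?_
  by_cases hx : x ∈ S
  · rw [indicator_of_mem hx]
    refine lintegral_congr fun z => ?_
    rw [indicator_of_mem (show J x (z • e0) ∈ P1 k 1 ⁻¹' S by rw [mem_preimage, P1_J]; exact hx)]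
  · rw [indicator_of_notMem hx, ← lintegral_zero (μ := (volume : Measure ℝ))]
    refine lintegral_congr fun z => ?_
    rw [indicator_of_notMem (show J x (z • e0) ∉ P1 k 1 ⁻¹' S by rw [mem_preimage, P1_J]; exact hx)]

theorem T_congr {n : ℕ} {f g : E n → ℂ} (h : ∀ᵐ w ∂(sg n), f w = g w) (x : E n) :
    T f x = T g x := by
  unfold T
  refine integral_congr_ae ?_
  filter_upwards [h] with w hw
  rw [hw]

/-- The `L^4` estimate near a great circle through the poles. -/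
theorem near_bound (m : ℕ) (hm : 1 ≤ m) : ∃ C : ℝ, 0 < C ∧ ∀ (B : ℝ) (h : ℝ → E (m + 1) → ℂ),
    Bd B h → ∀ e : E (m + 1), ‖e‖ = 1 → ∀ lam Y : ℝ, 0 < lam → lam ≤ 1 / 2 → 1 ≤ Y * lam →
    (∀ θ ∈ Ioo (0 : ℝ) Real.pi, ∀ u : E (m + 1), ‖u‖ = 1 → h θ u ≠ 0 →
      Real.sin θ * dl e u ≤ lam ∧ 2 * lam ≤ Real.sin θ) →
    ∫⁻ x in closedBall (0 : E (m + 1)) Y, ∫⁻ z : ℝ, ‖U h x z‖ₑ ^ 4 ≤
      ENNReal.ofReal (C * (1 + Real.log Y) ^ 4 * B ^ 2 * lam ^ (2 * m)) *
        ∫⁻ θ in Ioo (0 : ℝ) Real.pi, ENNReal.ofReal (Real.sin θ ^ m) *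
          ∫⁻ u, ‖h θ u‖ₑ ^ 2 ∂(sg (m + 1)) := by
  obtain ⟨C, hC, hst⟩ := strip m hm
  refine ⟨C, hC, fun B h hb e he lam Y hlam hlam2 hY hsupp => ?_⟩
  have hB0 := hb.nonneg
  obtain ⟨L, hL⟩ := exists_frame m e he
  have hdim : m + 1 + 1 = 1 + 1 + m := by omega
  have hLm : Measurable fun X : E (m + 1 + 1) => L X := L.continuous.measurable
  have hLsm : Measurable fun X : E (1 + 1 + m) => L.symm X := L.symm.continuous.measurable
  have hGm := Gb_meas hb
  set Q : Set (E (1 + 1 + m)) := {z | ‖P2 (1 + 1) m z‖ ≤ lam ∧ lam ≤ |(P1 (1 + 1) m z) 0|} with hQ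
  have hQm : MeasurableSet Q :=
    (measurableSet_le (P2_meas (1 + 1) m).norm measurable_const).inter
      (measurableSet_le measurable_const ((coord_meas 0).comp (P1_meas (1 + 1) m)).abs)
  set F : E (1 + 1 + m) → ℂ := Q.indicator fun z => Gb h (L.symm z) with hF
  have hFm : Measurable F := (hGm.comp hLsm).indicator hQm
  have hFB : ∀ z, ‖F z‖ ≤ B := fun z => (norm_indicator_le_norm_self _ _).trans (Gb_le hb _)
  have hae : ∀ᵐ w ∂(sg (m + 1 + 1)), F (L w) = Gb h w := by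
    have h1 : ∀ᵐ w ∂(sg (m + 1 + 1)), Gb h w = 0 ∨ L w ∈ Q := by
      apply sphere_ae (by omega)
      · exact (hGm (measurableSet_singleton 0)).union (hLm hQm)
      · intro θ hθ u hu
        rw [Gb_lp h hθ hu]
        by_cases h0 : h θ u = 0
        · exact Or.inl h0
        · right
          obtain ⟨h2, h3⟩ := hsupp θ hθ u hu h0
          have hs := Real.sin_pos_of_mem_Ioo hθ
          obtain ⟨c0, c1⟩ := hL (lp θ u)
          have hP : P1 (m + 1) 1 (lp θ u) = Real.sin θ • u := by unfold lp; rw [P1_J]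
          rw [hP, real_inner_smul_right] at c0
          rw [hP, dl_smul _ _ _ hs.le] at c1
          refine ⟨?_, ?_⟩
          · rw [c1]; exact h2
          · rw [c0]
            have h4 := dl_sq e u he
            rw [hu] at h4
            apply abs_le_of_sq_le_sq' _ (abs_nonneg _) |>.2
            rw [sq_abs]
            have h5 : (Real.sin θ * dl e u) ^ 2 ≤ lam ^ 2 :=
              pow_le_pow_left₀ (mul_nonneg hs.le (dl_nonneg _ _)) h2 2
            have h6 : (2 * lam) ^ 2 ≤ Real.sin θ ^ 2 := pow_le_pow_left₀ (by positivity) h3 2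
            nlinarith
    filter_upwards [h1] with w hw
    by_cases hwQ : L w ∈ Q
    · rw [hF, indicator_of_mem hwQ, L.symm_apply_apply]
    · rw [hF, indicator_of_notMem hwQ]
      rcases hw with h2 | h2
      · exact h2.symm
      · exact absurd h2 hwQ
  have hT : ∀ X, T (Gb h) X = T F (L X) := by
    intro X
    rw [← T_iso hdim L F X]
    exact (T_congr hae X).symm
  have hTm : Measurable fun X => ‖T (Gb h) X‖ₑ ^ 4 := (T_meas' _ hGm).enorm.pow_const 4
  have hTFm : Measurable fun X => ‖T F X‖ₑ ^ 4 := (T_meas' _ hFm).enorm.pow_const 4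
  have hSt : MeasurableSet (P1 (1 + 1) m ⁻¹' (St Y)) := (P1_meas (1 + 1) m) (St_meas Y)
  have hcb : MeasurableSet (P1 (m + 1) 1 ⁻¹' closedBall (0 : E (m + 1)) Y) :=
    (P1_meas (m + 1) 1) measurableSet_closedBall
  have key := hst F hFm B hFB lam lam Y hlam hlam2 hlam (by linarith)
    (fun z hz => by
      rw [hF]
      apply indicator_of_notMem
      intro h'
      exact absurd h'.1 (not_le.2 hz))
    (fun z hz => by
      rw [hF]
      apply indicator_of_notMem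
      intro h'
      exact absurd h'.2 (not_le.2 hz)) hY
  calc ∫⁻ x in closedBall (0 : E (m + 1)) Y, ∫⁻ z : ℝ, ‖U h x z‖ₑ ^ 4
      = ∫⁻ X in P1 (m + 1) 1 ⁻¹' closedBall (0 : E (m + 1)) Y, ‖T (Gb h) X‖ₑ ^ 4 :=
        lint_cyl (fun X => ‖T (Gb h) X‖ₑ ^ 4) hTm _ measurableSet_closedBall
    _ ≤ ∫⁻ X, (P1 (1 + 1) m ⁻¹' (St Y)).indicator (fun Z => ‖T F Z‖ₑ ^ 4) (L X) := by
        rw [← lintegral_indicator hcb]
        refine lintegral_mono fun X => ?_
        by_cases hX : X ∈ P1 (m + 1) 1 ⁻¹' closedBall (0 : E (m + 1)) Y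
        · rw [indicator_of_mem hX, indicator_of_mem, hT X]
          rw [mem_preimage]
          show |(P1 (1 + 1) m (L X)) 0| ≤ Y
          rw [(hL X).1]
          rw [mem_preimage, mem_closedBall_zero_iff] at hX
          calc |⟪e, P1 (m + 1) 1 X⟫| ≤ ‖e‖ * ‖P1 (m + 1) 1 X‖ := abs_real_inner_le_norm _ _
            _ ≤ Y := by rw [he, one_mul]; exact hX
        · rw [indicator_of_notMem hX]
          exact zero_le
    _ = ∫⁻ X in P1 (1 + 1) m ⁻¹' (St Y), ‖T F X‖ₑ ^ 4 := by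
        rw [L.measurePreserving.lintegral_comp (hTFm.indicator hSt), lintegral_indicator hSt]
    _ ≤ ENNReal.ofReal (C * (1 + Real.log Y) ^ 4 * B ^ 2 * lam ^ (2 * m)) *
        ∫⁻ z, ‖F z‖ₑ ^ 2 ∂(sg (1 + 1 + m)) := key
    _ = ENNReal.ofReal (C * (1 + Real.log Y) ^ 4 * B ^ 2 * lam ^ (2 * m)) *
        ∫⁻ w, ‖Gb h w‖ₑ ^ 2 ∂(sg (m + 1 + 1)) := by
        congr 1
        rw [← (iso_mp hdim L).lintegral_comp (hFm.enorm.pow_const 2)]
        refine lintegral_congr_ae ?_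
        filter_upwards [hae] with w hw
        rw [hw]
    _ = _ := by
        rw [Gb_lint (by omega) hb (fun w => ‖w‖ₑ ^ 2) (measurable_enorm.pow_const 2)]
        rfl

end Pool.Agent.V5helper17.RL
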