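import Mathlib
import Pool.Agent.V5helper17.RL.Uop
set_option autoImplicit false

/-! # The `L^2` bound on cylinders -/

namespace Pool.Agent.V5helper17.RL

open MeasureTheory Set Complex Metric
open scoped ENNReal RealInnerProductSpace
open Pool.Agent.H789R2.FR (E sg T sg_finite L2_bound Lp_gauss Lp_T_meas Lp_T_bdd pl_phase)
open Pool.Agent.H438R2.PD (T_meas')

theorem lint_smul' {d : ℕ} (H : E d → ℝ≥0∞) (hH : Measurable H) (s : ℝ) (hs : 0 < s) :
    ∫⁻ a, H (s • a) = ENNReal.ofReal ((s ^ d)⁻¹) * ∫⁻ a, H a := by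
  have h := Measure.map_addHaar_smul (volume : Measure (E d)) hs.ne'
  rw [finrank_euclideanSpace_fin, abs_of_pos (by positivity)] at h
  have hm : Measurable fun a : E d => s • a := measurable_const_smul s
  calc ∫⁻ a, H (s • a) = ∫⁻ a, H a ∂(Measure.map (s • ·) volume) := (lintegral_map hH hm).symm
    _ = _ := by rw [h, lintegral_smul_measure, smul_eq_mul]

theorem int_sq {n : ℕ} (g : E n → ℂ) (hg : Measurable g) (M : ℝ) (hM : ∀ x, ‖g x‖ ≤ M) :
    ENNReal.ofReal (∫ w, ‖g w‖ ^ 2 ∂(sg n)) = ∫⁻ w, ‖g w‖ₑ ^ 2 ∂(sg n) := by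
  have := sg_finite n
  rw [ofReal_integral_eq_lintegral_ofReal]
  · simp only [enorm_pow2]
  · refine Integrable.of_bound (hg.norm.pow_const 2).aestronglyMeasurable (M ^ 2)
      (Filter.Eventually.of_forall fun w => ?_)
    rw [Real.norm_of_nonneg (by positivity)]
    exact pow_le_pow_left₀ (norm_nonneg _) (hM w) 2
  · exact Filter.Eventually.of_forall fun w => by positivity

theorem ball_L2 (n : ℕ) (hn : 2 ≤ n) : ∃ C : ℝ, 0 < C ∧ ∀ g : E n → ℂ, Measurable g →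
    (∃ M : ℝ, ∀ x, ‖g x‖ ≤ M) → ∀ l : ℝ, 0 < l →
    ∫⁻ x in closedBall (0 : E n) l, ‖T g x‖ₑ ^ 2 ≤
      ENNReal.ofReal (C * l) * ∫⁻ w, ‖g w‖ₑ ^ 2 ∂(sg n) := by
  obtain ⟨C, hC, h⟩ := L2_bound n hn
  refine ⟨Real.exp 1 * C, by positivity, fun g hg hb l hl => ?_⟩
  have h0 := h g hg hb l hl 0
  obtain ⟨M, hM⟩ := hb
  have hint : Integrable fun x : E n => Real.exp (-‖x - 0‖ ^ 2 / l ^ 2) * ‖T g x‖ ^ 2 := by
    refine (Lp_gauss hl 0).mul_bdd (c := (M * (sg n).real univ) ^ 2) ?_ ?_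
    · exact ((Lp_T_meas hg).norm.pow 2).aestronglyMeasurable
    · refine Filter.Eventually.of_forall fun x => ?_
      rw [Real.norm_of_nonneg (by positivity)]
      exact pow_le_pow_left₀ (norm_nonneg _) (Lp_T_bdd hM x) 2
  calc ∫⁻ x in closedBall (0 : E n) l, ‖T g x‖ₑ ^ 2
      ≤ ∫⁻ x in closedBall (0 : E n) l, ENNReal.ofReal
          (Real.exp 1 * (Real.exp (-‖x - 0‖ ^ 2 / l ^ 2) * ‖T g x‖ ^ 2)) := by
        refine setLIntegral_mono' measurableSet_closedBall fun x hx => ?_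
        rw [enorm_pow2]
        apply ENNReal.ofReal_le_ofReal
        rw [← mul_assoc, ← Real.exp_add]
        have h1 : (1 : ℝ) ≤ Real.exp (1 + -‖x - 0‖ ^ 2 / l ^ 2) := by
          apply Real.one_le_exp
          rw [mem_closedBall, dist_eq_norm] at hx
          have h2 : ‖x - 0‖ ^ 2 / l ^ 2 ≤ 1 := by
            rw [div_le_one (by positivity)]
            exact pow_le_pow_left₀ (norm_nonneg _) hx 2
          rw [neg_div]
          linarith
        nlinarith [sq_nonneg ‖T g x‖]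
    _ ≤ ∫⁻ x, ENNReal.ofReal
          (Real.exp 1 * (Real.exp (-‖x - 0‖ ^ 2 / l ^ 2) * ‖T g x‖ ^ 2)) :=
        setLIntegral_le_lintegral _ _
    _ = ENNReal.ofReal (∫ x, Real.exp 1 * (Real.exp (-‖x - 0‖ ^ 2 / l ^ 2) * ‖T g x‖ ^ 2)) := by
        rw [ofReal_integral_eq_lintegral_ofReal (hint.const_mul _)]
        exact Filter.Eventually.of_forall fun x => by positivity
    _ ≤ ENNReal.ofReal (Real.exp 1 * (C * l * ∫ w, ‖g w‖ ^ 2 ∂(sg n))) := by
        apply ENNReal.ofReal_le_ofReal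
        rw [integral_const_mul]
        exact mul_le_mul_of_nonneg_left h0 (Real.exp_pos _).le
    _ = _ := by
        rw [← int_sq g hg M hM, ← ENNReal.ofReal_mul (by positivity)]
        congr 1
        ring

/-- the scaled version -/
theorem ball_L2s (n : ℕ) (hn : 2 ≤ n) : ∃ C : ℝ, 0 < C ∧ ∀ g : E n → ℂ, Measurable g →
    (∃ M : ℝ, ∀ x, ‖g x‖ ≤ M) → ∀ l : ℝ, 0 < l → ∀ s : ℝ, 0 < s →
    ∫⁻ x in closedBall (0 : E n) l, ‖T g (s • x)‖ₑ ^ 2 ≤
      ENNReal.ofReal (C * l * s * (s ^ n)⁻¹) * ∫⁻ w, ‖g w‖ₑ ^ 2 ∂(sg n) := by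
  obtain ⟨C, hC, h⟩ := ball_L2 n hn
  refine ⟨C, hC, fun g hg hb l hl s hs => ?_⟩
  set H : E n → ℝ≥0∞ := (closedBall (0 : E n) (s * l)).indicator fun y => ‖T g y‖ₑ ^ 2 with hH
  have hHm : Measurable H := ((T_meas' g hg).enorm.pow_const 2).indicator measurableSet_closedBall
  have e1 : ∫⁻ x in closedBall (0 : E n) l, ‖T g (s • x)‖ₑ ^ 2 = ∫⁻ x, H (s • x) := by
    rw [← lintegral_indicator measurableSet_closedBall]
    refine lintegral_congr fun x => ?_
    have hmem : x ∈ closedBall (0 : E n) l ↔ s • x ∈ closedBall (0 : E n) (s * l) := by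
      rw [mem_closedBall_zero_iff, mem_closedBall_zero_iff, norm_smul, Real.norm_of_nonneg hs.le]
      constructor
      · intro h
        gcongr
      · intro h
        exact le_of_mul_le_mul_left h hs
    by_cases hx : x ∈ closedBall (0 : E n) l
    · rw [indicator_of_mem hx, hH, indicator_of_mem (hmem.1 hx)]
    · rw [indicator_of_notMem hx, hH, indicator_of_notMem (fun h => hx (hmem.2 h))]
  rw [e1, lint_smul' H hHm s hs, hH, lintegral_indicator measurableSet_closedBall]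
  calc ENNReal.ofReal ((s ^ n)⁻¹) * ∫⁻ a in closedBall (0 : E n) (s * l), ‖T g a‖ₑ ^ 2
      ≤ ENNReal.ofReal ((s ^ n)⁻¹) *
        (ENNReal.ofReal (C * (s * l)) * ∫⁻ w, ‖g w‖ₑ ^ 2 ∂(sg n)) := by
        gcongr
        exact h g hg hb (s * l) (by positivity)
    _ = _ := by
        rw [← mul_assoc, ← ENNReal.ofReal_mul (by positivity)]
        congr 2
        ring

/-- squared norm of a density -/
noncomputable def N2 {k : ℕ} (b : ℝ → E k → ℂ) : ℝ≥0∞ :=
  ∫⁻ θ in Ioo (0 : ℝ) Real.pi, ∫⁻ u, ‖b θ u‖ₑ ^ 2 ∂(sg k)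

/-- the amplitude at the colatitude `θ` -/
noncomputable def Fa {k : ℕ} (b : ℝ → E k → ℂ) (x : E k) (θ : ℝ) : ℂ :=
  ((Real.sin θ ^ (k - 1) : ℝ) : ℂ) * T (b θ) (Real.sin θ • x)

theorem Fa_meas {k : ℕ} {B : ℝ} {b : ℝ → E k → ℂ} (h : Bd B b) :
    Measurable fun p : E k × ℝ => Fa b p.1 p.2 := by
  have hfin := sg_finite k
  have h0 : Measurable fun q : (E k × ℝ) × E k => ((q.1.2, q.2) : ℝ × E k) :=
    Measurable.prodMk (measurable_snd.comp measurable_fst) measurable_snd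
  have h1 : Measurable fun q : (E k × ℝ) × E k => b q.1.2 q.2 :=
    Measurable.comp (g := fun p : ℝ × E k => b p.1 p.2) h.meas h0
  have h2 : Measurable fun q : (E k × ℝ) × E k => (⟪Real.sin q.1.2 • q.1.1, q.2⟫ : ℝ) := by
    have h3 : Measurable fun q : (E k × ℝ) × E k => Real.sin q.1.2 • q.1.1 :=
      (Real.measurable_sin.comp (measurable_snd.comp measurable_fst)).smul
        (measurable_fst.comp measurable_fst)
    exact (continuous_inner (𝕜 := ℝ)).measurable.comp (h3.prodMk measurable_snd)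
  have h4 : Measurable fun q : (E k × ℝ) × E k =>
    Complex.exp (-((⟪Real.sin q.1.2 • q.1.1, q.2⟫ : ℝ) : ℂ) * I) * b q.1.2 q.2 :=
    (Complex.measurable_exp.comp ((Complex.measurable_ofReal.comp h2).neg.mul_const I)).mul h1
  have h5 : Measurable fun p : E k × ℝ => T (b p.2) (Real.sin p.2 • p.1) :=
    (h4.stronglyMeasurable.integral_prod_right (ν := sg k)).measurable
  exact ((Real.measurable_sin.comp measurable_snd).pow_const _).complex_ofReal.mul h5

theorem Fa_meas1 {k : ℕ} {B : ℝ} {b : ℝ → E k → ℂ} (h : Bd B b) (x : E k) :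
    Measurable (Fa b x) :=
  Measurable.comp (g := fun p : E k × ℝ => Fa b p.1 p.2) (f := fun θ => (x, θ)) (Fa_meas h)
    (measurable_const.prodMk measurable_id)

theorem Fa_le {k : ℕ} {B : ℝ} {b : ℝ → E k → ℂ} (h : Bd B b) (x : E k) (θ : ℝ) :
    ‖Fa b x θ‖ ≤ B * (sg k).real univ := by
  unfold Fa
  rw [norm_mul, Complex.norm_real, norm_pow, Real.norm_eq_abs]
  calc |Real.sin θ| ^ (k - 1) * ‖T (b θ) (Real.sin θ • x)‖ ≤ 1 * (B * (sg k).real univ) := by
        apply mul_le_mul (pow_le_one₀ (abs_nonneg _) (Real.abs_sin_le_one θ))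
          (Lp_T_bdd (h.le θ) _) (norm_nonneg _) zero_le_one
    _ = _ := one_mul _

/-- Plancherel in the last variable -/
theorem U_planch {k : ℕ} (hk : 1 ≤ k) {B : ℝ} {b : ℝ → E k → ℂ} (h : Bd B b) (x : E k) :
    ∫⁻ z : ℝ, ‖U b x z‖ₑ ^ 2 ≤ ENNReal.ofReal (2 * Real.pi) *
      ∫⁻ θ in Ioo (0 : ℝ) Real.pi, ENNReal.ofReal (Real.sin θ)⁻¹ * ‖Fa b x θ‖ₑ ^ 2 := by
  have h0 := pl_phase (Ioo (0 : ℝ) Real.pi) measurableSet_Ioo
    (by rw [Real.volume_Ioo]; exact ENNReal.ofReal_lt_top) Real.cos (fun θ => -Real.sin θ)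
    Real.measurable_cos Real.measurable_sin.neg
    (fun t _ => (Real.hasDerivAt_cos t).hasDerivWithinAt)
    (fun t ht => neg_ne_zero.2 (Real.sin_pos_of_mem_Ioo ht).ne')
    (Real.injOn_cos.mono Ioo_subset_Icc_self) (Fa b x) (Fa_meas1 h x) ⟨_, Fa_le h x⟩
  simp only [enorm_pow2]
  simp only [U_formula hk h]
  refine h0.trans ?_
  gcongr 1
  refine setLIntegral_mono' measurableSet_Ioo fun θ hθ => ?_
  have hs := Real.sin_pos_of_mem_Ioo hθ
  rw [abs_neg, abs_of_pos hs, div_eq_inv_mul, ENNReal.ofReal_mul (inv_nonneg.2 hs.le)]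

/-- The `L^2` bound on cylinders. -/
theorem L2cyl (k : ℕ) (hk : 2 ≤ k) : ∃ C : ℝ, 0 < C ∧ ∀ (B : ℝ) (b : ℝ → E k → ℂ), Bd B b →
    ∀ ρ : ℝ, 0 < ρ → ∫⁻ x in closedBall (0 : E k) ρ, ∫⁻ z : ℝ, ‖U b x z‖ₑ ^ 2 ≤
      ENNReal.ofReal (C * ρ) * N2 b := by
  obtain ⟨C, hC, h⟩ := ball_L2s k hk
  have hpi := Real.pi_pos
  refine ⟨2 * Real.pi * C, by positivity, fun B b hb ρ hρ => ?_⟩
  have hm : Measurable fun p : E k × ℝ => ENNReal.ofReal (Real.sin p.2)⁻¹ * ‖Fa b p.1 p.2‖ₑ ^ 2 :=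
    ((Real.measurable_sin.comp measurable_snd).inv.ennreal_ofReal).mul
      ((Fa_meas hb).enorm.pow_const 2)
  calc ∫⁻ x in closedBall (0 : E k) ρ, ∫⁻ z : ℝ, ‖U b x z‖ₑ ^ 2
      ≤ ∫⁻ x in closedBall (0 : E k) ρ, ENNReal.ofReal (2 * Real.pi) *
      ∫⁻ θ in Ioo (0 : ℝ) Real.pi, ENNReal.ofReal (Real.sin θ)⁻¹ * ‖Fa b x θ‖ₑ ^ 2 :=
        lintegral_mono fun x => U_planch (by omega) hb x
    _ = ENNReal.ofReal (2 * Real.pi) * ∫⁻ θ in Ioo (0 : ℝ) Real.pi,
      ∫⁻ x in closedBall (0 : E k) ρ, ENNReal.ofReal (Real.sin θ)⁻¹ * ‖Fa b x θ‖ₑ ^ 2 := by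
        rw [lintegral_const_mul' _ _ ENNReal.ofReal_ne_top,
          lintegral_lintegral_swap hm.aemeasurable]
    _ ≤ ENNReal.ofReal (2 * Real.pi) * ∫⁻ θ in Ioo (0 : ℝ) Real.pi,
        ENNReal.ofReal (C * ρ) * ∫⁻ u, ‖b θ u‖ₑ ^ 2 ∂(sg k) := by
        gcongr 1
        refine setLIntegral_mono' measurableSet_Ioo fun θ hθ => ?_
        have hs := Real.sin_pos_of_mem_Ioo hθ
        have hs1 := Real.sin_le_one θ
        set s := Real.sin θ with hsdef
        have e1 : ∀ x : E k, ENNReal.ofReal s⁻¹ * ‖Fa b x θ‖ₑ ^ 2 =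
            ENNReal.ofReal (s⁻¹ * (s ^ (k - 1)) ^ 2) * ‖T (b θ) (s • x)‖ₑ ^ 2 := by
          intro x
          unfold Fa
          rw [← hsdef, enorm_mul, mul_pow, ← mul_assoc, enorm_pow2, Complex.norm_real,
            Real.norm_of_nonneg (by positivity), ← ENNReal.ofReal_mul (by positivity)]
        simp only [e1]
        rw [lintegral_const_mul' _ _ ENNReal.ofReal_ne_top]
        calc ENNReal.ofReal (s⁻¹ * (s ^ (k - 1)) ^ 2) *
              ∫⁻ x in closedBall (0 : E k) ρ, ‖T (b θ) (s • x)‖ₑ ^ 2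
            ≤ ENNReal.ofReal (s⁻¹ * (s ^ (k - 1)) ^ 2) *
              (ENNReal.ofReal (C * ρ * s * (s ^ k)⁻¹) * ∫⁻ w, ‖b θ w‖ₑ ^ 2 ∂(sg k)) := by
              gcongr
              exact h (b θ) (hb.meas1 θ) ⟨B, hb.le θ⟩ ρ hρ s hs
          _ = ENNReal.ofReal ((s⁻¹ * (s ^ (k - 1)) ^ 2) * (C * ρ * s * (s ^ k)⁻¹)) *
              ∫⁻ w, ‖b θ w‖ₑ ^ 2 ∂(sg k) := by
              rw [← mul_assoc, ← ENNReal.ofReal_mul (by positivity)]
          _ ≤ _ := by
              refine mul_le_mul' (ENNReal.ofReal_le_ofReal ?_) le_rfl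
              obtain ⟨j, rfl⟩ : ∃ j, k = j + 2 := ⟨k - 2, by omega⟩
              have e2 : (s⁻¹ * (s ^ (j + 2 - 1)) ^ 2) * (C * ρ * s * (s ^ (j + 2))⁻¹) =
                  C * ρ * s ^ j := by
                rw [show j + 2 - 1 = j + 1 by omega]
                field_simp
                ring
              rw [e2]
              have : s ^ j ≤ 1 := pow_le_one₀ hs.le hs1
              calc C * ρ * s ^ j ≤ C * ρ * 1 := by gcongr
                _ = _ := mul_one _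
    _ = _ := by
        rw [lintegral_const_mul' _ _ ENNReal.ofReal_ne_top, ← mul_assoc,
          ← ENNReal.ofReal_mul (by positivity)]
        unfold N2
        congr 2
        ring

end Pool.Agent.V5helper17.RL
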