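import Mathlib
import Pool.Agent.V5helper17.RL.L2c
import Pool.Agent.V5helper17.RL.Frame
import Pool.Agent.H789R2.FR.AOp
import Pool.Agent.H789R2.FR.Tail
import Pool.Agent.H789R2.FR.Caps
set_option autoImplicit false

/-! # Averages over the spheres of constant colatitude -/

namespace Pool.Agent.V5helper17.RL

open MeasureTheory Set Complex Metric
open scoped ENNReal RealInnerProductSpace
open Pool.Agent.H789R2.FR (E sg T sg_finite A D)

theorem w_meas {α : Type*} [MeasurableSpace α] {k : ℕ} (R : ℝ) {f g : α → E k}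
    (hf : Measurable f) (hg : Measurable g) :
    Measurable fun a => Real.exp (-(R / 2) * ‖f a - g a‖ ^ 2) :=
  Real.measurable_exp.comp (measurable_const.mul ((hf.sub hg).norm.pow_const 2))

theorem D_meas {k : ℕ} (R : ℝ) : Measurable (D (n := k) R) := by
  have hfin := sg_finite k
  have h : Measurable fun p : E k × E k => Real.exp (-(R / 2) * ‖p.1 - p.2‖ ^ 2) :=
    w_meas R measurable_fst measurable_snd
  exact (h.stronglyMeasurable.integral_prod_right (ν := sg k)).measurable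

theorem A_le {k : ℕ} (R : ℝ) (hR : 0 ≤ R) (g : E k → ℂ) (B : ℝ) (hB : ∀ u, ‖g u‖ ≤ B) (y : E k) :
    ‖A R g y‖ ≤ B := by
  have hfin := sg_finite k
  have hB0 : 0 ≤ B := (norm_nonneg _).trans (hB 0)
  have hD0 : 0 ≤ D R y := integral_nonneg fun w => (Real.exp_pos _).le
  have hint : Integrable (fun w : E k => Real.exp (-(R / 2) * ‖y - w‖ ^ 2)) (sg k) := by
    refine Integrable.of_bound (w_meas R measurable_const measurable_id).aestronglyMeasurable 1
      (Filter.Eventually.of_forall fun w => ?_)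
    rw [Real.norm_of_nonneg (Real.exp_pos _).le]
    apply Real.exp_le_one_iff.2
    have : 0 ≤ R / 2 * ‖y - w‖ ^ 2 := by positivity
    linarith
  unfold A
  rw [norm_div, Complex.norm_real, Real.norm_of_nonneg hD0]
  have h1 : ‖∫ w, ((Real.exp (-(R / 2) * ‖y - w‖ ^ 2) : ℝ) : ℂ) * g w ∂(sg k)‖ ≤ B * D R y := by
    calc ‖∫ w, ((Real.exp (-(R / 2) * ‖y - w‖ ^ 2) : ℝ) : ℂ) * g w ∂(sg k)‖
        ≤ ∫ w, B * Real.exp (-(R / 2) * ‖y - w‖ ^ 2) ∂(sg k) := by
          refine norm_integral_le_of_norm_le (hint.const_mul B)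
            (Filter.Eventually.of_forall fun w => ?_)
          rw [norm_mul, Complex.norm_real, Real.norm_of_nonneg (Real.exp_pos _).le, mul_comm]
          exact mul_le_mul_of_nonneg_right (hB w) (Real.exp_pos _).le
      _ = _ := by rw [integral_const_mul]; rfl
  rcases eq_or_lt_of_le hD0 with h0 | h0
  · rw [← h0, div_zero]; exact hB0
  · rw [div_le_iff₀ h0]; exact h1

/-- the averaging operator -/
noncomputable def Av {k : ℕ} (R : ℝ) (b : ℝ → E k → ℂ) (θ : ℝ) (u : E k) : ℂ := A R (b θ) u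

theorem Av_bd {k : ℕ} {R : ℝ} (hR : 0 ≤ R) {B : ℝ} {b : ℝ → E k → ℂ} (h : Bd B b) :
    Bd B (Av R b) := by
  have hfin := sg_finite k
  refine ⟨?_, fun θ u => A_le R hR (b θ) B (h.le θ) u⟩
  have h0 : Measurable fun q : (ℝ × E k) × E k => ((q.1.1, q.2) : ℝ × E k) :=
    Measurable.prodMk (measurable_fst.comp measurable_fst) measurable_snd
  have h1 : Measurable fun q : (ℝ × E k) × E k => b q.1.1 q.2 :=
    Measurable.comp (g := fun p : ℝ × E k => b p.1 p.2) h.meas h0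
  have h2 : Measurable fun q : (ℝ × E k) × E k =>
      ((Real.exp (-(R / 2) * ‖q.1.2 - q.2‖ ^ 2) : ℝ) : ℂ) * b q.1.1 q.2 :=
    (w_meas R (measurable_snd.comp measurable_fst) measurable_snd).complex_ofReal.mul h1
  have h3 : Measurable fun p : ℝ × E k =>
      ∫ w, ((Real.exp (-(R / 2) * ‖p.2 - w‖ ^ 2) : ℝ) : ℂ) * b p.1 w ∂(sg k) :=
    (h2.stronglyMeasurable.integral_prod_right (ν := sg k)).measurable
  exact h3.div ((D_meas R).comp measurable_snd).complex_ofReal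

theorem A_add {k : ℕ} (R : ℝ) (hR : 0 ≤ R) (f g : E k → ℂ) (hf : Measurable f)
    (hg : Measurable g) (B : ℝ) (hfB : ∀ u, ‖f u‖ ≤ B) (hgB : ∀ u, ‖g u‖ ≤ B) (y : E k) :
    A R (fun u => f u + g u) y = A R f y + A R g y := by
  unfold A
  rw [← add_div, ← integral_add (Pool.Agent.H789R2.FR.AOp.kg_integrable R hR hf hfB y)
    (Pool.Agent.H789R2.FR.AOp.kg_integrable R hR hg hgB y)]
  congr 2
  funext w
  ring

theorem Av_add {k : ℕ} {R : ℝ} (hR : 0 ≤ R) {B B' : ℝ} {b b' : ℝ → E k → ℂ} (h : Bd B b)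
    (h' : Bd B' b') : Av R (fun θ u => b θ u + b' θ u) = fun θ u => Av R b θ u + Av R b' θ u := by
  funext θ u
  exact A_add R hR (b θ) (b' θ) (h.meas1 θ) (h'.meas1 θ) (max B B')
    (fun u => (h.le θ u).trans (le_max_left _ _)) (fun u => (h'.le θ u).trans (le_max_right _ _)) u

theorem A_lint {k : ℕ} (hk : 2 ≤ k) (R : ℝ) (hR : 0 < R) (g : E k → ℂ) (hg : Measurable g) (B : ℝ)
    (hB : ∀ u, ‖g u‖ ≤ B) : ∫⁻ u, ‖A R g u‖ₑ ^ 2 ∂(sg k) ≤ ∫⁻ u, ‖g u‖ₑ ^ 2 ∂(sg k) := by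
  have h := Pool.Agent.H789R2.FR.A_L2 k hk R hR g hg ⟨B, hB⟩
  have hAm : Measurable (A R g) := (Av_bd hR.le (k := k) (B := B) (b := fun _ => g)
    ⟨hg.comp measurable_snd, fun _ u => hB u⟩).meas1 0
  rw [← int_sq g hg B hB, ← int_sq (A R g) hAm B (A_le R hR.le g B hB)]
  exact ENNReal.ofReal_le_ofReal h

theorem Av_wN2 {k : ℕ} (hk : 2 ≤ k) {R : ℝ} (hR : 0 < R) {B : ℝ} {b : ℝ → E k → ℂ} (h : Bd B b)
    (w : ℝ → ℝ≥0∞) :
    ∫⁻ θ in Ioo (0 : ℝ) Real.pi, w θ * ∫⁻ u, ‖Av R b θ u‖ₑ ^ 2 ∂(sg k) ≤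
    ∫⁻ θ in Ioo (0 : ℝ) Real.pi, w θ * ∫⁻ u, ‖b θ u‖ₑ ^ 2 ∂(sg k) := by
  refine lintegral_mono fun θ => ?_
  exact mul_le_mul' le_rfl (A_lint hk R hR (b θ) (h.meas1 θ) B (h.le θ))

theorem Av_N2 {k : ℕ} (hk : 2 ≤ k) {R : ℝ} (hR : 0 < R) {B : ℝ} {b : ℝ → E k → ℂ} (h : Bd B b) :
    N2 (Av R b) ≤ N2 b := by
  unfold N2
  refine lintegral_mono fun θ => ?_
  exact A_lint hk R hR (b θ) (h.meas1 θ) B (h.le θ)

/-- restriction of a density to a set -/
noncomputable def cut {k : ℕ} (S : Set (ℝ × E k)) (b : ℝ → E k → ℂ) (θ : ℝ) (u : E k) : ℂ :=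
  S.indicator (fun p => b p.1 p.2) (θ, u)

theorem cut_mem {k : ℕ} {S : Set (ℝ × E k)} (b : ℝ → E k → ℂ) {θ : ℝ} {u : E k}
    (h : (θ, u) ∈ S) : cut S b θ u = b θ u := indicator_of_mem h _

theorem cut_notMem {k : ℕ} {S : Set (ℝ × E k)} (b : ℝ → E k → ℂ) {θ : ℝ} {u : E k}
    (h : (θ, u) ∉ S) : cut S b θ u = 0 := indicator_of_notMem h _

theorem cut_bd {k : ℕ} {S : Set (ℝ × E k)} (hS : MeasurableSet S) {B : ℝ} {b : ℝ → E k → ℂ}
    (h : Bd B b) : Bd B (cut S b) :=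
  ⟨h.meas.indicator hS, fun θ u => (norm_indicator_le_norm_self _ _).trans (h.le θ u)⟩

theorem cut_le {k : ℕ} (S : Set (ℝ × E k)) (b : ℝ → E k → ℂ) (θ : ℝ) (u : E k) :
    ‖cut S b θ u‖ₑ ≤ ‖b θ u‖ₑ := by
  rw [← ofReal_norm, ← ofReal_norm]
  exact ENNReal.ofReal_le_ofReal (norm_indicator_le_norm_self _ _)

theorem cut_add {k : ℕ} (S : Set (ℝ × E k)) (b : ℝ → E k → ℂ) :
    (fun θ u => cut S b θ u + cut Sᶜ b θ u) = b := by
  funext θ u
  by_cases h : (θ, u) ∈ S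
  · rw [cut_mem b h, cut_notMem (S := Sᶜ) b (fun h' : (θ, u) ∈ Sᶜ => h' h), add_zero]
  · rw [cut_notMem b h, cut_mem (S := Sᶜ) b h, zero_add]

theorem cut_N2 {k : ℕ} (S : Set (ℝ × E k)) (b : ℝ → E k → ℂ) : N2 (cut S b) ≤ N2 b := by
  unfold N2
  refine lintegral_mono fun θ => lintegral_mono fun u => ?_
  have := cut_le S b θ u
  simp only
  gcongr

/-- the neighbourhood of the great circle through the poles in the direction `e` -/
def Dn {k : ℕ} (e : E k) (lam : ℝ) : Set (ℝ × E k) := {p | Real.sin p.1 * dl e p.2 ≤ lam}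

theorem dl_meas2 {k : ℕ} : Measurable fun p : E k × E k => dl p.1 p.2 := by
  unfold dl
  have h1 : Measurable fun p : E k × E k => (⟪p.1, p.2⟫ : ℝ) :=
    (continuous_inner (𝕜 := ℝ)).measurable
  exact (measurable_snd.sub (h1.smul measurable_fst)).norm

theorem Dn_meas {k : ℕ} (e : E k) (lam : ℝ) : MeasurableSet (Dn e lam) := by
  unfold Dn
  refine measurableSet_le ?_ measurable_const
  have h : Measurable fun p : ℝ × E k => dl e p.2 :=
    Measurable.comp (g := fun p : E k × E k => dl p.1 p.2) (f := fun p : ℝ × E k => (e, p.2))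
      dl_meas2 (measurable_const.prodMk measurable_snd)
  exact (Real.measurable_sin.comp measurable_fst).mul h

theorem dl_le {k : ℕ} (e u : E k) (he : ‖e‖ = 1) (t : ℝ) : dl e u ≤ ‖u - t • e‖ := by
  apply (sq_le_sq₀ (dl_nonneg _ _) (norm_nonneg _)).1
  rw [dl_sq e u he, ← real_inner_self_eq_norm_sq (u - t • e), inner_sub_left, inner_sub_right,
    inner_sub_right, real_inner_smul_left, real_inner_smul_left, real_inner_smul_right,
    real_inner_smul_right, real_inner_self_eq_norm_sq, real_inner_self_eq_norm_sq, he,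
    real_inner_comm e u]
  nlinarith [sq_nonneg (t - ⟪e, u⟫)]

theorem dl_lip {k : ℕ} (e u v : E k) (he : ‖e‖ = 1) : dl e u ≤ dl e v + ‖u - v‖ := by
  have h := dl_le e u he ⟪e, v⟫
  have h2 : ‖u - ⟪e, v⟫ • e‖ ≤ ‖u - v‖ + ‖v - ⟪e, v⟫ • e‖ := by
    have : u - ⟪e, v⟫ • e = (u - v) + (v - ⟪e, v⟫ • e) := by abel
    rw [this]
    exact norm_add_le _ _
  unfold dl at *
  linarith

end Pool.Agent.V5helper17.RL
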