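import Mathlib
import Pool.Agent.V5helper17.RL.Av
set_option autoImplicit false

/-! # The contribution of the densities far from the great circle -/

namespace Pool.Agent.V5helper17.RL

open MeasureTheory Set Complex Metric
open scoped ENNReal RealInnerProductSpace
open Pool.Agent.H789R2.FR (E sg T sg_finite A D)

theorem sin_weight {k : ℕ} (hk : 2 ≤ k) {s : ℝ} (hs : 0 < s) (hs1 : s ≤ 1) :
    s⁻¹ * (s ^ (k - 1)) ^ 2 ≤ 1 := by
  obtain ⟨j, rfl⟩ : ∃ j, k = j + 2 := ⟨k - 2, by omega⟩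
  have e2 : s⁻¹ * (s ^ (j + 2 - 1)) ^ 2 = s ^ (2 * j + 1) := by
    rw [show j + 2 - 1 = j + 1 by omega, ← pow_mul, show (j + 1) * 2 = (2 * j + 1) + 1 by ring,
      pow_succ]
    field_simp
  rw [e2]
  exact pow_le_one₀ hs.le hs1

theorem far_one (k : ℕ) (hk : 2 ≤ k) : ∃ C : ℝ, 0 < C ∧ ∀ (B : ℝ) (b : ℝ → E k → ℂ), Bd B b →
    ∀ R : ℝ, 1 ≤ R → ∀ e : E k, ‖e‖ = 1 → ∀ lam : ℝ, 0 < lam → ∀ x : E k, x ≠ 0 → ‖x‖ ≤ 4 * R →
    ‖‖x‖⁻¹ • x - e‖ < lam / 4 →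
    ∫⁻ z : ℝ, ‖U (Av R (cut (Dn e (lam / 2))ᶜ b)) x z‖ₑ ^ 2 ≤
      ENNReal.ofReal (C * B ^ 2 * Real.exp (-(‖x‖ ^ 2 * lam ^ 2 / (1600 * R)))) := by
  obtain ⟨C, hC, ht⟩ := Pool.Agent.H789R2.FR.tail k hk
  have hpi := Real.pi_pos
  refine ⟨2 * Real.pi * Real.pi * C ^ 2, by positivity,
    fun B b hb R hR e he lam hlam x hx hxR hxe => ?_⟩
  have hB0 := hb.nonneg
  have hR0 : 0 < R := by linarith
  set g := cut (Dn e (lam / 2))ᶜ b with hg
  have hgb : Bd B g := cut_bd (Dn_meas e (lam / 2)).compl hb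
  have hAb : Bd B (Av R g) := Av_bd hR0.le hgb
  set δ : ℝ := C * B * Real.exp (-(‖x‖ ^ 2 * lam ^ 2 / (3200 * R))) with hδ
  have hδ0 : 0 ≤ δ := by positivity
  have hxn : 0 < ‖x‖ := norm_pos_iff.2 hx
  have key : ∀ θ ∈ Ioo (0 : ℝ) Real.pi, ‖T (Av R g θ) (Real.sin θ • x)‖ ≤ δ := by
    intro θ hθ
    have hs := Real.sin_pos_of_mem_Ioo hθ
    have hs1 := Real.sin_le_one θ
    set s := Real.sin θ with hsdef
    have hXn : ‖s • x‖ = s * ‖x‖ := by rw [norm_smul, Real.norm_of_nonneg hs.le]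
    have hXx : ‖s • x‖⁻¹ • (s • x) = ‖x‖⁻¹ • x := by
      rw [hXn, smul_smul]
      congr 1
      field_simp
    have hz : ∀ w : E k, ‖w‖ = 1 → (∃ t : ℝ, dl e w ≤ ‖w - t • e‖ ∧ ‖w - t • e‖ < lam / (4 * s) + lam / 4) →
        g θ w = 0 := by
      rintro w hw ⟨t, h1, h2⟩
      apply cut_notMem
      intro h
      apply h
      show Real.sin θ * dl e w ≤ lam / 2
      rw [← hsdef]
      calc s * dl e w ≤ s * (lam / (4 * s) + lam / 4) := by gcongr; linarith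
        _ = lam / 4 + s * (lam / 4) := by field_simp
        _ ≤ lam / 4 + 1 * (lam / 4) := by gcongr
        _ = lam / 2 := by ring
    have h := ht R hR (s • x) (smul_ne_zero hs.ne' hx)
      (by rw [hXn]; calc s * ‖x‖ ≤ 1 * ‖x‖ := by gcongr
            _ ≤ 4 * R := by rw [one_mul]; exact hxR)
      (g θ) (hgb.meas1 θ) B (hgb.le θ) (lam / (4 * s)) (by positivity)
      (by
        intro w hw hw2
        rw [hXx] at hw2
        refine hz w hw ⟨1, dl_le e w he 1, ?_⟩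
        rw [one_smul]
        calc ‖w - e‖ = ‖(‖x‖⁻¹ • x - e) - (‖x‖⁻¹ • x - w)‖ := by congr 1; abel
          _ ≤ ‖‖x‖⁻¹ • x - e‖ + ‖‖x‖⁻¹ • x - w‖ := norm_sub_le _ _
          _ < _ := by linarith)
      (by
        intro w hw hw2
        rw [hXx] at hw2
        refine hz w hw ⟨-1, dl_le e w he (-1), ?_⟩
        calc ‖w - (-1 : ℝ) • e‖ = ‖(‖x‖⁻¹ • x + w) - (‖x‖⁻¹ • x - e)‖ := by
              congr 1
              rw [neg_smul, one_smul]
              abel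
          _ ≤ ‖‖x‖⁻¹ • x + w‖ + ‖‖x‖⁻¹ • x - e‖ := norm_sub_le _ _
          _ < _ := by linarith)
    refine h.trans (le_of_eq ?_)
    rw [hδ, hXn]
    congr 2
    field_simp
    norm_num
  refine (U_planch (by omega) hAb x).trans ?_
  calc ENNReal.ofReal (2 * Real.pi) *
      ∫⁻ θ in Ioo (0 : ℝ) Real.pi, ENNReal.ofReal (Real.sin θ)⁻¹ * ‖Fa (Av R g) x θ‖ₑ ^ 2
      ≤ ENNReal.ofReal (2 * Real.pi) * ∫⁻ _θ in Ioo (0 : ℝ) Real.pi, ENNReal.ofReal (δ ^ 2) := by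
        gcongr 1
        refine setLIntegral_mono' measurableSet_Ioo fun θ hθ => ?_
        have hs := Real.sin_pos_of_mem_Ioo hθ
        have hs1 := Real.sin_le_one θ
        rw [enorm_pow2, ← ENNReal.ofReal_mul (by positivity)]
        apply ENNReal.ofReal_le_ofReal
        unfold Fa
        rw [norm_mul, Complex.norm_real, Real.norm_of_nonneg (by positivity), mul_pow, ← mul_assoc]
        calc (Real.sin θ)⁻¹ * (Real.sin θ ^ (k - 1)) ^ 2 * ‖T (Av R g θ) (Real.sin θ • x)‖ ^ 2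
            ≤ 1 * δ ^ 2 := by
              apply mul_le_mul (sin_weight hk hs hs1) _ (by positivity) zero_le_one
              exact pow_le_pow_left₀ (norm_nonneg _) (key θ hθ) 2
          _ = δ ^ 2 := one_mul _
    _ = ENNReal.ofReal (2 * Real.pi * (δ ^ 2 * Real.pi)) := by
        rw [lintegral_const, Measure.restrict_apply_univ, Real.volume_Ioo, sub_zero,
          ← ENNReal.ofReal_mul (by positivity), ← ENNReal.ofReal_mul (by positivity)]
    _ = _ := by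
        congr 1
        rw [hδ, mul_pow, ← Real.exp_nat_mul]
        have : ((2 : ℕ) : ℝ) * -(‖x‖ ^ 2 * lam ^ 2 / (3200 * R)) =
            -(‖x‖ ^ 2 * lam ^ 2 / (1600 * R)) := by
          push_cast
          field_simp
          norm_num
        rw [this]
        ring

/-- supremum bound from the values on the unit sphere -/
theorem U_sup {k : ℕ} (hk : 1 ≤ k) {B : ℝ} {h : ℝ → E k → ℂ} (hb : Bd B h) (δ : ℝ)
    (hδ : ∀ θ ∈ Ioo (0 : ℝ) Real.pi, ∀ u : E k, ‖u‖ = 1 → ‖h θ u‖ ≤ δ) (x : E k) (z : ℝ) :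
    ‖U h x z‖ ≤ δ * (sg (k + 1)).real univ := by
  have hfin := sg_finite (k + 1)
  have hae : ∀ᵐ w ∂(sg (k + 1)), ‖Gb h w‖ ≤ δ := by
    apply sphere_ae hk
    · exact measurableSet_le (Gb_meas hb).norm measurable_const
    · intro θ hθ u hu
      rw [Gb_lp h hθ hu]
      exact hδ θ hθ u hu
  unfold U T
  refine norm_integral_le_of_norm_le_const ?_
  filter_upwards [hae] with w hw
  rw [norm_mul, Pool.Agent.H789R2.FR.E4w.norm_phase, one_mul]
  exact hw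

theorem N2_sup {k : ℕ} {h : ℝ → E k → ℂ} (δ : ℝ)
    (hδ : ∀ θ ∈ Ioo (0 : ℝ) Real.pi, ∀ u : E k, ‖u‖ = 1 → ‖h θ u‖ ≤ δ) :
    N2 h ≤ ENNReal.ofReal (Real.pi * (sg k).real univ * δ ^ 2) := by
  have hfin := sg_finite k
  have hpi := Real.pi_pos
  unfold N2
  calc ∫⁻ θ in Ioo (0 : ℝ) Real.pi, ∫⁻ u, ‖h θ u‖ₑ ^ 2 ∂(sg k)
      ≤ ∫⁻ _θ in Ioo (0 : ℝ) Real.pi, ENNReal.ofReal (δ ^ 2) * (sg k) univ := by
        refine setLIntegral_mono' measurableSet_Ioo fun θ hθ => ?_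
        rw [← lintegral_const]
        refine lintegral_mono_ae ?_
        filter_upwards [Pool.Agent.H789R2.FR.sg_ae k] with u hu
        rw [enorm_pow2]
        exact ENNReal.ofReal_le_ofReal (pow_le_pow_left₀ (norm_nonneg _) (hδ θ hθ u hu) 2)
    _ = _ := by
        rw [lintegral_const, Measure.restrict_apply_univ, Real.volume_Ioo, sub_zero,
          ← ENNReal.ofReal_toReal (measure_ne_top (sg k) univ), ← measureReal_def,
          ← ENNReal.ofReal_mul (by positivity), ← ENNReal.ofReal_mul (by positivity)]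
        congr 1
        ring

theorem small_four (k : ℕ) (hk : 2 ≤ k) : ∃ C : ℝ, 0 < C ∧ ∀ (B : ℝ) (h : ℝ → E k → ℂ), Bd B h →
    ∀ δ : ℝ, 0 ≤ δ → (∀ θ ∈ Ioo (0 : ℝ) Real.pi, ∀ u : E k, ‖u‖ = 1 → ‖h θ u‖ ≤ δ) →
    ∀ ρ : ℝ, 0 < ρ → ∫⁻ x in closedBall (0 : E k) ρ, ∫⁻ z : ℝ, ‖U h x z‖ₑ ^ 4 ≤
      ENNReal.ofReal (C * ρ * δ ^ 4) := by
  obtain ⟨C, hC, hL⟩ := L2cyl k hk
  have hpi := Real.pi_pos
  set σ := (sg (k + 1)).real univ with hσ
  set σ' := (sg k).real univ with hσ'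
  have hσ0 : 0 ≤ σ := measureReal_nonneg
  have hσ0' : 0 ≤ σ' := measureReal_nonneg
  refine ⟨σ ^ 2 * C * (Real.pi * σ') + 1, by positivity, fun B h hb δ hδ hh ρ hρ => ?_⟩
  have hpt : ∀ x z, ‖U h x z‖ₑ ^ 4 ≤ ENNReal.ofReal ((δ * σ) ^ 2) * ‖U h x z‖ₑ ^ 2 := by
    intro x z
    have h1 : ‖U h x z‖ₑ ^ 4 = ‖U h x z‖ₑ ^ 2 * ‖U h x z‖ₑ ^ 2 := by ring
    rw [h1]
    gcongr
    rw [enorm_pow2]
    exact ENNReal.ofReal_le_ofReal (pow_le_pow_left₀ (norm_nonneg _)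
      (U_sup (by omega) hb δ hh x z) 2)
  calc ∫⁻ x in closedBall (0 : E k) ρ, ∫⁻ z : ℝ, ‖U h x z‖ₑ ^ 4
      ≤ ∫⁻ x in closedBall (0 : E k) ρ, ∫⁻ z : ℝ,
        ENNReal.ofReal ((δ * σ) ^ 2) * ‖U h x z‖ₑ ^ 2 :=
        lintegral_mono fun x => lintegral_mono fun z => hpt x z
    _ = ENNReal.ofReal ((δ * σ) ^ 2) *
        ∫⁻ x in closedBall (0 : E k) ρ, ∫⁻ z : ℝ, ‖U h x z‖ₑ ^ 2 := by
        rw [← lintegral_const_mul' _ _ ENNReal.ofReal_ne_top]
        refine lintegral_congr fun x => ?_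
        rw [lintegral_const_mul' _ _ ENNReal.ofReal_ne_top]
    _ ≤ ENNReal.ofReal ((δ * σ) ^ 2) * (ENNReal.ofReal (C * ρ) *
        ENNReal.ofReal (Real.pi * σ' * δ ^ 2)) := by
        gcongr
        refine (hL B h hb ρ hρ).trans ?_
        gcongr
        exact N2_sup δ hh
    _ = ENNReal.ofReal ((δ * σ) ^ 2 * (C * ρ * (Real.pi * σ' * δ ^ 2))) := by
        rw [← ENNReal.ofReal_mul (by positivity), ← ENNReal.ofReal_mul (by positivity)]
    _ ≤ _ := by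
        apply ENNReal.ofReal_le_ofReal
        have : (σ ^ 2 * C * (Real.pi * σ') + 1) * ρ * δ ^ 4 =
          (δ * σ) ^ 2 * (C * ρ * (Real.pi * σ' * δ ^ 2)) + ρ * δ ^ 4 := by ring
        rw [this]
        have : 0 ≤ ρ * δ ^ 4 := by positivity
        linarith

theorem far_two (k : ℕ) (hk : 2 ≤ k) : ∃ C : ℝ, 0 < C ∧ ∀ (B : ℝ) (b : ℝ → E k → ℂ), Bd B b →
    ∀ R : ℝ, 1 ≤ R → ∀ e : E k, ‖e‖ = 1 → ∀ lam : ℝ, 0 < lam → ∀ θ ∈ Ioo (0 : ℝ) Real.pi,
    ∀ u : E k, ‖u‖ = 1 → ‖cut (Dn e lam)ᶜ (Av R (cut (Dn e (lam / 2)) b)) θ u‖ ≤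
      C * B * Real.exp (-(R * lam ^ 2 / 16)) := by
  obtain ⟨C1, hC1, hU⟩ := Pool.Agent.H789R2.FR.D_upper k hk
  obtain ⟨c2, hc2, hLo⟩ := Pool.Agent.H789R2.FR.D_lower k hk
  have hfin := sg_finite k
  set a : ℝ := -((k : ℝ) - 1) / 2 with ha
  refine ⟨C1 * (1 / 2) ^ a / c2, by positivity, fun B b hb R hR e he lam hlam θ hθ u hu => ?_⟩
  have hB0 := hb.nonneg
  have hR0 : 0 < R := by linarith
  have hs := Real.sin_pos_of_mem_Ioo hθ
  have hs1 := Real.sin_le_one θ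
  by_cases hmem : (θ, u) ∈ (Dn e lam)ᶜ
  swap
  · rw [cut_notMem _ hmem, norm_zero]; positivity
  rw [cut_mem _ hmem]
  have hmem' : lam < Real.sin θ * dl e u := not_le.1 hmem
  set g := cut (Dn e (lam / 2)) b with hg
  have hD : 0 < D R u := Pool.Agent.H789R2.FR.AOp.AD_pos hk R hR0 u hu
  unfold Av A
  rw [norm_div, Complex.norm_real, Real.norm_of_nonneg hD.le, div_le_iff₀ hD]
  have hw : ∀ w : E k, ‖((Real.exp (-(R / 2) * ‖u - w‖ ^ 2) : ℝ) : ℂ) * g θ w‖ ≤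
      B * Real.exp (-(R * lam ^ 2 / 16)) * Real.exp (-((R / 2) / 2) * ‖u - w‖ ^ 2) := by
    intro w
    by_cases hwm : (θ, w) ∈ Dn e (lam / 2)
    · rw [norm_mul, Complex.norm_real, Real.norm_of_nonneg (Real.exp_pos _).le, hg,
        cut_mem _ hwm]
      have hwm' : Real.sin θ * dl e w ≤ lam / 2 := hwm
      have h1 := dl_lip e u w he
      have h2 : lam / 2 ≤ ‖u - w‖ := by
        have h3 : Real.sin θ * dl e u ≤ Real.sin θ * dl e w + Real.sin θ * ‖u - w‖ := by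
          rw [← mul_add]
          gcongr
        have h4 : Real.sin θ * ‖u - w‖ ≤ 1 * ‖u - w‖ := by gcongr
        linarith
      have h3 : lam ^ 2 / 4 ≤ ‖u - w‖ ^ 2 := by
        calc lam ^ 2 / 4 = (lam / 2) ^ 2 := by ring
          _ ≤ _ := pow_le_pow_left₀ (by positivity) h2 2
      have h4 : Real.exp (-(R / 2) * ‖u - w‖ ^ 2) ≤
          Real.exp (-(R * lam ^ 2 / 16)) * Real.exp (-((R / 2) / 2) * ‖u - w‖ ^ 2) := by
        rw [← Real.exp_add]
        apply Real.exp_le_exp.2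
        nlinarith
      calc Real.exp (-(R / 2) * ‖u - w‖ ^ 2) * ‖b θ w‖
          ≤ (Real.exp (-(R * lam ^ 2 / 16)) * Real.exp (-((R / 2) / 2) * ‖u - w‖ ^ 2)) * B := by
            apply mul_le_mul h4 (hb.le θ w) (norm_nonneg _) (by positivity)
        _ = _ := by ring
    · rw [hg, cut_notMem _ hwm, mul_zero, norm_zero]
      positivity
  have hint : Integrable (fun w : E k => Real.exp (-((R / 2) / 2) * ‖u - w‖ ^ 2)) (sg k) := by
    refine Integrable.of_bound (w_meas (R / 2) measurable_const measurable_id).aestronglyMeasurable 1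
      (Filter.Eventually.of_forall fun w => ?_)
    rw [Real.norm_of_nonneg (Real.exp_pos _).le]
    apply Real.exp_le_one_iff.2
    have : 0 ≤ R / 2 / 2 * ‖u - w‖ ^ 2 := by positivity
    linarith
  calc ‖∫ w, ((Real.exp (-(R / 2) * ‖u - w‖ ^ 2) : ℝ) : ℂ) * g θ w ∂(sg k)‖
      ≤ ∫ w, B * Real.exp (-(R * lam ^ 2 / 16)) * Real.exp (-((R / 2) / 2) * ‖u - w‖ ^ 2)
          ∂(sg k) :=
        norm_integral_le_of_norm_le (hint.const_mul _) (Filter.Eventually.of_forall hw)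
    _ = B * Real.exp (-(R * lam ^ 2 / 16)) * D (R / 2) u := by rw [integral_const_mul]; rfl
    _ ≤ B * Real.exp (-(R * lam ^ 2 / 16)) * (C1 * (R / 2) ^ a) := by
        gcongr
        exact hU (R / 2) (by positivity) u hu
    _ = (C1 * (1 / 2) ^ a / c2 * B * Real.exp (-(R * lam ^ 2 / 16))) * (c2 * R ^ a) := by
        rw [show R / 2 = (1 / 2) * R by ring, Real.mul_rpow (by norm_num) hR0.le]
        field_simp
    _ ≤ _ := by
        gcongr
        exact hLo R hR u hu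

end Pool.Agent.V5helper17.RL
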