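import Mathlib
import Pool.Agent.V5helper17.RL.Far
set_option autoImplicit false

/-! # Sectors: the `L^4` bound for averaged densities away from the poles -/

namespace Pool.Agent.V5helper17.RL

open MeasureTheory Set Complex Metric
open scoped ENNReal RealInnerProductSpace
open Pool.Agent.H789R2.FR (E sg T sg_finite A D)

/-- the annulus -/
def An (k : ℕ) (ρ : ℝ) : Set (E k) := {x | ρ ≤ ‖x‖ ∧ ‖x‖ ≤ 2 * ρ}

theorem An_meas (k : ℕ) (ρ : ℝ) : MeasurableSet (An k ρ) :=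
  (measurableSet_le measurable_const measurable_norm).inter
    (measurableSet_le measurable_norm measurable_const)

/-- the sector -/
def Sec {k : ℕ} (lam : ℝ) : Set (E k × E k) := {p | ‖‖p.2‖⁻¹ • p.2 - p.1‖ < lam / 4}

theorem Sec_meas {k : ℕ} (lam : ℝ) : MeasurableSet (Sec (k := k) lam) := by
  unfold Sec
  refine measurableSet_lt ?_ measurable_const
  exact (((measurable_norm.comp measurable_snd).inv.smul measurable_snd).sub measurable_fst).norm

theorem sect_lower (k : ℕ) (hk : 2 ≤ k) : ∃ c : ℝ, 0 < c ∧ ∀ lam : ℝ, 0 < lam → lam ≤ 1 →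
    ∀ Φ : E k → ℝ≥0∞, Measurable Φ → ∀ ρ : ℝ, 0 < ρ →
    ENNReal.ofReal (c * lam ^ (k - 1)) * ∫⁻ x in An k ρ, Φ x ≤
      ∫⁻ e, (∫⁻ x in An k ρ, (Sec lam).indicator (fun p => Φ p.2) (e, x)) ∂(sg k) := by
  have hfin := sg_finite k
  obtain ⟨c, hc, h⟩ := Pool.Agent.H789R2.FR.cap_lower k hk
  refine ⟨c / 4 ^ (k - 1), by positivity, fun lam hlam hlam1 Φ hΦ ρ hρ => ?_⟩
  have hm : Measurable fun p : E k × E k => (Sec lam).indicator (fun p => Φ p.2) (p.1, p.2) :=
    (hΦ.comp measurable_snd).indicator (Sec_meas lam)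
  rw [lintegral_lintegral_swap hm.aemeasurable, ← lintegral_const_mul' _ _ ENNReal.ofReal_ne_top]
  refine setLIntegral_mono' (An_meas k ρ) fun x hx => ?_
  have hx0 : 0 < ‖x‖ := lt_of_lt_of_le hρ hx.1
  set y := ‖x‖⁻¹ • x with hy
  have hy1 : ‖y‖ = 1 := by rw [hy, norm_smul, norm_inv, norm_norm, inv_mul_cancel₀ hx0.ne']
  have hcm : MeasurableSet {w : E k | ‖y - w‖ < lam / 4} :=
    measurableSet_lt (measurable_const.sub measurable_id).norm measurable_const
  have e1 : ∀ e : E k, (Sec lam).indicator (fun p => Φ p.2) (e, x) =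
      {w : E k | ‖y - w‖ < lam / 4}.indicator (fun _ => Φ x) e := by
    intro e
    by_cases he : (e, x) ∈ Sec lam
    · rw [indicator_of_mem he, indicator_of_mem (show e ∈ {w : E k | ‖y - w‖ < lam / 4} from he)]
    · rw [indicator_of_notMem he,
        indicator_of_notMem (show e ∉ {w : E k | ‖y - w‖ < lam / 4} from he)]
  simp only [e1]
  rw [lintegral_indicator_const hcm, mul_comm]
  gcongr
  have h1 := h (lam / 4) (by positivity) (by linarith) y hy1
  rw [← ENNReal.ofReal_toReal (measure_ne_top (sg k) {w : E k | ‖y - w‖ < lam / 4}),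
    ← measureReal_def]
  apply ENNReal.ofReal_le_ofReal
  refine le_trans (le_of_eq ?_) h1
  rw [div_pow]
  ring

theorem sect_upper (k : ℕ) (hk : 2 ≤ k) : ∃ C : ℝ, 0 < C ∧ ∀ lam : ℝ, 0 < lam →
    ∀ θ ∈ Ioo (0 : ℝ) Real.pi, ∀ u : E k, ‖u‖ = 1 →
    (sg k) {e | Real.sin θ * dl e u ≤ lam / 2} ≤
      ENNReal.ofReal (C * (lam / Real.sin θ) ^ (k - 1)) := by
  have hfin := sg_finite k
  obtain ⟨C, hC, h⟩ := Pool.Agent.H789R2.FR.cap_upper k hk
  refine ⟨2 * C, by positivity, fun lam hlam θ hθ u hu => ?_⟩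
  have hs := Real.sin_pos_of_mem_Ioo hθ
  set s := Real.sin θ with hsdef
  set κ := lam / s with hκ
  have hκ0 : 0 < κ := by positivity
  have hsub : ∀ᵐ e ∂(sg k), e ∈ {e | s * dl e u ≤ lam / 2} →
      e ∈ {w : E k | ‖u - w‖ < κ} ∪ {w : E k | ‖-u - w‖ < κ} := by
    filter_upwards [Pool.Agent.H789R2.FR.sg_ae k] with e he h1
    have h1' : s * dl e u ≤ lam / 2 := h1
    have h2 : dl e u ≤ κ / 2 := by
      rw [hκ, div_div, le_div_iff₀ (by positivity)]
      linarith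
    have h3 : dl e u ^ 2 ≤ κ ^ 2 / 4 := by
      calc dl e u ^ 2 ≤ (κ / 2) ^ 2 := pow_le_pow_left₀ (dl_nonneg _ _) h2 2
        _ = _ := by ring
    rw [dl_sq e u he, hu] at h3
    have hin := Pool.Agent.H789R2.FR.inner_abs_le_one e u he hu
    have hin1 := (abs_le.1 hin).1
    have hin2 := (abs_le.1 hin).2
    have hκ2 : 0 < κ ^ 2 := by positivity
    rcases le_total 0 (⟪e, u⟫ : ℝ) with h0 | h0
    · left
      show ‖u - e‖ < κ
      apply lt_of_pow_lt_pow_left₀ 2 hκ0.le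
      rw [norm_sub_sq_real, hu, he, real_inner_comm]
      nlinarith
    · right
      show ‖-u - e‖ < κ
      apply lt_of_pow_lt_pow_left₀ 2 hκ0.le
      rw [norm_sub_sq_real, norm_neg, hu, he, inner_neg_left, real_inner_comm]
      nlinarith
  have hr : ∀ y : E k, ‖y‖ = 1 → (sg k) {w : E k | ‖y - w‖ < κ} ≤
      ENNReal.ofReal (C * κ ^ (k - 1)) := by
    intro y hy
    rw [← ENNReal.ofReal_toReal (measure_ne_top (sg k) {w : E k | ‖y - w‖ < κ}),
      ← measureReal_def]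
    exact ENNReal.ofReal_le_ofReal (h κ hκ0 y hy)
  calc (sg k) {e | s * dl e u ≤ lam / 2}
      ≤ (sg k) ({w : E k | ‖u - w‖ < κ} ∪ {w : E k | ‖-u - w‖ < κ}) := measure_mono_ae hsub
    _ ≤ (sg k) {w : E k | ‖u - w‖ < κ} + (sg k) {w : E k | ‖-u - w‖ < κ} := measure_union_le _ _
    _ ≤ ENNReal.ofReal (C * κ ^ (k - 1)) + ENNReal.ofReal (C * κ ^ (k - 1)) :=
        add_le_add (hr u hu) (hr (-u) (by rw [norm_neg]; exact hu))
    _ = _ := by
        rw [← ENNReal.ofReal_add (by positivity) (by positivity)]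
        congr 1
        ring

theorem add3_pow4 (a b c : ℝ≥0∞) : (a + b + c) ^ 4 ≤ 64 * (a ^ 4 + b ^ 4 + c ^ 4) := by
  calc (a + b + c) ^ 4 ≤ 8 * ((a + b) ^ 4 + c ^ 4) := add_pow4 _ _
    _ ≤ 8 * (8 * (a ^ 4 + b ^ 4) + 8 * c ^ 4) := by
        gcongr
        · exact add_pow4 _ _
        · calc c ^ 4 = 1 * c ^ 4 := (one_mul _).symm
            _ ≤ 8 * c ^ 4 := by gcongr; norm_num
    _ = _ := by ring

theorem dl_comp {α : Type*} [MeasurableSpace α] {k : ℕ} {f g : α → E k} (hf : Measurable f)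
    (hg : Measurable g) : Measurable fun a => dl (f a) (g a) := by
  have h := dl_meas2 (k := k)
  have h2 : Measurable fun a => ((f a, g a) : E k × E k) := hf.prodMk hg
  have h3 := h.comp h2
  simpa only [Function.comp_def] using h3

theorem Bd.comp {α : Type*} [MeasurableSpace α] {k : ℕ} {B : ℝ} {b : ℝ → E k → ℂ} (h : Bd B b)
    {f : α → ℝ} {g : α → E k} (hf : Measurable f) (hg : Measurable g) :
    Measurable fun a => b (f a) (g a) := by
  have h2 : Measurable fun a => ((f a, g a) : ℝ × E k) := hf.prodMk hg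
  have h3 := h.meas.comp h2
  simpa only [Function.comp_def] using h3

/-- averages over the directions of the mass near the great circles -/
theorem dir_avg (k : ℕ) (hk : 2 ≤ k) : ∃ C : ℝ, 0 < C ∧ ∀ (B : ℝ) (b : ℝ → E k → ℂ), Bd B b →
    ∀ lam : ℝ, 0 < lam →
    ∫⁻ e, (∫⁻ θ in Ioo (0 : ℝ) Real.pi, ENNReal.ofReal (Real.sin θ ^ (k - 1)) *
      ∫⁻ u, ‖cut (Dn e (lam / 2)) b θ u‖ₑ ^ 2 ∂(sg k)) ∂(sg k) ≤
      ENNReal.ofReal (C * lam ^ (k - 1)) * N2 b := by
  have hfin := sg_finite k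
  obtain ⟨C, hC, h⟩ := sect_upper k hk
  refine ⟨C, hC, fun B b hb lam hlam => ?_⟩
  -- measurability
  have hset : MeasurableSet {q : (E k × ℝ) × E k | Real.sin q.1.2 * dl q.1.1 q.2 ≤ lam / 2} := by
    refine measurableSet_le ?_ measurable_const
    have h1 : Measurable fun q : (E k × ℝ) × E k => dl q.1.1 q.2 :=
      dl_comp (measurable_fst.comp measurable_fst) measurable_snd
    exact (Real.measurable_sin.comp (measurable_snd.comp measurable_fst)).mul h1
  have hb2 : Measurable fun q : (E k × ℝ) × E k => ‖b q.1.2 q.2‖ₑ ^ 2 := by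
    have h1 : Measurable fun q : (E k × ℝ) × E k => b q.1.2 q.2 :=
      hb.comp (measurable_snd.comp measurable_fst) measurable_snd
    exact h1.enorm.pow_const 2
  set f : (E k × ℝ) × E k → ℝ≥0∞ :=
    {q : (E k × ℝ) × E k | Real.sin q.1.2 * dl q.1.1 q.2 ≤ lam / 2}.indicator
      fun q => ‖b q.1.2 q.2‖ₑ ^ 2 with hf
  have hfm : Measurable f := hb2.indicator hset
  have hcut : ∀ (e : E k) (θ : ℝ) (u : E k), ‖cut (Dn e (lam / 2)) b θ u‖ₑ ^ 2 = f ((e, θ), u) := by
    intro e θ u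
    by_cases hm : (θ, u) ∈ Dn e (lam / 2)
    · rw [cut_mem b hm, hf, indicator_of_mem (show ((e, θ), u) ∈
        {q : (E k × ℝ) × E k | Real.sin q.1.2 * dl q.1.1 q.2 ≤ lam / 2} from hm)]
    · rw [cut_notMem b hm, hf, indicator_of_notMem (show ((e, θ), u) ∉
        {q : (E k × ℝ) × E k | Real.sin q.1.2 * dl q.1.1 q.2 ≤ lam / 2} from hm)]
      simp
  simp only [hcut]
  have hm1 : Measurable fun p : E k × ℝ => ENNReal.ofReal (Real.sin p.2 ^ (k - 1)) *
      ∫⁻ u, f (p, u) ∂(sg k) :=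
    ((Real.measurable_sin.comp measurable_snd).pow_const _).ennreal_ofReal.mul
      hfm.lintegral_prod_right'
  rw [lintegral_lintegral_swap hm1.aemeasurable]
  unfold N2
  rw [← lintegral_const_mul' _ _ ENNReal.ofReal_ne_top]
  refine setLIntegral_mono' measurableSet_Ioo fun θ hθ => ?_
  have hs := Real.sin_pos_of_mem_Ioo hθ
  have hfm2 : Measurable fun p : E k × E k => f ((p.1, θ), p.2) :=
    hfm.comp ((measurable_fst.prodMk measurable_const).prodMk measurable_snd)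
  rw [lintegral_const_mul' _ _ ENNReal.ofReal_ne_top, lintegral_lintegral_swap hfm2.aemeasurable,
    ← lintegral_const_mul' _ _ ENNReal.ofReal_ne_top,
    ← lintegral_const_mul' _ _ ENNReal.ofReal_ne_top]
  refine lintegral_mono_ae ?_
  filter_upwards [Pool.Agent.H789R2.FR.sg_ae k] with u hu
  have hsm : MeasurableSet {e : E k | Real.sin θ * dl e u ≤ lam / 2} := by
    refine measurableSet_le ?_ measurable_const
    have h1 : Measurable fun e : E k => dl e u := dl_comp measurable_id measurable_const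
    exact measurable_const.mul h1
  have e2 : ∀ e : E k, f ((e, θ), u) =
      {e : E k | Real.sin θ * dl e u ≤ lam / 2}.indicator (fun _ => ‖b θ u‖ₑ ^ 2) e := by
    intro e
    by_cases hm : e ∈ {e : E k | Real.sin θ * dl e u ≤ lam / 2}
    · rw [indicator_of_mem hm, hf, indicator_of_mem (show ((e, θ), u) ∈
        {q : (E k × ℝ) × E k | Real.sin q.1.2 * dl q.1.1 q.2 ≤ lam / 2} from hm)]
    · rw [indicator_of_notMem hm, hf, indicator_of_notMem (show ((e, θ), u) ∉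
        {q : (E k × ℝ) × E k | Real.sin q.1.2 * dl q.1.1 q.2 ≤ lam / 2} from hm)]
  simp only [e2]
  rw [lintegral_indicator_const hsm]
  calc ENNReal.ofReal (Real.sin θ ^ (k - 1)) *
        (‖b θ u‖ₑ ^ 2 * (sg k) {e : E k | Real.sin θ * dl e u ≤ lam / 2})
      ≤ ENNReal.ofReal (Real.sin θ ^ (k - 1)) *
        (‖b θ u‖ₑ ^ 2 * ENNReal.ofReal (C * (lam / Real.sin θ) ^ (k - 1))) := by
        gcongr
        exact h lam hlam θ hθ u hu
    _ = ENNReal.ofReal (Real.sin θ ^ (k - 1) * (C * (lam / Real.sin θ) ^ (k - 1))) *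
        ‖b θ u‖ₑ ^ 2 := by
        rw [ENNReal.ofReal_mul (p := Real.sin θ ^ (k - 1)) (by positivity)]
        ring
    _ = _ := by
        congr 2
        rw [div_pow]
        field_simp

/-- The `L^4` bound for averaged densities away from the poles. -/
theorem nc4 (m : ℕ) (hm : 1 ≤ m) : ∃ C : ℝ, 0 < C ∧ ∀ (B : ℝ) (b : ℝ → E (m + 1) → ℂ), Bd B b →
    ∀ ρ R lam : ℝ, 1 ≤ ρ → ρ ≤ R → 0 < lam → lam ≤ 1 / 2 → 1 ≤ 2 * ρ * lam →
    (∀ θ ∈ Ioo (0 : ℝ) Real.pi, ∀ u, Real.sin θ < 2 * lam → b θ u = 0) →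
    ∫⁻ x in An (m + 1) ρ, ∫⁻ z : ℝ, ‖U (Av R b) x z‖ₑ ^ 4 ≤
      ENNReal.ofReal (C * (1 + Real.log ρ) ^ 4 * B ^ 2 * lam ^ (2 * m)) * N2 b +
      ENNReal.ofReal (C * B ^ 4 * ρ ^ (m + 1) * (lam ^ m)⁻¹ *
        Real.exp (-(ρ ^ 2 * lam ^ 2 / (1600 * R)))) := by
  have hk : 2 ≤ m + 1 := by omega
  have hfin := sg_finite (m + 1)
  obtain ⟨C1, hC1, hnear⟩ := near_bound m hm
  obtain ⟨C2, hC2, hfar1⟩ := far_one (m + 1) hk
  obtain ⟨C3, hC3, hfar2⟩ := far_two (m + 1) hk
  obtain ⟨C4, hC4, hsmall⟩ := small_four (m + 1) hk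
  obtain ⟨C5, hC5, hdir⟩ := dir_avg (m + 1) hk
  obtain ⟨c6, hc6, hlow⟩ := sect_lower (m + 1) hk
  set σ := (sg (m + 1 + 1)).real univ with hσ
  set σ' := (sg (m + 1)).real univ with hσ'
  have hσ0 : 0 ≤ σ := measureReal_nonneg
  have hσ0' : 0 ≤ σ' := measureReal_nonneg
  set v1 : ℝ := volume.real (ball (0 : E (m + 1)) 1) with hv1
  have hv0 : 0 ≤ v1 := measureReal_nonneg
  -- constants
  set K1 : ℝ := 64 * (16 * C1 * C5) / c6 with hK1
  set K2 : ℝ := 64 * (C4 * 2 * C3 ^ 4 + σ ^ 2 * C2 * (2 ^ (m + 1) * v1)) * σ' / c6 with hK2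
  have hK1p : 0 < K1 := by positivity
  have hK2p : 0 ≤ K2 := by positivity
  refine ⟨K1 + K2, by positivity, ?_⟩
  intro B b hb ρ R lam hρ hR hlam hlam2 hρlam hpol
  have hB0 := hb.nonneg
  have hρ0 : 0 < ρ := by linarith
  have hR1 : 1 ≤ R := hρ.trans hR
  have hR0 : 0 < R := by linarith
  have hlogρ : 0 ≤ Real.log ρ := Real.log_nonneg hρ
  have hAb : Bd B (Av R b) := Av_bd hR0.le hb
  set X : ℝ := Real.exp (-(ρ ^ 2 * lam ^ 2 / (1600 * R))) with hX
  set Φ : E (m + 1) → ℝ≥0∞ := fun x => ∫⁻ z : ℝ, ‖U (Av R b) x z‖ₑ ^ 4 with hΦ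
  have hUm : Measurable fun p : E (m + 1) × ℝ => ‖U (Av R b) p.1 p.2‖ₑ ^ 4 :=
    (U_meas hAb).enorm.pow_const 4
  have hΦm : Measurable Φ := hUm.lintegral_prod_right'
  have hAnsub : An (m + 1) ρ ⊆ closedBall (0 : E (m + 1)) (2 * ρ) := fun x hx => by
    rw [mem_closedBall_zero_iff]; exact hx.2
  -- one direction
  set M : E (m + 1) → ℝ≥0∞ := fun e => ∫⁻ θ in Ioo (0 : ℝ) Real.pi,
    ENNReal.ofReal (Real.sin θ ^ (m + 1 - 1)) *
      ∫⁻ u, ‖cut (Dn e (lam / 2)) b θ u‖ₑ ^ 2 ∂(sg (m + 1)) with hM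
  set L4 : ℝ := (1 + Real.log ρ) ^ 4 * B ^ 2 * lam ^ (2 * m) with hL4
  have hL40 : 0 ≤ L4 := by positivity
  set T2 : ℝ := C4 * 2 * C3 ^ 4 + σ ^ 2 * C2 * (2 ^ (m + 1) * v1) with hT2
  have hT20 : 0 ≤ T2 := by positivity
  have hone : ∀ e : E (m + 1), ‖e‖ = 1 →
      ∫⁻ x in An (m + 1) ρ, (Sec lam).indicator (fun p => Φ p.2) (e, x) ≤
      64 * (ENNReal.ofReal (16 * C1 * L4) * M e +
        ENNReal.ofReal (T2 * (B ^ 4 * ρ ^ (m + 1) * X))) := by
    intro e he
    set g := cut (Dn e (lam / 2)) b with hg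
    set g' := cut (Dn e (lam / 2))ᶜ b with hg'
    have hgb : Bd B g := cut_bd (Dn_meas e _) hb
    have hgb' : Bd B g' := cut_bd (Dn_meas e _).compl hb
    have hAg : Bd B (Av R g) := Av_bd hR0.le hgb
    have hAg' : Bd B (Av R g') := Av_bd hR0.le hgb'
    set h0 := cut (Dn e lam) (Av R g) with hh0
    set h2 := cut (Dn e lam)ᶜ (Av R g) with hh2
    have hb0 : Bd B h0 := cut_bd (Dn_meas e _) hAg
    have hb2 : Bd B h2 := cut_bd (Dn_meas e _).compl hAg
    have hsplit : ∀ x z, U (Av R b) x z = U h0 x z + U h2 x z + U (Av R g') x z := by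
      intro x z
      rw [← U_add hb0 hb2, cut_add, ← U_add hAg hAg']
      congr 1
      rw [← Av_add hR0.le hgb hgb', cut_add]
    have hpt : ∀ x, Φ x ≤ 64 * ((∫⁻ z : ℝ, ‖U h0 x z‖ₑ ^ 4) + (∫⁻ z : ℝ, ‖U h2 x z‖ₑ ^ 4) +
        (∫⁻ z : ℝ, ‖U (Av R g') x z‖ₑ ^ 4)) := by
      intro x
      have m0 : Measurable fun z : ℝ => ‖U h0 x z‖ₑ ^ 4 :=
        ((U_meas hb0).comp (measurable_const.prodMk measurable_id)).enorm.pow_const 4
      have m2 : Measurable fun z : ℝ => ‖U h2 x z‖ₑ ^ 4 :=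
        ((U_meas hb2).comp (measurable_const.prodMk measurable_id)).enorm.pow_const 4
      have m02 : Measurable fun z : ℝ => ‖U h0 x z‖ₑ ^ 4 + ‖U h2 x z‖ₑ ^ 4 := m0.add m2
      rw [← lintegral_add_left m0, ← lintegral_add_left m02,
        ← lintegral_const_mul' _ _ (by norm_num)]
      refine lintegral_mono fun z => ?_
      simp only [hsplit]
      refine le_trans ?_ (add3_pow4 _ _ _)
      gcongr
      exact (enorm_add_le _ _).trans (by gcongr; exact enorm_add_le _ _)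
    -- near
    have n0 : ∫⁻ x in closedBall (0 : E (m + 1)) (2 * ρ), ∫⁻ z : ℝ, ‖U h0 x z‖ₑ ^ 4 ≤
        ENNReal.ofReal (16 * C1 * L4) * M e := by
      have hsupp : ∀ θ ∈ Ioo (0 : ℝ) Real.pi, ∀ u : E (m + 1), ‖u‖ = 1 → h0 θ u ≠ 0 →
          Real.sin θ * dl e u ≤ lam ∧ 2 * lam ≤ Real.sin θ := by
        intro θ hθ u hu hne
        constructor
        · by_contra hc
          exact hne (cut_notMem _ hc)
        · by_contra hc
          push Not at hc
          apply hne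
          have hz : ∀ w, g θ w = 0 := by
            intro w
            by_cases hw : (θ, w) ∈ Dn e (lam / 2)
            · rw [hg, cut_mem b hw]; exact hpol θ hθ w hc
            · exact cut_notMem b hw
          have hA0 : Av R g θ u = 0 := by
            unfold Av A
            simp [hz]
          by_cases hw : (θ, u) ∈ Dn e lam
          · rw [hh0, cut_mem _ hw, hA0]
          · exact cut_notMem _ hw
      refine (hnear B h0 hb0 e he lam (2 * ρ) hlam hlam2 hρlam hsupp).trans ?_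
      refine mul_le_mul' (ENNReal.ofReal_le_ofReal ?_) ?_
      · have h1 : 1 + Real.log (2 * ρ) ≤ 2 * (1 + Real.log ρ) := by
          rw [Real.log_mul (by norm_num) hρ0.ne']
          have := Real.log_two_lt_d9
          linarith
        have h2 : 0 ≤ 1 + Real.log (2 * ρ) := by
          have := Real.log_nonneg (show (1 : ℝ) ≤ 2 * ρ by linarith)
          linarith
        calc C1 * (1 + Real.log (2 * ρ)) ^ 4 * B ^ 2 * lam ^ (2 * m)
            ≤ C1 * (2 * (1 + Real.log ρ)) ^ 4 * B ^ 2 * lam ^ (2 * m) := by gcongr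
          _ = _ := by rw [hL4]; ring
      · calc ∫⁻ θ in Ioo (0 : ℝ) Real.pi, ENNReal.ofReal (Real.sin θ ^ m) *
              ∫⁻ u, ‖h0 θ u‖ₑ ^ 2 ∂(sg (m + 1))
            ≤ ∫⁻ θ in Ioo (0 : ℝ) Real.pi, ENNReal.ofReal (Real.sin θ ^ m) *
              ∫⁻ u, ‖Av R g θ u‖ₑ ^ 2 ∂(sg (m + 1)) := by
              refine lintegral_mono fun θ => mul_le_mul' le_rfl (lintegral_mono fun u => ?_)
              have := cut_le (Dn e lam) (Av R g) θ u
              simp only
              gcongr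
          _ ≤ M e := Av_wN2 hk hR0 hgb _
    -- far two
    have n2 : ∫⁻ x in closedBall (0 : E (m + 1)) (2 * ρ), ∫⁻ z : ℝ, ‖U h2 x z‖ₑ ^ 4 ≤
        ENNReal.ofReal (C4 * 2 * C3 ^ 4 * (B ^ 4 * ρ ^ (m + 1) * X)) := by
      refine (hsmall B h2 hb2 _ (by positivity) (hfar2 B b hb R hR1 e he lam hlam)
        (2 * ρ) (by positivity)).trans (ENNReal.ofReal_le_ofReal ?_)
      have h1 : (Real.exp (-(R * lam ^ 2 / 16))) ^ 4 ≤ X := by
        rw [← Real.exp_nat_mul, hX]
        apply Real.exp_le_exp.2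
        have h3 : ρ ^ 2 * lam ^ 2 / (1600 * R) ≤ R * lam ^ 2 / 4 := by
          rw [div_le_div_iff₀ (by positivity) (by norm_num)]
          have h4 : ρ ^ 2 ≤ R ^ 2 := pow_le_pow_left₀ hρ0.le hR 2
          have h5 : 0 ≤ lam ^ 2 := by positivity
          have h6 : ρ ^ 2 * lam ^ 2 ≤ R ^ 2 * lam ^ 2 := by gcongr
          have h7 : 0 ≤ R ^ 2 * lam ^ 2 := by positivity
          nlinarith
        push_cast
        linarith
      have h2 : ρ ≤ ρ ^ (m + 1) := by
        calc ρ = ρ ^ 1 := (pow_one ρ).symm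
          _ ≤ ρ ^ (m + 1) := pow_le_pow_right₀ hρ (by omega)
      calc C4 * (2 * ρ) * (C3 * B * Real.exp (-(R * lam ^ 2 / 16))) ^ 4
          = C4 * 2 * C3 ^ 4 * (B ^ 4 * ρ * (Real.exp (-(R * lam ^ 2 / 16))) ^ 4) := by ring
        _ ≤ C4 * 2 * C3 ^ 4 * (B ^ 4 * ρ ^ (m + 1) * X) := by gcongr
    -- far one
    have n1 : ∀ x ∈ An (m + 1) ρ, (e, x) ∈ Sec lam → ∫⁻ z : ℝ, ‖U (Av R g') x z‖ₑ ^ 4 ≤
        ENNReal.ofReal (σ ^ 2 * C2 * B ^ 4 * X) := by
      intro x hx hxs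
      have hx0 : 0 < ‖x‖ := lt_of_lt_of_le hρ0 hx.1
      have hxne : x ≠ 0 := norm_pos_iff.1 hx0
      have h1 := hfar1 B b hb R hR1 e he lam hlam x hxne (by linarith [hx.2]) hxs
      calc ∫⁻ z : ℝ, ‖U (Av R g') x z‖ₑ ^ 4
          ≤ ∫⁻ z : ℝ, ENNReal.ofReal ((B * σ) ^ 2) * ‖U (Av R g') x z‖ₑ ^ 2 := by
            refine lintegral_mono fun z => ?_
            have h3 : ‖U (Av R g') x z‖ₑ ^ 4 =
              ‖U (Av R g') x z‖ₑ ^ 2 * ‖U (Av R g') x z‖ₑ ^ 2 := by ring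
            rw [h3]
            refine mul_le_mul' ?_ le_rfl
            rw [enorm_pow2]
            exact ENNReal.ofReal_le_ofReal (pow_le_pow_left₀ (norm_nonneg _) (U_le hAg' x z) 2)
        _ ≤ ENNReal.ofReal ((B * σ) ^ 2) * ENNReal.ofReal (C2 * B ^ 2 *
              Real.exp (-(‖x‖ ^ 2 * lam ^ 2 / (1600 * R)))) := by
            rw [lintegral_const_mul' _ _ ENNReal.ofReal_ne_top]
            gcongr
        _ ≤ _ := by
            rw [← ENNReal.ofReal_mul (by positivity)]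
            apply ENNReal.ofReal_le_ofReal
            have h4 : Real.exp (-(‖x‖ ^ 2 * lam ^ 2 / (1600 * R))) ≤ X := by
              rw [hX]
              apply Real.exp_le_exp.2
              have h5 : ρ ^ 2 ≤ ‖x‖ ^ 2 := pow_le_pow_left₀ hρ0.le hx.1 2
              have h6 : ρ ^ 2 * lam ^ 2 / (1600 * R) ≤ ‖x‖ ^ 2 * lam ^ 2 / (1600 * R) := by gcongr
              linarith
            calc (B * σ) ^ 2 * (C2 * B ^ 2 * Real.exp (-(‖x‖ ^ 2 * lam ^ 2 / (1600 * R))))
                ≤ (B * σ) ^ 2 * (C2 * B ^ 2 * X) := by gcongr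
              _ = _ := by ring
    have hvol : volume (closedBall (0 : E (m + 1)) (2 * ρ)) =
        ENNReal.ofReal ((2 * ρ) ^ (m + 1) * v1) := by
      rw [Measure.addHaar_closedBall _ _ (by positivity), finrank_euclideanSpace_fin,
        ENNReal.ofReal_mul (by positivity), hv1, measureReal_def,
        ENNReal.ofReal_toReal measure_ball_lt_top.ne]
    have hUm0 : Measurable fun x : E (m + 1) => ∫⁻ z : ℝ, ‖U h0 x z‖ₑ ^ 4 :=
      ((U_meas hb0).enorm.pow_const 4).lintegral_prod_right'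
    have hUm2 : Measurable fun x : E (m + 1) => ∫⁻ z : ℝ, ‖U h2 x z‖ₑ ^ 4 :=
      ((U_meas hb2).enorm.pow_const 4).lintegral_prod_right'
    calc ∫⁻ x in An (m + 1) ρ, (Sec lam).indicator (fun p => Φ p.2) (e, x)
        ≤ ∫⁻ x in An (m + 1) ρ, 64 * ((∫⁻ z : ℝ, ‖U h0 x z‖ₑ ^ 4) +
          (∫⁻ z : ℝ, ‖U h2 x z‖ₑ ^ 4) + ENNReal.ofReal (σ ^ 2 * C2 * B ^ 4 * X)) := by
          refine setLIntegral_mono' (An_meas _ _) fun x hx => ?_
          by_cases hxs : (e, x) ∈ Sec lam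
          · rw [indicator_of_mem hxs]
            refine (hpt x).trans ?_
            gcongr
            exact n1 x hx hxs
          · rw [indicator_of_notMem hxs]
            exact zero_le
      _ = 64 * ((∫⁻ x in An (m + 1) ρ, ∫⁻ z : ℝ, ‖U h0 x z‖ₑ ^ 4) +
          (∫⁻ x in An (m + 1) ρ, ∫⁻ z : ℝ, ‖U h2 x z‖ₑ ^ 4) +
          ENNReal.ofReal (σ ^ 2 * C2 * B ^ 4 * X) * volume (An (m + 1) ρ)) := by
          have hUm02 : Measurable fun x : E (m + 1) => (∫⁻ z : ℝ, ‖U h0 x z‖ₑ ^ 4) +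
              (∫⁻ z : ℝ, ‖U h2 x z‖ₑ ^ 4) := hUm0.add hUm2
          rw [lintegral_const_mul' _ _ (by norm_num), lintegral_add_left hUm02,
            lintegral_add_left hUm0, lintegral_const, Measure.restrict_apply_univ]
      _ ≤ 64 * (ENNReal.ofReal (16 * C1 * L4) * M e +
          ENNReal.ofReal (C4 * 2 * C3 ^ 4 * (B ^ 4 * ρ ^ (m + 1) * X)) +
          ENNReal.ofReal (σ ^ 2 * C2 * B ^ 4 * X) * ENNReal.ofReal ((2 * ρ) ^ (m + 1) * v1)) := by
          gcongr
          · exact (lintegral_mono_set hAnsub).trans n0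
          · exact (lintegral_mono_set hAnsub).trans n2
          · rw [← hvol]
            exact measure_mono hAnsub
      _ = _ := by
          congr 1
          rw [add_assoc, ← ENNReal.ofReal_mul (by positivity),
            ← ENNReal.ofReal_add (by positivity) (by positivity)]
          congr 2
          rw [hT2]
          ring
  -- integrate over the directions
  have hlow' := hlow lam hlam (by linarith) Φ hΦm ρ hρ0
  have hcl0 : 0 < c6 * lam ^ m := by positivity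
  have hM' : ∫⁻ e, M e ∂(sg (m + 1)) ≤ ENNReal.ofReal (C5 * lam ^ m) * N2 b := hdir B b hb lam hlam
  set Tl : ℝ := B ^ 4 * ρ ^ (m + 1) * X with hTl
  have hTl0 : 0 ≤ Tl := by positivity
  have hsum : ENNReal.ofReal (c6 * lam ^ m) * ∫⁻ x in An (m + 1) ρ, Φ x ≤
      64 * (ENNReal.ofReal (16 * C1 * L4) * (ENNReal.ofReal (C5 * lam ^ m) * N2 b) +
        ENNReal.ofReal (T2 * Tl) * ENNReal.ofReal σ') := by
    refine hlow'.trans ?_
    calc ∫⁻ e, (∫⁻ x in An (m + 1) ρ, (Sec lam).indicator (fun p => Φ p.2) (e, x)) ∂(sg (m + 1))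
        ≤ ∫⁻ e, 64 * (ENNReal.ofReal (16 * C1 * L4) * M e + ENNReal.ofReal (T2 * Tl))
            ∂(sg (m + 1)) := by
          refine lintegral_mono_ae ?_
          filter_upwards [Pool.Agent.H789R2.FR.sg_ae (m + 1)] with e he
          exact hone e he
      _ = 64 * (ENNReal.ofReal (16 * C1 * L4) * (∫⁻ e, M e ∂(sg (m + 1))) +
          ENNReal.ofReal (T2 * Tl) * (sg (m + 1)) univ) := by
          rw [lintegral_const_mul' _ _ (by norm_num), lintegral_add_right _ measurable_const,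
            lintegral_const_mul' _ _ ENNReal.ofReal_ne_top, lintegral_const]
      _ ≤ _ := by
          gcongr
          rw [hσ', measureReal_def, ENNReal.ofReal_toReal (measure_ne_top _ _)]
  have hfinal : ∫⁻ x in An (m + 1) ρ, Φ x ≤ ENNReal.ofReal ((c6 * lam ^ m)⁻¹) *
      (64 * (ENNReal.ofReal (16 * C1 * L4) * (ENNReal.ofReal (C5 * lam ^ m) * N2 b) +
        ENNReal.ofReal (T2 * Tl) * ENNReal.ofReal σ')) := by
    calc ∫⁻ x in An (m + 1) ρ, Φ x = ENNReal.ofReal ((c6 * lam ^ m)⁻¹) *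
          (ENNReal.ofReal (c6 * lam ^ m) * ∫⁻ x in An (m + 1) ρ, Φ x) := by
          rw [← mul_assoc, ← ENNReal.ofReal_mul (by positivity), inv_mul_cancel₀ hcl0.ne',
            ENNReal.ofReal_one, one_mul]
      _ ≤ _ := by gcongr
  refine hfinal.trans ?_
  have e64 : (64 : ℝ≥0∞) = ENNReal.ofReal 64 := by norm_num
  calc ENNReal.ofReal ((c6 * lam ^ m)⁻¹) *
      (64 * (ENNReal.ofReal (16 * C1 * L4) * (ENNReal.ofReal (C5 * lam ^ m) * N2 b) +
        ENNReal.ofReal (T2 * Tl) * ENNReal.ofReal σ'))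
      = ENNReal.ofReal ((c6 * lam ^ m)⁻¹ * (64 * (16 * C1 * L4 * (C5 * lam ^ m)))) * N2 b +
        ENNReal.ofReal ((c6 * lam ^ m)⁻¹ * (64 * (T2 * Tl * σ'))) := by
        rw [e64]
        rw [ENNReal.ofReal_mul (p := (c6 * lam ^ m)⁻¹) (by positivity),
          ENNReal.ofReal_mul (p := (c6 * lam ^ m)⁻¹) (by positivity),
          ENNReal.ofReal_mul (p := 64) (by positivity),
          ENNReal.ofReal_mul (p := 64) (by positivity),
          ENNReal.ofReal_mul (p := 16 * C1 * L4) (by positivity),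
          ENNReal.ofReal_mul (p := T2 * Tl) (by positivity)]
        ring
    _ ≤ _ := by
        refine add_le_add (mul_le_mul' (ENNReal.ofReal_le_ofReal ?_) le_rfl)
          (ENNReal.ofReal_le_ofReal ?_)
        · rw [hL4]
          have e1 : (c6 * lam ^ m)⁻¹ * (64 * (16 * C1 * ((1 + Real.log ρ) ^ 4 * B ^ 2 *
              lam ^ (2 * m)) * (C5 * lam ^ m))) =
              K1 * ((1 + Real.log ρ) ^ 4 * B ^ 2 * lam ^ (2 * m)) := by
            rw [hK1]
            field_simp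
          rw [e1]
          have : 0 ≤ (1 + Real.log ρ) ^ 4 * B ^ 2 * lam ^ (2 * m) := by positivity
          nlinarith
        · have e2 : (c6 * lam ^ m)⁻¹ * (64 * (T2 * Tl * σ')) = K2 * (Tl * (lam ^ m)⁻¹) := by
            rw [hK2]
            field_simp
          rw [e2]
          have h3 : 0 ≤ Tl * (lam ^ m)⁻¹ := by positivity
          have e3 : (K1 + K2) * B ^ 4 * ρ ^ (m + 1) * (lam ^ m)⁻¹ * X =
              (K1 + K2) * (Tl * (lam ^ m)⁻¹) := by rw [hTl]; ring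
          rw [e3]
          nlinarith

end Pool.Agent.V5helper17.RL
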