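import Mathlib
import Pool.Agent.V5helper17.RL.Sector
import Pool.Agent.H789R2.FR.Lp
set_option autoImplicit false

/-! # Interpolation of the `L^2` bound with a weak type bound -/

namespace Pool.Agent.V5helper17.RL

open MeasureTheory Set Complex Metric
open scoped ENNReal RealInnerProductSpace
open Pool.Agent.H789R2.FR (E sg T sg_finite Lp_pointwise)

theorem geo_alg {p q lam Q : ℝ} (hlam : 0 < lam) (k : ℕ) :
    (2 ^ (k + 1) * lam) ^ p * (Q / (2 ^ k * lam) ^ q) =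
      2 ^ p * lam ^ (p - q) * Q * ((2 : ℝ) ^ (p - q)) ^ k := by
  obtain ⟨l, rfl⟩ : ∃ l, lam = Real.exp l := ⟨Real.log lam, (Real.exp_log hlam).symm⟩
  obtain ⟨t, ht⟩ : ∃ t, (2 : ℝ) = Real.exp t := ⟨Real.log 2, (Real.exp_log two_pos).symm⟩
  have e1 : ∀ m : ℕ, (2 : ℝ) ^ m = Real.exp (m * t) := by
    intro m
    rw [Real.exp_nat_mul, ← ht]
  have e2 : ∀ (x : ℝ) (m : ℕ), Real.exp x ^ m = Real.exp (m * x) := by
    intro x m
    rw [Real.exp_nat_mul]
  have e3 : ∀ x y : ℝ, Real.exp x ^ y = Real.exp (x * y) := fun x y => (Real.exp_mul x y).symm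
  have e4 : ∀ x : ℝ, (2 : ℝ) ^ x = Real.exp (t * x) := by
    intro x
    rw [ht, e3]
  rw [e1, e1, e4, e4, ← Real.exp_add, ← Real.exp_add, e3, e3, e3, e2, div_eq_mul_inv,
    ← Real.exp_neg]
  have h1 : ∀ a b : ℝ, Real.exp a * (Q * Real.exp b) = Q * Real.exp (a + b) := by
    intro a b
    rw [Real.exp_add]
    ring
  have h2 : ∀ a b c : ℝ, Real.exp a * Real.exp b * Q * Real.exp c = Q * Real.exp (a + b + c) := by
    intro a b c
    rw [Real.exp_add, Real.exp_add]
    ring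
  rw [h1, h2]
  congr 2
  push_cast
  ring

theorem interp_high {α : Type*} [MeasurableSpace α] (μ : Measure α) (u : α → ℝ)
    (hu : Measurable u) (hu0 : ∀ x, 0 ≤ u x) {p q lam Q : ℝ} (hp : 2 < p) (hpq : p < q)
    (hlam : 0 < lam) (hQ : 0 ≤ Q)
    (h : ∀ t : ℝ, 0 < t → μ {x | t ≤ u x} ≤ ENNReal.ofReal (Q / t ^ q)) :
    ∫⁻ x, ENNReal.ofReal (u x ^ p) ∂μ ≤
      ENNReal.ofReal (lam ^ (p - 2)) * (∫⁻ x, ENNReal.ofReal (u x ^ 2) ∂μ) +
      ENNReal.ofReal (2 ^ p * lam ^ (p - q) * Q / (1 - 2 ^ (p - q))) := by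
  have hSm : ∀ k : ℕ, MeasurableSet {x : α | 2 ^ k * lam ≤ u x} := fun k =>
    measurableSet_le measurable_const hu
  have hm2 : Measurable fun x => ENNReal.ofReal (u x ^ 2) := (hu.pow_const 2).ennreal_ofReal
  calc ∫⁻ x, ENNReal.ofReal (u x ^ p) ∂μ
      ≤ ∫⁻ x, (ENNReal.ofReal (lam ^ (p - 2) * u x ^ 2) +
        ∑' k : ℕ, ENNReal.ofReal ((2 ^ (k + 1) * lam) ^ p) *
          (if 2 ^ k * lam ≤ u x then 1 else 0)) ∂μ :=
        lintegral_mono fun x => Lp_pointwise hp hlam (hu0 x)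
    _ = (∫⁻ x, ENNReal.ofReal (lam ^ (p - 2) * u x ^ 2) ∂μ) +
        ∫⁻ x, ∑' k : ℕ, ENNReal.ofReal ((2 ^ (k + 1) * lam) ^ p) *
          (if 2 ^ k * lam ≤ u x then 1 else 0) ∂μ := by
        rw [lintegral_add_left]
        exact ((hu.pow_const 2).const_mul _).ennreal_ofReal
    _ ≤ _ := by
        refine add_le_add (le_of_eq ?_) ?_
        · rw [← lintegral_const_mul _ hm2]
          refine lintegral_congr fun x => ?_
          rw [ENNReal.ofReal_mul (by positivity)]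
        · have hmeas : ∀ k : ℕ, Measurable fun x : α =>
              (if 2 ^ k * lam ≤ u x then (1 : ℝ≥0∞) else 0) := fun k =>
            Measurable.ite (hSm k) measurable_const measurable_const
          rw [lintegral_tsum fun k => ((hmeas k).const_mul _).aemeasurable]
          have hterm : ∀ k : ℕ, ∫⁻ x,
              ENNReal.ofReal ((2 ^ (k + 1) * lam) ^ p) *
              (if 2 ^ k * lam ≤ u x then 1 else 0) ∂μ ≤
              ENNReal.ofReal (2 ^ p * lam ^ (p - q) * Q * (2 ^ (p - q)) ^ k) := by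
            intro k
            rw [lintegral_const_mul _ (hmeas k)]
            have h1 : ∫⁻ x, (if 2 ^ k * lam ≤ u x then (1 : ℝ≥0∞) else 0) ∂μ =
                μ {x : α | 2 ^ k * lam ≤ u x} := by
              have : (fun x : α => if 2 ^ k * lam ≤ u x then (1 : ℝ≥0∞) else 0) =
                  indicator {x : α | 2 ^ k * lam ≤ u x} 1 := by
                funext x
                simp only [indicator, Set.mem_ofPred_eq, Pi.one_apply]
              rw [this, lintegral_indicator_one (hSm k)]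
            rw [h1]
            refine (mul_le_mul' le_rfl (h (2 ^ k * lam) (by positivity))).trans ?_
            rw [← ENNReal.ofReal_mul (by positivity), geo_alg hlam k]
          refine (ENNReal.tsum_le_tsum hterm).trans ?_
          have hr0 : (0 : ℝ) ≤ 2 ^ (p - q) := by positivity
          have hr1 : (2 : ℝ) ^ (p - q) < 1 :=
            Real.rpow_lt_one_of_one_lt_of_neg one_lt_two (by linarith)
          rw [← ENNReal.ofReal_tsum_of_nonneg]
          · rw [tsum_mul_left, tsum_geometric_of_lt_one hr0 hr1]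
            rfl
          · intro k
            positivity
          · exact (summable_geometric_of_lt_one hr0 hr1).mul_left _

/-- interpolation -/
theorem interp (p q : ℝ) (hp : 2 < p) (hpq : p < q) : ∃ C : ℝ, 0 < C ∧
    ∀ (α : Type) [MeasurableSpace α] (μ : Measure α) (u : α → ℝ), Measurable u →
    (∀ x, 0 ≤ u x) → ∀ A Q : ℝ, 0 < A → 0 < Q →
    ∫⁻ x, ENNReal.ofReal (u x ^ 2) ∂μ ≤ ENNReal.ofReal A →
    (∀ t : ℝ, 0 < t → μ {x | t ≤ u x} ≤ ENNReal.ofReal (Q / t ^ q)) →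
    ∫⁻ x, ENNReal.ofReal (u x ^ p) ∂μ ≤
      ENNReal.ofReal (C * A ^ ((q - p) / (q - 2)) * Q ^ ((p - 2) / (q - 2))) := by
  have hr1 : (2 : ℝ) ^ (p - q) < 1 :=
    Real.rpow_lt_one_of_one_lt_of_neg one_lt_two (by linarith)
  have hr : 0 < 1 - (2 : ℝ) ^ (p - q) := by linarith
  have hq2 : 0 < q - 2 := by linarith
  refine ⟨1 + 2 ^ p / (1 - 2 ^ (p - q)), by positivity, ?_⟩
  intro α _ μ u hu hu0 A Q hA hQ h2 h
  set lam : ℝ := (Q / A) ^ (1 / (q - 2)) with hlam
  have hlam0 : 0 < lam := by positivity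
  have e1 : lam ^ (p - 2) * A = A ^ ((q - p) / (q - 2)) * Q ^ ((p - 2) / (q - 2)) := by
    obtain ⟨a, rfl⟩ : ∃ a, A = Real.exp a := ⟨Real.log A, (Real.exp_log hA).symm⟩
    obtain ⟨b, rfl⟩ : ∃ b, Q = Real.exp b := ⟨Real.log Q, (Real.exp_log hQ).symm⟩
    rw [hlam, ← Real.exp_sub, ← Real.exp_mul, ← Real.exp_mul, ← Real.exp_mul, ← Real.exp_mul,
      ← Real.exp_add, ← Real.exp_add]
    congr 1
    field_simp
    ring
  have e2 : lam ^ (p - q) * Q = A ^ ((q - p) / (q - 2)) * Q ^ ((p - 2) / (q - 2)) := by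
    obtain ⟨a, rfl⟩ : ∃ a, A = Real.exp a := ⟨Real.log A, (Real.exp_log hA).symm⟩
    obtain ⟨b, rfl⟩ : ∃ b, Q = Real.exp b := ⟨Real.log Q, (Real.exp_log hQ).symm⟩
    rw [hlam, ← Real.exp_sub, ← Real.exp_mul, ← Real.exp_mul, ← Real.exp_mul, ← Real.exp_mul,
      ← Real.exp_add, ← Real.exp_add]
    congr 1
    field_simp
    ring
  refine (interp_high μ u hu hu0 hp hpq hlam0 hQ.le h).trans ?_
  calc ENNReal.ofReal (lam ^ (p - 2)) * (∫⁻ x, ENNReal.ofReal (u x ^ 2) ∂μ) +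
      ENNReal.ofReal (2 ^ p * lam ^ (p - q) * Q / (1 - 2 ^ (p - q)))
      ≤ ENNReal.ofReal (lam ^ (p - 2)) * ENNReal.ofReal A +
      ENNReal.ofReal (2 ^ p * lam ^ (p - q) * Q / (1 - 2 ^ (p - q))) := by gcongr
    _ = _ := by
        rw [← ENNReal.ofReal_mul (by positivity), ← ENNReal.ofReal_add (by positivity)
          (by positivity)]
        congr 1
        have e3 : 2 ^ p * lam ^ (p - q) * Q / (1 - 2 ^ (p - q)) =
            2 ^ p / (1 - 2 ^ (p - q)) * (lam ^ (p - q) * Q) := by ring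
        rw [e3, e1, e2]
        ring

/-- The level set form of the Stein-Tomas theorem on the whole space. -/
theorem weak_glob (n : ℕ) (hn : 2 ≤ n) : ∃ C : ℝ, 0 < C ∧ ∀ g : E n → ℂ, Measurable g →
    (∃ M : ℝ, ∀ x, ‖g x‖ ≤ M) → ∀ t : ℝ, 0 < t →
    volume {X : E n | t ≤ ‖T g X‖} ≤ ENNReal.ofReal
      (C * ((∫ w, ‖g w‖ ^ 2 ∂(sg n)) / t ^ 2) ^ (((n : ℝ) + 1) / ((n : ℝ) - 1))) := by
  obtain ⟨C, hC, h⟩ := Pool.Agent.H789R2.FR.weak n hn
  refine ⟨C, hC, fun g hg hb t ht => ?_⟩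
  have hTm : Measurable fun X : E n => ‖T g X‖ := (Pool.Agent.H438R2.PD.T_meas' g hg).norm
  have hLm : MeasurableSet {X : E n | t ≤ ‖T g X‖} := measurableSet_le measurable_const hTm
  set K := C * ((∫ w, ‖g w‖ ^ 2 ∂(sg n)) / t ^ 2) ^ (((n : ℝ) + 1) / ((n : ℝ) - 1)) with hK
  set S : ℕ → Set (E n) := fun N => {X : E n | t ≤ ‖T g X‖} ∩ closedBall 0 N with hS
  have hmono : Monotone S := by
    intro a b hab
    refine inter_subset_inter_right _ (closedBall_subset_closedBall ?_)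
    exact_mod_cast hab
  have hU : ⋃ N, S N = {X : E n | t ≤ ‖T g X‖} := by
    ext X
    simp only [mem_iUnion]
    constructor
    · rintro ⟨N, hN⟩
      exact hN.1
    · intro hX
      obtain ⟨N, hN⟩ := exists_nat_ge ‖X‖
      exact ⟨N, hX, by rw [mem_closedBall_zero_iff]; exact hN⟩
  rw [← hU, hmono.measure_iUnion]
  refine iSup_le fun N => ?_
  have hb' : Bornology.IsBounded (S N) := isBounded_closedBall.subset inter_subset_right
  have h1 := h g hg hb t ht (S N) (hLm.inter measurableSet_closedBall) hb' (fun x hx => hx.1)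
  rw [← ENNReal.ofReal_toReal (hb'.measure_lt_top (μ := volume)).ne]
  exact ENNReal.ofReal_le_ofReal h1

end Pool.Agent.V5helper17.RL
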