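import Mathlib
import Pool.Agent.V5helper17.RL.Interp
set_option autoImplicit false

/-! # `L^p` bounds of the pieces: the Stein-Tomas piece and the averaged piece -/

namespace Pool.Agent.V5helper17.RL

open MeasureTheory Set Complex Metric
open scoped ENNReal RealInnerProductSpace
open Pool.Agent.H789R2.FR (E sg T sg_finite A D)
open Pool.Agent.H438R2.BR (J)
open Pool.Agent.H438R2.BR.T10 (e0)

/-- The `L^p` integral of the extension of `b` over the cylinder over `S`. -/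
noncomputable def W {k : ℕ} (p : ℝ) (S : Set (E k)) (b : ℝ → E k → ℂ) : ℝ≥0∞ :=
  ∫⁻ x in S, ∫⁻ z : ℝ, ENNReal.ofReal (‖U b x z‖ ^ p)

theorem W_prod {k : ℕ} {B : ℝ} {b : ℝ → E k → ℂ} (h : Bd B b) (p : ℝ) (S : Set (E k)) :
    W p S b = ∫⁻ a : E k × ℝ, ENNReal.ofReal (‖U b a.1 a.2‖ ^ p)
      ∂((volume.restrict S).prod volume) := by
  have hm : Measurable fun a : E k × ℝ => ENNReal.ofReal (‖U b a.1 a.2‖ ^ p) :=
    ((U_meas h).norm.pow_const p).ennreal_ofReal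
  rw [lintegral_prod _ hm.aemeasurable]
  rfl

theorem W_mono_set {k : ℕ} (p : ℝ) {S S' : Set (E k)} (hS : S ⊆ S') (b : ℝ → E k → ℂ) :
    W p S b ≤ W p S' b :=
  lintegral_mono_set hS

/-- The weight of the `L^2` norm of the density on the sphere. -/
noncomputable def NG {k : ℕ} (b : ℝ → E k → ℂ) : ℝ≥0∞ :=
  ∫⁻ θ in Ioo (0 : ℝ) Real.pi, ENNReal.ofReal (Real.sin θ ^ (k - 1)) *
    ∫⁻ u, ‖b θ u‖ₑ ^ 2 ∂(sg k)

theorem NG_eq {k : ℕ} (hk : 1 ≤ k) {B : ℝ} {b : ℝ → E k → ℂ} (h : Bd B b) :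
    ∫⁻ w, ‖Gb b w‖ₑ ^ 2 ∂(sg (k + 1)) = NG b :=
  Gb_lint hk h (fun z => ‖z‖ₑ ^ 2) (by fun_prop)

theorem NG_le_N2 {k : ℕ} (b : ℝ → E k → ℂ) : NG b ≤ N2 b := by
  refine setLIntegral_mono' measurableSet_Ioo fun θ hθ => ?_
  have h0 : 0 ≤ Real.sin θ := (Real.sin_pos_of_mem_Ioo hθ).le
  calc ENNReal.ofReal (Real.sin θ ^ (k - 1)) * ∫⁻ u, ‖b θ u‖ₑ ^ 2 ∂(sg k)
      ≤ 1 * ∫⁻ u, ‖b θ u‖ₑ ^ 2 ∂(sg k) := by
        gcongr
        rw [← ENNReal.ofReal_one]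
        exact ENNReal.ofReal_le_ofReal (pow_le_one₀ h0 (Real.sin_le_one θ))
    _ = _ := one_mul _

theorem NG_cap {k : ℕ} (b : ℝ → E k → ℂ) (lam : ℝ)
    (hb : ∀ θ ∈ Ioo (0 : ℝ) Real.pi, ∀ u, lam ≤ Real.sin θ → b θ u = 0) :
    NG b ≤ ENNReal.ofReal (lam ^ (k - 1)) * N2 b := by
  unfold NG N2
  rw [← lintegral_const_mul' _ _ ENNReal.ofReal_ne_top]
  refine setLIntegral_mono' measurableSet_Ioo fun θ hθ => ?_
  have h0 : 0 ≤ Real.sin θ := (Real.sin_pos_of_mem_Ioo hθ).le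
  by_cases hc : lam ≤ Real.sin θ
  · have : ∫⁻ u, ‖b θ u‖ₑ ^ 2 ∂(sg k) = 0 := by
      have h1 : (fun u => ‖b θ u‖ₑ ^ 2) = fun _ => (0 : ℝ≥0∞) := by
        funext u
        rw [hb θ hθ u hc]
        simp
      rw [h1]
      simp
    rw [this]
    simp
  · push Not at hc
    gcongr

theorem st_level (k : ℕ) (hk : 2 ≤ k) : ∃ C : ℝ, 0 < C ∧ ∀ (B : ℝ) (b : ℝ → E k → ℂ), Bd B b →
    ∀ H : ℝ, 0 < H → NG b ≤ ENNReal.ofReal H → ∀ S : Set (E k), MeasurableSet S →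
    ∀ t : ℝ, 0 < t → ((volume.restrict S).prod volume) {a : E k × ℝ | t ≤ ‖U b a.1 a.2‖} ≤
      ENNReal.ofReal ((C * H ^ (((k : ℝ) + 2) / k)) / t ^ (2 * (((k : ℝ) + 2) / k))) := by
  obtain ⟨C, hC, h⟩ := weak_glob (k + 1) (by omega)
  refine ⟨C, hC, fun B b hb H hH hN S hS t ht => ?_⟩
  have hk0 : (0 : ℝ) < k := by
    have : 0 < k := by omega
    exact_mod_cast this
  have hexp : (((k + 1 : ℕ) : ℝ) + 1) / (((k + 1 : ℕ) : ℝ) - 1) = ((k : ℝ) + 2) / k := by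
    push_cast
    congr 1 <;> ring
  have hGm := Gb_meas hb
  have hset : MeasurableSet {X : E (k + 1) | t ≤ ‖T (Gb b) X‖} :=
    measurableSet_le measurable_const (Pool.Agent.H789R2.FR.Lp_T_meas hGm).measurable.norm
  have hset2 : MeasurableSet {a : E k × ℝ | t ≤ ‖U b a.1 a.2‖} :=
    measurableSet_le measurable_const (U_meas hb).norm
  have h1 : ((volume.restrict S).prod volume) {a : E k × ℝ | t ≤ ‖U b a.1 a.2‖} ≤
      volume {X : E (k + 1) | t ≤ ‖T (Gb b) X‖} := by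
    rw [Measure.prod_apply hset2]
    have h2 := lint_cyl (k := k) ({X : E (k + 1) | t ≤ ‖T (Gb b) X‖}.indicator 1)
      (measurable_one.indicator hset) S hS
    have h3 : ∀ x : E k, volume (Prod.mk x ⁻¹' {a : E k × ℝ | t ≤ ‖U b a.1 a.2‖}) =
        ∫⁻ z : ℝ, ({X : E (k + 1) | t ≤ ‖T (Gb b) X‖}.indicator 1) (J x
          (z • e0)) := by
      intro x
      have h4 : MeasurableSet (Prod.mk x ⁻¹' {a : E k × ℝ | t ≤ ‖U b a.1 a.2‖}) :=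
        measurable_prodMk_left hset2
      rw [← lintegral_indicator_one h4]
      rfl
    rw [lintegral_congr h3]
    refine (le_of_eq h2).trans ?_
    refine (setLIntegral_le_lintegral _ _).trans ?_
    rw [lintegral_indicator_one hset]
  refine h1.trans ((h (Gb b) hGm ⟨B, Gb_le hb⟩ t ht).trans (ENNReal.ofReal_le_ofReal ?_))
  rw [hexp]
  have h5 : ∫ w, ‖Gb b w‖ ^ 2 ∂(sg (k + 1)) ≤ H := by
    have h6 := int_sq (Gb b) hGm B (Gb_le hb)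
    rw [NG_eq (by omega) hb] at h6
    rw [← ENNReal.ofReal_le_ofReal_iff hH.le, h6]
    exact hN
  have h0 : 0 ≤ ∫ w, ‖Gb b w‖ ^ 2 ∂(sg (k + 1)) := integral_nonneg fun w => by positivity
  rw [mul_div_assoc]
  refine mul_le_mul_of_nonneg_left ?_ hC.le
  have he : 0 ≤ ((k : ℝ) + 2) / k := by positivity
  calc ((∫ w, ‖Gb b w‖ ^ 2 ∂(sg (k + 1))) / t ^ 2) ^ (((k : ℝ) + 2) / k)
      ≤ (H / t ^ 2) ^ (((k : ℝ) + 2) / k) := by
        apply Real.rpow_le_rpow (by positivity) _ he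
        gcongr
    _ = H ^ (((k : ℝ) + 2) / k) / t ^ (2 * (((k : ℝ) + 2) / k)) := by
        rw [Real.div_rpow hH.le (by positivity), Real.rpow_mul ht.le]
        norm_num


theorem enorm_ofReal_rpow (z : ℂ) (n : ℕ) : ENNReal.ofReal (‖z‖ ^ (n : ℝ)) = ‖z‖ₑ ^ n := by
  rw [Real.rpow_natCast, ENNReal.ofReal_pow (norm_nonneg _), ofReal_norm]

theorem U_congr {k : ℕ} (hk : 1 ≤ k) {B B' : ℝ} {b b' : ℝ → E k → ℂ} (h : Bd B b)
    (h' : Bd B' b') (he : ∀ θ ∈ Ioo (0 : ℝ) Real.pi, ∀ u : E k, ‖u‖ = 1 → b θ u = b' θ u)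
    (x : E k) (z : ℝ) : U b x z = U b' x z := by
  unfold U
  refine T_congr ?_ _
  refine sphere_ae hk (fun w => Gb b w = Gb b' w)
    (measurableSet_eq_fun (Gb_meas h) (Gb_meas h')) fun θ hθ u hu => ?_
  rw [Gb_lp b hθ hu, Gb_lp b' hθ hu, he θ hθ u hu]

theorem W_congr {k : ℕ} (hk : 1 ≤ k) {B B' : ℝ} {b b' : ℝ → E k → ℂ} (h : Bd B b)
    (h' : Bd B' b') (he : ∀ θ ∈ Ioo (0 : ℝ) Real.pi, ∀ u : E k, ‖u‖ = 1 → b θ u = b' θ u)
    (p : ℝ) (S : Set (E k)) : W p S b = W p S b' := by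
  unfold W
  simp_rw [U_congr hk h h' he]

theorem add_rpow_le {x y p : ℝ} (hx : 0 ≤ x) (hy : 0 ≤ y) (hp : 0 ≤ p) :
    (x + y) ^ p ≤ 2 ^ p * (x ^ p + y ^ p) := by
  have h1 : x ^ p ≤ x ^ p + y ^ p := le_add_of_nonneg_right (by positivity)
  have h2 : y ^ p ≤ x ^ p + y ^ p := le_add_of_nonneg_left (by positivity)
  rcases le_total x y with h | h
  · calc (x + y) ^ p ≤ (2 * y) ^ p := Real.rpow_le_rpow (by positivity) (by linarith) hp
      _ = 2 ^ p * y ^ p := Real.mul_rpow (by norm_num) hy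
      _ ≤ _ := by gcongr
  · calc (x + y) ^ p ≤ (2 * x) ^ p := Real.rpow_le_rpow (by positivity) (by linarith) hp
      _ = 2 ^ p * x ^ p := Real.mul_rpow (by norm_num) hx
      _ ≤ _ := by gcongr

theorem W_add {k : ℕ} {B B' : ℝ} {b b' : ℝ → E k → ℂ} (h : Bd B b) (h' : Bd B' b') {p : ℝ}
    (hp : 0 ≤ p) (S : Set (E k)) : W p S (fun θ u => b θ u + b' θ u) ≤
      ENNReal.ofReal (2 ^ p) * (W p S b + W p S b') := by
  have hs : Bd (B + B') fun θ u => b θ u + b' θ u :=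
    ⟨h.meas.add h'.meas, fun θ u => (norm_add_le _ _).trans (add_le_add (h.le θ u) (h'.le θ u))⟩
  have hm : Measurable fun a : E k × ℝ => ENNReal.ofReal (‖U b a.1 a.2‖ ^ p) :=
    ((U_meas h).norm.pow_const p).ennreal_ofReal
  have hm' : Measurable fun a : E k × ℝ => ENNReal.ofReal (‖U b' a.1 a.2‖ ^ p) :=
    ((U_meas h').norm.pow_const p).ennreal_ofReal
  rw [W_prod hs, W_prod h, W_prod h', ← lintegral_add_left hm,
    ← lintegral_const_mul' _ _ ENNReal.ofReal_ne_top]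
  refine lintegral_mono fun a => ?_
  rw [U_add h h', ← ENNReal.ofReal_add (by positivity) (by positivity),
    ← ENNReal.ofReal_mul (by positivity)]
  refine ENNReal.ofReal_le_ofReal ?_
  refine le_trans ?_ (add_rpow_le (norm_nonneg _) (norm_nonneg _) hp)
  exact Real.rpow_le_rpow (norm_nonneg _) (norm_add_le _ _) hp

theorem An_ball (k : ℕ) (ρ : ℝ) : An k ρ ⊆ closedBall (0 : E k) (2 * ρ) := by
  intro x hx
  rw [mem_closedBall, dist_zero_right]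
  exact hx.2

theorem L2prod (k : ℕ) (hk : 2 ≤ k) : ∃ C : ℝ, 0 < C ∧ ∀ (B : ℝ) (b : ℝ → E k → ℂ), Bd B b →
    ∀ ρ V : ℝ, 0 < ρ → 0 < V → N2 b ≤ ENNReal.ofReal V →
    ∫⁻ a : E k × ℝ, ENNReal.ofReal (‖U b a.1 a.2‖ ^ 2) ∂((volume.restrict (An k ρ)).prod volume) ≤
      ENNReal.ofReal (C * (ρ * V)) := by
  obtain ⟨C, hC, h⟩ := L2cyl k hk
  refine ⟨C * 2, by positivity, fun B b hb ρ V hρ hV hN => ?_⟩
  have hm : Measurable fun a : E k × ℝ => ENNReal.ofReal (‖U b a.1 a.2‖ ^ 2) :=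
    ((U_meas hb).norm.pow_const 2).ennreal_ofReal
  rw [lintegral_prod _ hm.aemeasurable]
  calc ∫⁻ x in An k ρ, ∫⁻ z : ℝ, ENNReal.ofReal (‖U b x z‖ ^ 2)
      ≤ ∫⁻ x in closedBall (0 : E k) (2 * ρ), ∫⁻ z : ℝ, ‖U b x z‖ₑ ^ 2 := by
        refine (lintegral_mono_set (An_ball k ρ)).trans (le_of_eq ?_)
        refine lintegral_congr fun x => lintegral_congr fun z => ?_
        rw [ENNReal.ofReal_pow (norm_nonneg _), ofReal_norm]
    _ ≤ ENNReal.ofReal (C * (2 * ρ)) * N2 b := h B b hb (2 * ρ) (by positivity)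
    _ ≤ ENNReal.ofReal (C * (2 * ρ)) * ENNReal.ofReal V := by gcongr
    _ = ENNReal.ofReal (C * 2 * (ρ * V)) := by
        rw [← ENNReal.ofReal_mul (by positivity)]
        congr 1
        ring

theorem st_piece (k : ℕ) (hk : 2 ≤ k) (p : ℝ) (hp : 2 < p) (hpq : p < 2 * (((k : ℝ) + 2) / k)) :
    ∃ C : ℝ, 0 < C ∧ ∀ (B : ℝ) (b : ℝ → E k → ℂ), Bd B b →
    ∀ ρ V H : ℝ, 0 < ρ → 0 < V → 0 < H → N2 b ≤ ENNReal.ofReal V → NG b ≤ ENNReal.ofReal H →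
    W p (An k ρ) b ≤ ENNReal.ofReal (C * (ρ * V) ^ (1 - (p - 2) * k / 4) *
      H ^ ((p - 2) * (k + 2) / 4)) := by
  have hk0 : (0 : ℝ) < k := by
    have : 0 < k := by omega
    exact_mod_cast this
  obtain ⟨C₁, hC₁, h1⟩ := interp p (2 * (((k : ℝ) + 2) / k)) hp hpq
  obtain ⟨C₂, hC₂, h2⟩ := L2prod k hk
  obtain ⟨C₃, hC₃, h3⟩ := st_level k hk
  refine ⟨C₁ * C₂ ^ (1 - (p - 2) * k / 4) * C₃ ^ ((p - 2) * k / 4), by positivity,
    fun B b hb ρ V H hρ hV hH hN hG => ?_⟩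
  rw [W_prod hb]
  refine (h1 (E k × ℝ) ((volume.restrict (An k ρ)).prod volume)
    (fun a => ‖U b a.1 a.2‖) (U_meas hb).norm (fun a => norm_nonneg _)
    (C₂ * (ρ * V)) (C₃ * H ^ (((k : ℝ) + 2) / k)) (by positivity) (by positivity)
    (h2 B b hb ρ V hρ hV hN)
    (fun t ht => h3 B b hb H hH hG (An k ρ) (An_meas k ρ) t ht)).trans
    (ENNReal.ofReal_le_ofReal (le_of_eq ?_))
  have e1 : (2 * (((k : ℝ) + 2) / k) - p) / (2 * (((k : ℝ) + 2) / k) - 2) =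
      1 - (p - 2) * k / 4 := by
    field_simp
    ring
  have e2 : (p - 2) / (2 * (((k : ℝ) + 2) / k) - 2) = (p - 2) * k / 4 := by
    field_simp
    ring
  rw [e1, e2, Real.mul_rpow hC₂.le (by positivity), Real.mul_rpow hC₃.le (by positivity),
    ← Real.rpow_mul hH.le]
  have e3 : (((k : ℝ) + 2) / k) * ((p - 2) * k / 4) = (p - 2) * (k + 2) / 4 := by
    field_simp
  rw [e3]
  ring

theorem nc_piece (m : ℕ) (hm : 1 ≤ m) (p : ℝ) (hp : 2 < p) (hp4 : p < 4) :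
    ∃ C : ℝ, 0 < C ∧ ∀ (b : ℝ → E (m + 1) → ℂ), Bd 2 b →
    ∀ ρ R lam V : ℝ, 1 ≤ ρ → ρ ≤ R → 0 < lam → lam ≤ 1 / 2 → 1 ≤ 2 * ρ * lam → 0 < V →
    N2 b ≤ ENNReal.ofReal V →
    (∀ θ ∈ Ioo (0 : ℝ) Real.pi, ∀ u, Real.sin θ < 2 * lam → b θ u = 0) →
    W p (An (m + 1) ρ) (Av R b) ≤ ENNReal.ofReal (C * (ρ * V) ^ ((4 - p) / 2) *
      ((1 + Real.log ρ) ^ 4 * lam ^ (2 * m) * V +
        ρ ^ (m + 1) * (lam ^ m)⁻¹ * Real.exp (-(ρ ^ 2 * lam ^ 2 / (1600 * R)))) ^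
          ((p - 2) / 2)) := by
  obtain ⟨C₁, hC₁, h1⟩ := interp p 4 hp hp4
  obtain ⟨C₂, hC₂, h2⟩ := L2prod (m + 1) (by omega)
  obtain ⟨C₃, hC₃, h3⟩ := nc4 m hm
  refine ⟨C₁ * C₂ ^ ((4 - p) / 2) * (C₃ * 16) ^ ((p - 2) / 2), by positivity,
    fun b hb ρ R lam V hρ hρR hlam hlam2 hρl hV hN hb0 => ?_⟩
  have hR : 0 < R := by linarith
  have hρ0 : 0 < ρ := by linarith
  have hAv : Bd 2 (Av R b) := Av_bd hR.le hb
  have hNA : N2 (Av R b) ≤ ENNReal.ofReal V := (Av_N2 (by omega) hR hb).trans hN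
  rw [W_prod hAv]
  set Q₀ : ℝ := (1 + Real.log ρ) ^ 4 * lam ^ (2 * m) * V +
        ρ ^ (m + 1) * (lam ^ m)⁻¹ * Real.exp (-(ρ ^ 2 * lam ^ 2 / (1600 * R))) with hQ₀
  have hlog : 0 ≤ Real.log ρ := Real.log_nonneg hρ
  have hQpos : 0 < Q₀ := by positivity
  have h4 : ∫⁻ a : E (m + 1) × ℝ, ‖U (Av R b) a.1 a.2‖ₑ ^ 4
      ∂((volume.restrict (An (m + 1) ρ)).prod volume) ≤ ENNReal.ofReal (C₃ * 16 * Q₀) := by
    have hm4 : Measurable fun a : E (m + 1) × ℝ => ‖U (Av R b) a.1 a.2‖ₑ ^ 4 :=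
      (U_meas hAv).enorm.pow_const 4
    rw [lintegral_prod _ hm4.aemeasurable]
    refine (h3 2 b hb ρ R lam hρ hρR hlam hlam2 hρl hb0).trans ?_
    calc ENNReal.ofReal (C₃ * (1 + Real.log ρ) ^ 4 * 2 ^ 2 * lam ^ (2 * m)) * N2 b +
          ENNReal.ofReal (C₃ * 2 ^ 4 * ρ ^ (m + 1) * (lam ^ m)⁻¹ *
            Real.exp (-(ρ ^ 2 * lam ^ 2 / (1600 * R))))
        ≤ ENNReal.ofReal (C₃ * (1 + Real.log ρ) ^ 4 * 2 ^ 2 * lam ^ (2 * m)) *
            ENNReal.ofReal V +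
          ENNReal.ofReal (C₃ * 2 ^ 4 * ρ ^ (m + 1) * (lam ^ m)⁻¹ *
            Real.exp (-(ρ ^ 2 * lam ^ 2 / (1600 * R)))) := by gcongr
      _ = ENNReal.ofReal (C₃ * (1 + Real.log ρ) ^ 4 * 2 ^ 2 * lam ^ (2 * m) * V +
          C₃ * 2 ^ 4 * ρ ^ (m + 1) * (lam ^ m)⁻¹ *
            Real.exp (-(ρ ^ 2 * lam ^ 2 / (1600 * R)))) := by
          rw [← ENNReal.ofReal_mul (by positivity), ← ENNReal.ofReal_add (by positivity)
            (by positivity)]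
      _ ≤ ENNReal.ofReal (C₃ * 16 * Q₀) := by
          refine ENNReal.ofReal_le_ofReal ?_
          have h5 : 0 ≤ (1 + Real.log ρ) ^ 4 * lam ^ (2 * m) * V := by positivity
          rw [hQ₀]
          nlinarith [mul_nonneg hC₃.le h5]
  have hlev : ∀ t : ℝ, 0 < t → ((volume.restrict (An (m + 1) ρ)).prod volume)
      {a : E (m + 1) × ℝ | t ≤ ‖U (Av R b) a.1 a.2‖} ≤
        ENNReal.ofReal ((C₃ * 16 * Q₀) / t ^ (4 : ℝ)) := by
    intro t ht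
    have hm4 : Measurable fun a : E (m + 1) × ℝ => ‖U (Av R b) a.1 a.2‖ₑ ^ 4 :=
      (U_meas hAv).enorm.pow_const 4
    have hsub : {a : E (m + 1) × ℝ | t ≤ ‖U (Av R b) a.1 a.2‖} ⊆
        {a : E (m + 1) × ℝ | ENNReal.ofReal (t ^ 4) ≤ ‖U (Av R b) a.1 a.2‖ₑ ^ 4} := by
      intro a ha
      change ENNReal.ofReal (t ^ 4) ≤ ‖U (Av R b) a.1 a.2‖ₑ ^ 4
      rw [ENNReal.ofReal_pow ht.le, ← ofReal_norm]
      gcongr
      exact ha
    refine (measure_mono hsub).trans ?_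
    refine (meas_ge_le_lintegral_div hm4.aemeasurable
      (by
        have : (0 : ℝ) < t ^ 4 := by positivity
        simpa using this) ENNReal.ofReal_ne_top).trans ?_
    have ht4 : (0 : ℝ) < t ^ 4 := by positivity
    have e4 : t ^ (4 : ℝ) = t ^ 4 := by
      rw [← Real.rpow_natCast]
      norm_num
    rw [e4, ENNReal.ofReal_div_of_pos ht4]
    gcongr
  refine (h1 (E (m + 1) × ℝ) ((volume.restrict (An (m + 1) ρ)).prod volume)
    (fun a => ‖U (Av R b) a.1 a.2‖) (U_meas hAv).norm (fun a => norm_nonneg _)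
    (C₂ * (ρ * V)) (C₃ * 16 * Q₀) (by positivity) (by positivity)
    (h2 2 (Av R b) hAv ρ V hρ0 hV hNA) hlev).trans
    (ENNReal.ofReal_le_ofReal (le_of_eq ?_))
  have e1 : (4 - p) / ((4 : ℝ) - 2) = (4 - p) / 2 := by norm_num
  have e2 : (p - 2) / ((4 : ℝ) - 2) = (p - 2) / 2 := by norm_num
  rw [e1, e2, Real.mul_rpow hC₂.le (by positivity), Real.mul_rpow (by positivity) hQpos.le]
  ring

end Pool.Agent.V5helper17.RL
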