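import Mathlib
import Pool.Agent.V5helper17.RL.Pieces
set_option autoImplicit false

/-! # Decay of the averaged pieces on dyadic cylinders -/

namespace Pool.Agent.V5helper17.RL

open MeasureTheory Set Complex Metric
open scoped ENNReal RealInnerProductSpace
open Pool.Agent.H789R2.FR (E sg T sg_finite A D)

theorem exp_decay (c δ β : ℝ) (hc : 0 < c) (hδ : 0 < δ) : ∃ C : ℝ, 0 < C ∧ ∀ ρ : ℝ, 1 ≤ ρ →
    Real.exp (-(c * ρ ^ δ)) ≤ C * ρ ^ β := by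
  obtain ⟨N, hN⟩ := exists_nat_ge (-β / δ)
  refine ⟨N.factorial * (c ^ N)⁻¹, by positivity, fun ρ hρ => ?_⟩
  have hρ0 : 0 < ρ := by linarith
  have h1 : (c * ρ ^ δ) ^ N / N.factorial ≤ Real.exp (c * ρ ^ δ) :=
    Real.pow_div_factorial_le_exp _ (by positivity) N
  have hx : 0 < (c * ρ ^ δ) ^ N / N.factorial := by positivity
  rw [Real.exp_neg]
  calc (Real.exp (c * ρ ^ δ))⁻¹ ≤ ((c * ρ ^ δ) ^ N / N.factorial)⁻¹ := by gcongr
    _ = N.factorial * (c ^ N)⁻¹ * (ρ ^ (-(δ * N))) := by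
        rw [Real.rpow_neg hρ0.le, Real.rpow_mul hρ0.le, Real.rpow_natCast, mul_pow]
        field_simp
    _ ≤ N.factorial * (c ^ N)⁻¹ * ρ ^ β := by
        refine mul_le_mul_of_nonneg_left ?_ (by positivity)
        refine Real.rpow_le_rpow_of_exponent_le hρ ?_
        rw [div_le_iff₀ hδ] at hN
        linarith [mul_comm (N : ℝ) δ]

theorem log_pow (ε : ℝ) (hε : 0 < ε) : ∃ C : ℝ, 0 < C ∧ ∀ ρ : ℝ, 1 ≤ ρ →
    (1 + Real.log ρ) ^ 4 ≤ C * ρ ^ ε := by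
  refine ⟨(1 + 1 / (ε / 4)) ^ 4, by positivity, fun ρ hρ => ?_⟩
  have hρ0 : 0 < ρ := by linarith
  have h1 : Real.log ρ ≤ ρ ^ (ε / 4) / (ε / 4) := Real.log_le_rpow_div hρ0.le (by positivity)
  have h2 : 1 ≤ ρ ^ (ε / 4) := Real.one_le_rpow hρ (by positivity)
  have h3 : 1 + Real.log ρ ≤ (1 + 1 / (ε / 4)) * ρ ^ (ε / 4) := by
    have : (1 + 1 / (ε / 4)) * ρ ^ (ε / 4) = ρ ^ (ε / 4) + ρ ^ (ε / 4) / (ε / 4) := by ring
    rw [this]
    linarith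
  have h4 : 0 ≤ Real.log ρ := Real.log_nonneg hρ
  calc (1 + Real.log ρ) ^ 4 ≤ ((1 + 1 / (ε / 4)) * ρ ^ (ε / 4)) ^ 4 := by gcongr
    _ = (1 + 1 / (ε / 4)) ^ 4 * ρ ^ ε := by
        rw [mul_pow, ← Real.rpow_natCast (ρ ^ (ε / 4)) 4, ← Real.rpow_mul hρ0.le]
        congr 2
        push_cast
        ring

/-- Powers of a positive number: `(K r^x)^a`. -/
theorem pw {K r x a : ℝ} (hK : 0 ≤ K) (hr : 0 < r) :
    (K * r ^ x) ^ a = K ^ a * r ^ (x * a) := by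
  rw [Real.mul_rpow hK (by positivity), ← Real.rpow_mul hr.le]

/-- the polar caps -/
def Cp {k : ℕ} (lam : ℝ) : Set (ℝ × E k) := {q | Real.sin q.1 < 2 * lam}

theorem Cp_meas {k : ℕ} (lam : ℝ) : MeasurableSet (Cp (k := k) lam) :=
  measurableSet_lt (Real.measurable_sin.comp measurable_fst) measurable_const

theorem A_zero {k : ℕ} (R : ℝ) (y : E k) : A R (fun _ : E k => (0 : ℂ)) y = 0 := by
  unfold A
  simp

theorem cap_zero {k : ℕ} (R lam : ℝ) (b : ℝ → E k → ℂ) (θ : ℝ) (u : E k)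
    (h : 2 * lam ≤ Real.sin θ) : Av R (cut (Cp lam) b) θ u = 0 := by
  unfold Av
  have : cut (Cp lam) b θ = fun _ : E k => (0 : ℂ) := by
    funext v
    refine cut_notMem b ?_
    intro hc
    have : Real.sin θ < 2 * lam := hc
    linarith
  rw [this]
  exact A_zero R u

theorem av_split (m : ℕ) (hm : 1 ≤ m) (p : ℝ) (hp : 2 < p)
    (hpq : p < 2 * (((m : ℝ) + 3) / (m + 1))) :
    ∃ C : ℝ, 0 < C ∧ ∀ (b : ℝ → E (m + 1) → ℂ), Bd 2 b →
    ∀ ρ R lam V : ℝ, 1 ≤ ρ → ρ ≤ R → 0 < lam → lam ≤ 1 / 2 → 1 ≤ 2 * ρ * lam → 0 < V →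
    N2 b ≤ ENNReal.ofReal V →
    W p (An (m + 1) ρ) (Av R b) ≤ ENNReal.ofReal (C * ((ρ * V) ^ ((4 - p) / 2) *
      ((1 + Real.log ρ) ^ 4 * lam ^ (2 * m) * V +
        ρ ^ (m + 1) * (lam ^ m)⁻¹ * Real.exp (-(ρ ^ 2 * lam ^ 2 / (1600 * R)))) ^
          ((p - 2) / 2) +
      (ρ * V) ^ (1 - (p - 2) * (m + 1) / 4) *
      ((2 * lam) ^ m * V) ^ ((p - 2) * (m + 3) / 4))) := by
  have hm0 : (1 : ℝ) ≤ m := by exact_mod_cast hm
  have hp4 : p < 4 := by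
    refine hpq.trans_le ?_
    rw [mul_div_assoc', div_le_iff₀ (by positivity)]
    linarith
  obtain ⟨C₁, hC₁, h1⟩ := nc_piece m hm p hp hp4
  obtain ⟨C₂, hC₂, h2⟩ := st_piece (m + 1) (by omega) p hp (by
    push_cast
    convert hpq using 3
    ring)
  refine ⟨2 ^ p * (C₁ + C₂), by positivity,
    fun b hb ρ R lam V hρ hρR hlam hlam2 hρl hV hN => ?_⟩
  have hR : 0 < R := by linarith
  have hρ0 : 0 < ρ := by linarith
  have hlog : 0 ≤ Real.log ρ := Real.log_nonneg hρ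
  have hb1 := cut_bd (Cp_meas (k := m + 1) lam) hb
  have hb2 := cut_bd (Cp_meas (k := m + 1) lam).compl hb
  have hN1 : N2 (cut (Cp lam) b) ≤ ENNReal.ofReal V := (cut_N2 _ b).trans hN
  have hN2 : N2 (cut (Cp lam)ᶜ b) ≤ ENNReal.ofReal V := (cut_N2 _ b).trans hN
  have hsplit : Av R b = fun θ u => Av R (cut (Cp lam) b) θ u + Av R (cut (Cp lam)ᶜ b) θ u := by
    rw [← Av_add hR.le hb1 hb2, cut_add]
  have hA1 := Av_bd hR.le hb1
  have hA2 := Av_bd hR.le hb2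
  have hcapN : N2 (Av R (cut (Cp lam) b)) ≤ ENNReal.ofReal V :=
    (Av_N2 (by omega) hR hb1).trans hN1
  have hcapG : NG (Av R (cut (Cp lam) b)) ≤ ENNReal.ofReal ((2 * lam) ^ m * V) := by
    have h5 := NG_cap _ (2 * lam) fun θ _ u h => cap_zero R lam b θ u h
    rw [Nat.add_sub_cancel] at h5
    refine h5.trans ?_
    rw [ENNReal.ofReal_mul (by positivity)]
    gcongr
  have hcap := h2 2 _ hA1 ρ V ((2 * lam) ^ m * V) hρ0 hV (by positivity) hcapN hcapG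
  have hnc := h1 _ hb2 ρ R lam V hρ hρR hlam hlam2 hρl hV hN2 fun θ _ u h => by
    refine cut_notMem b ?_
    intro hc
    exact hc h
  rw [hsplit]
  refine (W_add hA1 hA2 (by linarith) _).trans ?_
  calc ENNReal.ofReal (2 ^ p) * (W p (An (m + 1) ρ) (Av R (cut (Cp lam) b)) +
        W p (An (m + 1) ρ) (Av R (cut (Cp lam)ᶜ b)))
      ≤ ENNReal.ofReal (2 ^ p) * (ENNReal.ofReal (C₂ * (ρ * V) ^ (1 - (p - 2) *
          ((m + 1 : ℕ) : ℝ) / 4) * ((2 * lam) ^ m * V) ^ ((p - 2) * (((m + 1 : ℕ) : ℝ) + 2) / 4)) +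
        ENNReal.ofReal (C₁ * (ρ * V) ^ ((4 - p) / 2) *
          ((1 + Real.log ρ) ^ 4 * lam ^ (2 * m) * V +
          ρ ^ (m + 1) * (lam ^ m)⁻¹ * Real.exp (-(ρ ^ 2 * lam ^ 2 / (1600 * R)))) ^
          ((p - 2) / 2))) := by
        gcongr
    _ ≤ _ := by
        rw [← ENNReal.ofReal_add (by positivity) (by positivity),
          ← ENNReal.ofReal_mul (by positivity)]
        refine ENNReal.ofReal_le_ofReal ?_
        have e1 : 1 - (p - 2) * ((m + 1 : ℕ) : ℝ) / 4 = 1 - (p - 2) * (m + 1) / 4 := by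
          push_cast
          ring
        have e2 : (p - 2) * (((m + 1 : ℕ) : ℝ) + 2) / 4 = (p - 2) * (m + 3) / 4 := by
          push_cast
          ring
        rw [e1, e2]
        set X : ℝ := (ρ * V) ^ (1 - (p - 2) * (m + 1) / 4) *
          ((2 * lam) ^ m * V) ^ ((p - 2) * (m + 3) / 4) with hX
        set Y : ℝ := (ρ * V) ^ ((4 - p) / 2) *
          ((1 + Real.log ρ) ^ 4 * lam ^ (2 * m) * V +
          ρ ^ (m + 1) * (lam ^ m)⁻¹ * Real.exp (-(ρ ^ 2 * lam ^ 2 / (1600 * R)))) ^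
          ((p - 2) / 2) with hY
        have hX0 : 0 ≤ X := by positivity
        have hY0 : 0 ≤ Y := by positivity
        have h2p : (0 : ℝ) < 2 ^ p := by positivity
        calc (2 : ℝ) ^ p * (C₂ * (ρ * V) ^ (1 - (p - 2) * (m + 1) / 4) *
            ((2 * lam) ^ m * V) ^ ((p - 2) * (m + 3) / 4) + C₁ * (ρ * V) ^ ((4 - p) / 2) *
              ((1 + Real.log ρ) ^ 4 * lam ^ (2 * m) * V +
              ρ ^ (m + 1) * (lam ^ m)⁻¹ * Real.exp (-(ρ ^ 2 * lam ^ 2 / (1600 * R)))) ^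
              ((p - 2) / 2)) = 2 ^ p * (C₂ * X + C₁ * Y) := by
              rw [hX, hY]
              ring
          _ ≤ 2 ^ p * (C₁ + C₂) * (Y + X) := by
              have : 0 ≤ C₁ * X + C₂ * Y := by positivity
              nlinarith

theorem cdiv {c x : ℝ} (hc : 0 < c) : c * (x / c / 2) = x / 2 := by field_simp

theorem av_asym (m : ℕ) (hm : 1 ≤ m) (p : ℝ) (hp : 2 < p)
    (hpq : p < 2 * (((m : ℝ) + 3) / (m + 1))) (a v K : ℝ) (ha1 : 1 ≤ a) (ha2 : a < 2)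
    (hK : 0 < K)
    (hE : (4 - p) / 2 * (1 - v) + (p - 2) / 2 * (m * (a - 2) - v) < 0)
    (hE' : (1 - (p - 2) * (m + 1) / 4) * (1 - v) +
      (p - 2) * (m + 3) / 4 * (m * (a / 2 - 1) - v) < 0) :
    ∃ C κ : ℝ, 0 < C ∧ 0 < κ ∧ ∀ (b : ℝ → E (m + 1) → ℂ), Bd 2 b → ∀ ρ : ℝ, 1 ≤ ρ →
    N2 b ≤ ENNReal.ofReal (K * ρ ^ (-v)) →
    W p (An (m + 1) ρ) (Av (ρ ^ a) b) ≤ ENNReal.ofReal (C * ρ ^ (-κ)) := by
  have hm0 : (1 : ℝ) ≤ m := by exact_mod_cast hm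
  obtain ⟨C₁, hC₁, h1⟩ := av_split m hm p hp hpq
  set e₀ : ℝ := (4 - p) / 2 * (1 - v) + (p - 2) / 2 * (m * (a - 2) - v) with he₀
  set e₀' : ℝ := (1 - (p - 2) * (m + 1) / 4) * (1 - v) +
      (p - 2) * (m + 3) / 4 * (m * (a / 2 - 1) - v) with he₀'
  -- the small parameter
  obtain ⟨ε, hε, hε1, hε2, hε3⟩ : ∃ ε : ℝ, 0 < ε ∧ ε ≤ 1 - a / 2 ∧
      e₀ + (p - 2) / 2 * (1 + 2 * m) * ε < 0 ∧ e₀' + (p - 2) * (m + 3) / 4 * m * ε < 0 := by
    have hc1 : 0 < (p - 2) / 2 * (1 + 2 * (m : ℝ)) := by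
      have : 0 < p - 2 := by linarith
      positivity
    have hc2 : 0 < (p - 2) * (m + 3) / 4 * (m : ℝ) := by
      have : 0 < p - 2 := by linarith
      positivity
    refine ⟨min (1 - a / 2) (min (-e₀ / ((p - 2) / 2 * (1 + 2 * m)) / 2)
      (-e₀' / ((p - 2) * (m + 3) / 4 * m) / 2)), ?_, min_le_left _ _, ?_, ?_⟩
    · refine lt_min (by linarith) (lt_min ?_ ?_)
      · have : 0 < -e₀ := by linarith
        positivity
      · have : 0 < -e₀' := by linarith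
        positivity
    · have h2 : min (1 - a / 2) (min (-e₀ / ((p - 2) / 2 * (1 + 2 * m)) / 2)
        (-e₀' / ((p - 2) * (m + 3) / 4 * m) / 2)) ≤ -e₀ / ((p - 2) / 2 * (1 + 2 * m)) / 2 :=
        (min_le_right _ _).trans (min_le_left _ _)
      have h3 := mul_le_mul_of_nonneg_left h2 hc1.le
      have h4 : (p - 2) / 2 * (1 + 2 * (m : ℝ)) * (-e₀ / ((p - 2) / 2 * (1 + 2 * m)) / 2) =
          -e₀ / 2 := cdiv hc1
      linarith
    · have h2 : min (1 - a / 2) (min (-e₀ / ((p - 2) / 2 * (1 + 2 * m)) / 2)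
        (-e₀' / ((p - 2) * (m + 3) / 4 * m) / 2)) ≤ -e₀' / ((p - 2) * (m + 3) / 4 * m) / 2 :=
        (min_le_right _ _).trans (min_le_right _ _)
      have h3 := mul_le_mul_of_nonneg_left h2 hc2.le
      have h4 : (p - 2) * (m + 3) / 4 * (m : ℝ) * (-e₀' / ((p - 2) * (m + 3) / 4 * m) / 2) =
          -e₀' / 2 := cdiv hc2
      linarith
  obtain ⟨C₂, hC₂, h2⟩ := log_pow ε hε
  set e₂ : ℝ := ε + 2 * m * (ε + a / 2 - 1) - v with he₂
  obtain ⟨C₃, hC₃, h3⟩ := exp_decay (1 / 6400) (2 * ε) (e₂ - (2 * m + 1)) (by norm_num)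
    (by positivity)
  set ea : ℝ := (1 - v) * ((4 - p) / 2) + e₂ * ((p - 2) / 2) with hea
  set eb : ℝ := (1 - v) * (1 - (p - 2) * (m + 1) / 4) +
    (m * (ε + a / 2 - 1) - v) * ((p - 2) * (m + 3) / 4) with heb
  have hea0 : ea < 0 := by
    have : ea = e₀ + (p - 2) / 2 * (1 + 2 * m) * ε := by
      rw [hea, he₀, he₂]
      ring
    linarith
  have heb0 : eb < 0 := by
    have : eb = e₀' + (p - 2) * (m + 3) / 4 * m * ε := by
      rw [heb, he₀']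
      ring
    linarith
  refine ⟨C₁ * (K ^ ((4 - p) / 2) * (C₂ * K + 2 ^ m * C₃) ^ ((p - 2) / 2) +
    K ^ (1 - (p - 2) * (m + 1) / 4) * K ^ ((p - 2) * (m + 3) / 4)), min (-ea) (-eb),
    by positivity, lt_min (by linarith) (by linarith), fun b hb ρ hρ hN => ?_⟩
  have hρ0 : 0 < ρ := by linarith
  set lam : ℝ := 1 / 2 * ρ ^ (ε + a / 2 - 1) with hlam
  have hlam0 : 0 < lam := by positivity
  have hlam2 : lam ≤ 1 / 2 := by
    have : ρ ^ (ε + a / 2 - 1) ≤ 1 := Real.rpow_le_one_of_one_le_of_nonpos hρ (by linarith)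
    rw [hlam]
    linarith
  have hρl : 1 ≤ 2 * ρ * lam := by
    have : 2 * ρ * lam = ρ ^ (ε + a / 2) := by
      rw [hlam]
      have h5 : ρ ^ (ε + a / 2) = ρ ^ (ε + a / 2 - 1) * ρ := by
        rw [← Real.rpow_add_one hρ0.ne']
        congr 1
        ring
      rw [h5]
      ring
    rw [this]
    exact Real.one_le_rpow hρ (by linarith)
  have hρR : ρ ≤ ρ ^ a := by
    calc ρ = ρ ^ (1 : ℝ) := (Real.rpow_one ρ).symm
      _ ≤ ρ ^ a := Real.rpow_le_rpow_of_exponent_le hρ ha1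
  refine (h1 b hb ρ (ρ ^ a) lam (K * ρ ^ (-v)) hρ hρR hlam0 hlam2 hρl (by positivity) hN).trans
    (ENNReal.ofReal_le_ofReal ?_)
  have hlog : 0 ≤ Real.log ρ := Real.log_nonneg hρ
  have hV : ρ * (K * ρ ^ (-v)) = K * ρ ^ (1 - v) := by
    have : ρ ^ (1 - v) = ρ * ρ ^ (-v) := by
      rw [show 1 - v = 1 + -v by ring, Real.rpow_add hρ0, Real.rpow_one]
    rw [this]
    ring
  have hmain : (1 + Real.log ρ) ^ 4 * lam ^ (2 * m) * (K * ρ ^ (-v)) +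
      ρ ^ (m + 1) * (lam ^ m)⁻¹ * Real.exp (-(ρ ^ 2 * lam ^ 2 / (1600 * ρ ^ a))) ≤
      (C₂ * K + 2 ^ m * C₃) * ρ ^ e₂ := by
    have g1 : (1 + Real.log ρ) ^ 4 * lam ^ (2 * m) * (K * ρ ^ (-v)) ≤ C₂ * K * ρ ^ e₂ := by
      have g2 : lam ^ (2 * m) ≤ ρ ^ (2 * m * (ε + a / 2 - 1)) := by
        calc lam ^ (2 * m) ≤ (ρ ^ (ε + a / 2 - 1)) ^ (2 * m) := by
              have : lam ≤ ρ ^ (ε + a / 2 - 1) := by
                rw [hlam]
                have : 0 < ρ ^ (ε + a / 2 - 1) := by positivity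
                linarith
              gcongr
          _ = ρ ^ (2 * m * (ε + a / 2 - 1)) := by
              rw [← Real.rpow_natCast, ← Real.rpow_mul hρ0.le]
              congr 1
              push_cast
              ring
      calc (1 + Real.log ρ) ^ 4 * lam ^ (2 * m) * (K * ρ ^ (-v))
          ≤ (C₂ * ρ ^ ε) * ρ ^ (2 * m * (ε + a / 2 - 1)) * (K * ρ ^ (-v)) := by
            gcongr
            exact h2 ρ hρ
        _ = C₂ * K * (ρ ^ ε * ρ ^ (2 * m * (ε + a / 2 - 1)) * ρ ^ (-v)) := by ring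
        _ = C₂ * K * ρ ^ e₂ := by
            rw [← Real.rpow_add hρ0, ← Real.rpow_add hρ0]
            congr 2
    have g3 : ρ ^ (m + 1) * (lam ^ m)⁻¹ * Real.exp (-(ρ ^ 2 * lam ^ 2 / (1600 * ρ ^ a))) ≤
        2 ^ m * C₃ * ρ ^ e₂ := by
      have g4 : (lam ^ m)⁻¹ ≤ 2 ^ m * ρ ^ m := by
        have : lam⁻¹ ≤ 2 * ρ := by
          rw [inv_le_comm₀ hlam0 (by positivity)]
          rw [← one_div, div_le_iff₀ (by positivity)]
          nlinarith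
        calc (lam ^ m)⁻¹ = (lam⁻¹) ^ m := by rw [inv_pow]
          _ ≤ (2 * ρ) ^ m := by gcongr
          _ = _ := by rw [mul_pow]
      have g5 : ρ ^ 2 * lam ^ 2 / (1600 * ρ ^ a) = 1 / 6400 * ρ ^ (2 * ε) := by
        have hρa : 0 < ρ ^ a := by positivity
        have : ρ ^ 2 * (ρ ^ (ε + a / 2 - 1)) ^ 2 = ρ ^ (2 * ε) * ρ ^ a := by
          rw [← Real.rpow_natCast (ρ ^ (ε + a / 2 - 1)) 2, ← Real.rpow_mul hρ0.le,
            ← Real.rpow_natCast ρ 2, ← Real.rpow_add hρ0, ← Real.rpow_add hρ0]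
          congr 1
          push_cast
          ring
        rw [div_eq_iff (by positivity), hlam]
        calc ρ ^ 2 * (1 / 2 * ρ ^ (ε + a / 2 - 1)) ^ 2 =
            1 / 4 * (ρ ^ 2 * (ρ ^ (ε + a / 2 - 1)) ^ 2) := by ring
          _ = 1 / 4 * (ρ ^ (2 * ε) * ρ ^ a) := by rw [this]
          _ = _ := by ring
      rw [g5]
      calc ρ ^ (m + 1) * (lam ^ m)⁻¹ * Real.exp (-(1 / 6400 * ρ ^ (2 * ε)))
          ≤ ρ ^ (m + 1) * (2 ^ m * ρ ^ m) * (C₃ * ρ ^ (e₂ - (2 * m + 1))) := by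
            gcongr
            exact h3 ρ hρ
        _ = 2 ^ m * C₃ * (ρ ^ ((2 * m + 1 : ℕ) : ℝ) * ρ ^ (e₂ - (2 * m + 1))) := by
            rw [Real.rpow_natCast]
            ring
        _ = 2 ^ m * C₃ * ρ ^ e₂ := by
            rw [← Real.rpow_add hρ0]
            congr 2
            push_cast
            ring
    calc _ ≤ C₂ * K * ρ ^ e₂ + 2 ^ m * C₃ * ρ ^ e₂ := add_le_add g1 g3
      _ = _ := by ring
  have hcap : (2 * lam) ^ m * (K * ρ ^ (-v)) = K * ρ ^ (m * (ε + a / 2 - 1) - v) := by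
    have : (2 * lam) ^ m = ρ ^ (m * (ε + a / 2 - 1)) := by
      rw [hlam, show 2 * (1 / 2 * ρ ^ (ε + a / 2 - 1)) = ρ ^ (ε + a / 2 - 1) by ring,
        ← Real.rpow_natCast, ← Real.rpow_mul hρ0.le]
      congr 1
      ring
    rw [this, show (m : ℝ) * (ε + a / 2 - 1) - v = m * (ε + a / 2 - 1) + -v by ring,
      Real.rpow_add hρ0]
    ring
  rw [hV, hcap]
  have hp2 : 0 ≤ (p - 2) / 2 := by linarith
  have hfirst : (K * ρ ^ (1 - v)) ^ ((4 - p) / 2) *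
      ((1 + Real.log ρ) ^ 4 * lam ^ (2 * m) * (K * ρ ^ (-v)) +
      ρ ^ (m + 1) * (lam ^ m)⁻¹ * Real.exp (-(ρ ^ 2 * lam ^ 2 / (1600 * ρ ^ a)))) ^
        ((p - 2) / 2) ≤
      K ^ ((4 - p) / 2) * (C₂ * K + 2 ^ m * C₃) ^ ((p - 2) / 2) * ρ ^ ea := by
    calc _ ≤ (K * ρ ^ (1 - v)) ^ ((4 - p) / 2) *
          ((C₂ * K + 2 ^ m * C₃) * ρ ^ e₂) ^ ((p - 2) / 2) := by
          refine mul_le_mul_of_nonneg_left ?_ (by positivity)
          exact Real.rpow_le_rpow (by positivity) hmain hp2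
      _ = _ := by
          rw [pw hK.le hρ0, pw (by positivity) hρ0, hea, Real.rpow_add hρ0]
          ring
  have hsecond : (K * ρ ^ (1 - v)) ^ (1 - (p - 2) * (m + 1) / 4) *
      (K * ρ ^ (m * (ε + a / 2 - 1) - v)) ^ ((p - 2) * (m + 3) / 4) =
      K ^ (1 - (p - 2) * (m + 1) / 4) * K ^ ((p - 2) * (m + 3) / 4) * ρ ^ eb := by
    rw [pw hK.le hρ0, pw hK.le hρ0, heb, Real.rpow_add hρ0]
    ring
  have hka : ρ ^ ea ≤ ρ ^ (-(min (-ea) (-eb))) :=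
    Real.rpow_le_rpow_of_exponent_le hρ (by linarith [min_le_left (-ea) (-eb)])
  have hkb : ρ ^ eb ≤ ρ ^ (-(min (-ea) (-eb))) :=
    Real.rpow_le_rpow_of_exponent_le hρ (by linarith [min_le_right (-ea) (-eb)])
  rw [hsecond]
  calc C₁ * ((K * ρ ^ (1 - v)) ^ ((4 - p) / 2) *
      ((1 + Real.log ρ) ^ 4 * lam ^ (2 * m) * (K * ρ ^ (-v)) +
      ρ ^ (m + 1) * (lam ^ m)⁻¹ * Real.exp (-(ρ ^ 2 * lam ^ 2 / (1600 * ρ ^ a)))) ^
        ((p - 2) / 2) + K ^ (1 - (p - 2) * (m + 1) / 4) * K ^ ((p - 2) * (m + 3) / 4) * ρ ^ eb)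
      ≤ C₁ * (K ^ ((4 - p) / 2) * (C₂ * K + 2 ^ m * C₃) ^ ((p - 2) / 2) *
        ρ ^ (-(min (-ea) (-eb))) + K ^ (1 - (p - 2) * (m + 1) / 4) *
          K ^ ((p - 2) * (m + 3) / 4) * ρ ^ (-(min (-ea) (-eb)))) := by
        refine mul_le_mul_of_nonneg_left (add_le_add (hfirst.trans ?_) ?_) hC₁.le
        · exact mul_le_mul_of_nonneg_left hka (by positivity)
        · exact mul_le_mul_of_nonneg_left hkb (by positivity)
    _ = _ := by ring

end Pool.Agent.V5helper17.RL
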