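import Mathlib
set_option autoImplicit false

/-! # The choice of the parameters -/

namespace Pool.Agent.V5helper17.RL

/-- exponent of the strip part -/
noncomputable def E1 (m : ℕ) (p a v : ℝ) : ℝ :=
  (4 - p) / 2 * (1 - v) + (p - 2) / 2 * (m * (a - 2) - v)

/-- exponent of the polar part -/
noncomputable def E2 (m : ℕ) (p a v : ℝ) : ℝ :=
  (1 - (p - 2) * (m + 1) / 4) * (1 - v) + (p - 2) * (m + 3) / 4 * (m * (a / 2 - 1) - v)

/-- exponent of the remainder -/
noncomputable def E3 (m : ℕ) (p v : ℝ) : ℝ :=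
  (1 - (p - 2) * (m + 1) / 4) * (1 - v) + (p - 2) * (m + 3) / 4 * (-v)

theorem choose_A (m : ℕ) (hm : 1 ≤ m) (s p : ℝ) (hs : 0 < s)
    (hp : 2 * ((m : ℝ) + 2) / (m + 1) < p)
    (h : 2 * (2 * m - s * (3 * m - 1)) < (p - 2) * ((m + 1) * m + 2 * s * (2 * m + 1))) :
    ∃ A : ℝ, 1 < A ∧ A < 2 ∧ E1 m p A (s * A) < 0 ∧ E3 m p (s * A) < 0 := by
  have hm0 : (1 : ℝ) ≤ m := by exact_mod_cast hm
  have hm1 : (0 : ℝ) < m + 1 := by linarith
  rw [div_lt_iff₀ hm1] at hp
  have hq : 2 < (p - 2) * (m + 1) := by linarith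
  have hp2 : 0 < p - 2 := by
    by_contra hc
    push Not at hc
    have : (p - 2) * ((m : ℝ) + 1) ≤ 0 := mul_nonpos_of_nonpos_of_nonneg hc hm1.le
    linarith
  have f1 : ∀ a v, E1 m p a v = (4 - p) / 2 - (p - 2) * m * (2 - a) / 2 - v := by
    intro a v
    unfold E1
    ring
  have f3 : ∀ v, E3 m p v = 1 - (p - 2) * (m + 1) / 4 - v * p / 2 := by
    intro v
    unfold E3
    ring
  rcases lt_or_ge s (((m : ℝ) + 1) / 2) with hc | hc
  · have hsm : 0 < s + m := by linarith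
    have hA : ∀ A : ℝ, A = (3 * m + 1) / (2 * (s + m)) → A * (2 * (s + m)) = 3 * m + 1 := by
      intro A hA
      rw [hA]
      field_simp
    set A : ℝ := (3 * m + 1) / (2 * (s + m)) with hAdef
    have hAe := hA A hAdef
    refine ⟨A, ?_, ?_, ?_, ?_⟩
    · rw [hAdef, lt_div_iff₀ (by positivity)]
      linarith
    · rw [hAdef, div_lt_iff₀ (by positivity)]
      linarith
    · rw [f1]
      have h1 : 4 * (s + m) * ((4 - p) / 2 - (p - 2) * m * (2 - A) / 2 - s * A) =
          2 * (2 * m - s * (3 * m - 1)) - (p - 2) * ((m + 1) * m + 2 * s * (2 * m + 1)) := by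
        have : 4 * (s + m) * ((4 - p) / 2 - (p - 2) * m * (2 - A) / 2 - s * A) =
            2 * (s + m) * (4 - p) - 4 * (s + m) * (p - 2) * m +
            ((p - 2) * m - 2 * s) * (A * (2 * (s + m))) := by ring
        rw [this, hAe]
        ring
      have h2 : 4 * (s + m) * ((4 - p) / 2 - (p - 2) * m * (2 - A) / 2 - s * A) <
          4 * (s + m) * 0 := by
        rw [h1]
        linarith
      exact lt_of_mul_lt_mul_left h2 (by positivity)
    · rw [f3]
      have h1 : 4 * (s + m) * (1 - (p - 2) * (m + 1) / 4 - s * A * p / 2) =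
          2 * (2 * m - s * (3 * m - 1)) - (p - 2) * ((m + 1) * m + 2 * s * (2 * m + 1)) := by
        have : 4 * (s + m) * (1 - (p - 2) * (m + 1) / 4 - s * A * p / 2) =
            4 * (s + m) - (s + m) * (p - 2) * (m + 1) - s * p * (A * (2 * (s + m))) := by ring
        rw [this, hAe]
        ring
      have h2 : 4 * (s + m) * (1 - (p - 2) * (m + 1) / 4 - s * A * p / 2) <
          4 * (s + m) * 0 := by
        rw [h1]
        linarith
      exact lt_of_mul_lt_mul_left h2 (by positivity)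
  · have hs1 : 1 ≤ s := by linarith
    refine ⟨3 / 2, by norm_num, by norm_num, ?_, ?_⟩
    · rw [f1]
      have : 0 < (p - 2) * (m : ℝ) := by positivity
      nlinarith
    · rw [f3]
      have : 0 < s * (p - 2) := by positivity
      nlinarith

theorem params (m : ℕ) (hm : 1 ≤ m) (s p : ℝ) (hs0 : 0 < s)
    (hp : 2 * ((m : ℝ) + 2) / (m + 1) < p)
    (h : 2 * (2 * m - s * (3 * m - 1)) < (p - 2) * ((m + 1) * m + 2 * s * (2 * m + 1))) :
    2 < p ∧ ∃ A η : ℝ, 1 ≤ A ∧ 0 < η ∧ A + η < 2 ∧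
    (∀ a a' : ℝ, 1 ≤ a → a ≤ A → a ≤ a' → a' ≤ a + η → E1 m p a' (s * a) < 0 ∧
      E2 m p a' (s * a) < 0) ∧ E3 m p (s * A) < 0 ∧ E1 m p 1 0 < 0 ∧ E2 m p 1 0 < 0 := by
  have hm0 : (1 : ℝ) ≤ m := by exact_mod_cast hm
  obtain ⟨A, hA1, hA2, g4, g3⟩ := choose_A m hm s p hs0 hp h
  have hm1 : (0 : ℝ) < m + 1 := by linarith
  -- q = p - 2 > 2/(m+1)
  rw [div_lt_iff₀ hm1] at hp
  have hq : 2 < (p - 2) * (m + 1) := by linarith
  have hp2 : 0 < p - 2 := by
    by_contra hc
    push Not at hc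
    have : (p - 2) * ((m : ℝ) + 1) ≤ 0 := mul_nonpos_of_nonpos_of_nonneg hc hm1.le
    linarith
  have f1 : ∀ a v, E1 m p a v = (4 - p) / 2 - (p - 2) * m * (2 - a) / 2 - v := by
    intro a v
    unfold E1
    ring
  have f2 : ∀ a v, E2 m p a v =
      1 - (p - 2) * (m + 1) / 4 - (p - 2) * (m + 3) * m * (2 - a) / 8 - v * p / 2 := by
    intro a v
    unfold E2
    ring
  have f3 : ∀ v, E3 m p v = 1 - (p - 2) * (m + 1) / 4 - v * p / 2 := by
    intro v
    unfold E3
    ring
  -- the values at the ends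
  have g1 : E1 m p 1 0 < 0 := by
    rw [f1]
    nlinarith
  have g2 : E2 m p 1 0 < 0 := by
    rw [f2]
    -- 1 - P/4 - P (m+3) m / (8 (m+1))
    have h1 : (p - 2) * (m + 3) * m ≥ 4 := by
      -- (p-2)(m+1) > 2, (m+3) m >= 2 (m+1)
      nlinarith
    nlinarith
  have g5 : E2 m p A (s * A) < 0 := by
    have : E2 m p A (s * A) = E3 m p (s * A) - (p - 2) * (m + 3) * m * (2 - A) / 8 := by
      rw [f2, f3]
      ring
    have h1 : 0 < (p - 2) * (m + 3) * m * (2 - A) := by
      have : 0 < 2 - A := by linarith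
      positivity
    linarith
  have g6 : E1 m p 1 (s * 1) < 0 := by
    rw [f1] at g1 ⊢
    linarith
  have g7 : E2 m p 1 (s * 1) < 0 := by
    rw [f2] at g2 ⊢
    have : 0 < s * 1 * p := by
      have : 0 < p := by linarith
      positivity
    linarith
  set δ : ℝ := min (min (-E1 m p 1 (s * 1)) (-E1 m p A (s * A)))
    (min (-E2 m p 1 (s * 1)) (-E2 m p A (s * A))) with hδ
  have hδ0 : 0 < δ := lt_min (lt_min (by linarith) (by linarith)) (lt_min (by linarith) (by linarith))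
  have d1 : E1 m p 1 (s * 1) ≤ -δ := by
    have : δ ≤ -E1 m p 1 (s * 1) := (min_le_left _ _).trans (min_le_left _ _)
    linarith
  have d2 : E1 m p A (s * A) ≤ -δ := by
    have : δ ≤ -E1 m p A (s * A) := (min_le_left _ _).trans (min_le_right _ _)
    linarith
  have d3 : E2 m p 1 (s * 1) ≤ -δ := by
    have : δ ≤ -E2 m p 1 (s * 1) := (min_le_right _ _).trans (min_le_left _ _)
    linarith
  have d4 : E2 m p A (s * A) ≤ -δ := by
    have : δ ≤ -E2 m p A (s * A) := (min_le_right _ _).trans (min_le_right _ _)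
    linarith
  have hA0 : 0 < A - 1 := by linarith
  have d5 : ∀ a : ℝ, 1 ≤ a → a ≤ A → E1 m p a (s * a) ≤ -δ := by
    intro a h1 h2
    rw [f1] at d1 d2 ⊢
    have e1 := mul_le_mul_of_nonneg_left d1 (by linarith : 0 ≤ A - a)
    have e2 := mul_le_mul_of_nonneg_left d2 (by linarith : 0 ≤ a - 1)
    have h3 : (A - 1) * ((4 - p) / 2 - (p - 2) * m * (2 - a) / 2 - s * a) ≤ (A - 1) * -δ := by
      nlinarith
    exact le_of_mul_le_mul_left h3 hA0
  have d6 : ∀ a : ℝ, 1 ≤ a → a ≤ A → E2 m p a (s * a) ≤ -δ := by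
    intro a h1 h2
    rw [f2] at d3 d4 ⊢
    have e1 := mul_le_mul_of_nonneg_left d3 (by linarith : 0 ≤ A - a)
    have e2 := mul_le_mul_of_nonneg_left d4 (by linarith : 0 ≤ a - 1)
    have h3 : (A - 1) * (1 - (p - 2) * (m + 1) / 4 - (p - 2) * (m + 3) * m * (2 - a) / 8 -
      s * a * p / 2) ≤ (A - 1) * -δ := by
      nlinarith
    exact le_of_mul_le_mul_left h3 hA0
  set c : ℝ := (p - 2) * m / 2 + (p - 2) * (m + 3) * m / 8 with hc
  have hc0 : 0 < c := by positivity
  set η : ℝ := min ((2 - A) / 2) (δ / (2 * c)) with hη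
  have hη0 : 0 < η := lt_min (by linarith) (by positivity)
  have hη1 : η ≤ (2 - A) / 2 := min_le_left _ _
  have hη2 : η * (2 * c) ≤ δ := by
    have : η ≤ δ / (2 * c) := min_le_right _ _
    rwa [le_div_iff₀ (by positivity)] at this
  refine ⟨by linarith, A, η, hA1.le, hη0, by linarith, fun a a' h1 h2 h3 h4 => ⟨?_, ?_⟩,
    g3, g1, g2⟩
  · have h5 := d5 a h1 h2
    have h6 : E1 m p a' (s * a) = E1 m p a (s * a) + (p - 2) * m / 2 * (a' - a) := by
      rw [f1, f1]
      ring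
    have h7 : (p - 2) * m / 2 * (a' - a) ≤ c * η := by
      have h8 : (p - 2) * m / 2 * (a' - a) ≤ (p - 2) * m / 2 * η := by
        refine mul_le_mul_of_nonneg_left (by linarith) (by positivity)
      have h9 : 0 < (p - 2) * (m + 3) * m / 8 * η := by positivity
      rw [hc]
      linarith
    linarith
  · have h5 := d6 a h1 h2
    have h6 : E2 m p a' (s * a) = E2 m p a (s * a) + (p - 2) * (m + 3) * m / 8 * (a' - a) := by
      rw [f2, f2]
      ring
    have h7 : (p - 2) * (m + 3) * m / 8 * (a' - a) ≤ c * η := by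
      have h8 : (p - 2) * (m + 3) * m / 8 * (a' - a) ≤ (p - 2) * (m + 3) * m / 8 * η := by
        refine mul_le_mul_of_nonneg_left (by linarith) (by positivity)
      have h9 : 0 < (p - 2) * m / 2 * η := by positivity
      rw [hc]
      linarith
    linarith

end Pool.Agent.V5helper17.RL
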