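import Mathlib
import Pool.Agent.V5helper17.RL.Asym
import Pool.Agent.V5helper17.RL.Params
set_option autoImplicit false

/-! # Decay on dyadic cylinders for densities regular along the latitude spheres -/

namespace Pool.Agent.V5helper17.RL

open MeasureTheory Set Complex Metric
open scoped ENNReal RealInnerProductSpace
open Pool.Agent.H789R2.FR (E sg T sg_finite A D A_sub A_comm rem_bound)

theorem rem_asym (m : ℕ) (hm : 1 ≤ m) (p : ℝ) (hp : 2 < p)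
    (hpq : p < 2 * (((m : ℝ) + 3) / (m + 1))) (v K : ℝ) (hK : 0 < K) (hE : E3 m p v < 0) :
    ∃ C κ : ℝ, 0 < C ∧ 0 < κ ∧ ∀ (b : ℝ → E (m + 1) → ℂ), Bd 2 b → ∀ ρ : ℝ, 1 ≤ ρ →
    N2 b ≤ ENNReal.ofReal (K * ρ ^ (-v)) →
    W p (An (m + 1) ρ) b ≤ ENNReal.ofReal (C * ρ ^ (-κ)) := by
  obtain ⟨C₂, hC₂, h2⟩ := st_piece (m + 1) (by omega) p hp (by
    push_cast
    convert hpq using 3
    ring)
  refine ⟨C₂ * (K ^ (1 - (p - 2) * (m + 1) / 4) * K ^ ((p - 2) * (m + 3) / 4)), -E3 m p v,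
    by positivity, by linarith, fun b hb ρ hρ hN => ?_⟩
  have hρ0 : 0 < ρ := by linarith
  have hN' : NG b ≤ ENNReal.ofReal (K * ρ ^ (-v)) := (NG_le_N2 b).trans hN
  refine (h2 2 b hb ρ (K * ρ ^ (-v)) (K * ρ ^ (-v)) hρ0 (by positivity) (by positivity) hN
    hN').trans (ENNReal.ofReal_le_ofReal (le_of_eq ?_))
  have e1 : 1 - (p - 2) * ((m + 1 : ℕ) : ℝ) / 4 = 1 - (p - 2) * (m + 1) / 4 := by
    push_cast
    ring
  have e2 : (p - 2) * (((m + 1 : ℕ) : ℝ) + 2) / 4 = (p - 2) * (m + 3) / 4 := by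
    push_cast
    ring
  have hV : ρ * (K * ρ ^ (-v)) = K * ρ ^ (1 - v) := by
    have : ρ ^ (1 - v) = ρ * ρ ^ (-v) := by
      rw [show 1 - v = 1 + -v by ring, Real.rpow_add hρ0, Real.rpow_one]
    rw [this]
    ring
  rw [e1, e2, hV, pw hK.le hρ0, pw hK.le hρ0]
  have e3 : - -E3 m p v = (1 - v) * (1 - (p - 2) * (m + 1) / 4) + -v * ((p - 2) * (m + 3) / 4) := by
    unfold E3
    ring
  rw [e3, Real.rpow_add hρ0]
  ring

/-- The energy of the regularity along the latitude spheres. -/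
noncomputable def Gag {k : ℕ} (s : ℝ) (b : ℝ → E k → ℂ) : ℝ≥0∞ :=
  ∫⁻ θ in Ioo (0 : ℝ) Real.pi, ∫⁻ x, ∫⁻ y,
    ENNReal.ofReal (‖b θ x - b θ y‖ ^ 2 / ‖x - y‖ ^ ((k : ℝ) - 1 + 2 * s)) ∂(sg k) ∂(sg k)

theorem Bd.sub {k : ℕ} {B B' : ℝ} {b b' : ℝ → E k → ℂ} (h : Bd B b) (h' : Bd B' b') :
    Bd (B + B') fun θ u => b θ u - b' θ u :=
  ⟨h.meas.sub h'.meas, fun θ u => (norm_sub_le _ _).trans (add_le_add (h.le θ u) (h'.le θ u))⟩

theorem Bd.mono {k : ℕ} {B B' : ℝ} {b : ℝ → E k → ℂ} (h : Bd B b) (hB : B ≤ B') : Bd B' b :=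
  ⟨h.meas, fun θ u => (h.le θ u).trans hB⟩

theorem N2_meas {k : ℕ} {B : ℝ} {b : ℝ → E k → ℂ} (h : Bd B b) :
    Measurable fun θ => ∫⁻ u, ‖b θ u‖ₑ ^ 2 ∂(sg k) :=
  (h.meas.enorm.pow_const 2).lintegral_prod_right'

theorem sq_add_le (x y : ℂ) : ‖x + y‖ₑ ^ 2 ≤ 2 * (‖x‖ₑ ^ 2 + ‖y‖ₑ ^ 2) := by
  rw [← ofReal_norm, ← ofReal_norm, ← ofReal_norm, ← ENNReal.ofReal_pow (norm_nonneg _),
    ← ENNReal.ofReal_pow (norm_nonneg _), ← ENNReal.ofReal_pow (norm_nonneg _),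
    ← ENNReal.ofReal_add (by positivity) (by positivity),
    show (2 : ℝ≥0∞) = ENNReal.ofReal 2 by norm_num, ← ENNReal.ofReal_mul (by norm_num)]
  refine ENNReal.ofReal_le_ofReal ?_
  have h1 : ‖x + y‖ ^ 2 ≤ (‖x‖ + ‖y‖) ^ 2 := by
    have := norm_add_le x y
    gcongr
  nlinarith [sq_nonneg (‖x‖ - ‖y‖)]

theorem N2_add {k : ℕ} {B B' : ℝ} {b b' : ℝ → E k → ℂ} (h : Bd B b) (h' : Bd B' b')
    (c : ℝ → E k → ℂ) (hc : ∀ θ u, c θ u = b θ u + b' θ u) :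
    N2 c ≤ 2 * (N2 b + N2 b') := by
  unfold N2
  rw [← lintegral_add_left (N2_meas h), ← lintegral_const_mul' _ _ (by norm_num)]
  refine setLIntegral_mono' measurableSet_Ioo fun θ _ => ?_
  rw [← lintegral_add_left ((h.meas1 θ).enorm.pow_const 2), ← lintegral_const_mul' _ _ (by norm_num)]
  refine lintegral_mono fun u => ?_
  rw [hc]
  exact sq_add_le _ _

theorem N2_rem (k : ℕ) (hk : 2 ≤ k) (s : ℝ) (hs : 0 < s) : ∃ C : ℝ, 0 < C ∧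
    ∀ (B : ℝ) (b : ℝ → E k → ℂ), Bd B b → ∀ R : ℝ, 1 ≤ R →
    N2 (fun θ u => b θ u - Av R b θ u) ≤ ENNReal.ofReal (C * R ^ (-s)) * Gag s b := by
  obtain ⟨C, hC, h⟩ := rem_bound k hk s hs
  refine ⟨C, hC, fun B b hb R hR => ?_⟩
  have hR0 : 0 < R := by linarith
  have hAv := Av_bd hR0.le hb
  have hd := hb.sub hAv
  unfold N2 Gag
  rw [← lintegral_const_mul' _ _ ENNReal.ofReal_ne_top]
  refine setLIntegral_mono' measurableSet_Ioo fun θ _ => ?_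
  set I : ℝ≥0∞ := ∫⁻ x, ∫⁻ y,
    ENNReal.ofReal (‖b θ x - b θ y‖ ^ 2 / ‖x - y‖ ^ ((k : ℝ) - 1 + 2 * s)) ∂(sg k) ∂(sg k) with hI
  by_cases hT : I = ⊤
  · rw [hT, ENNReal.mul_top]
    · exact le_top
    · simp only [ne_eq, ENNReal.ofReal_eq_zero, not_le]
      positivity
  · have h1 := h (b θ) (hb.meas1 θ) ⟨B, hb.le θ⟩ I.toReal ENNReal.toReal_nonneg
      (by rw [ENNReal.ofReal_toReal hT]) R hR
    have h2 := int_sq (fun u => b θ u - Av R b θ u) (hd.meas1 θ) (B + B) (hd.le θ)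
    rw [← h2]
    calc ENNReal.ofReal (∫ w, ‖b θ w - Av R b θ w‖ ^ 2 ∂(sg k))
        ≤ ENNReal.ofReal (C * I.toReal * R ^ (-s)) := ENNReal.ofReal_le_ofReal h1
      _ = ENNReal.ofReal (C * R ^ (-s)) * ENNReal.ofReal I.toReal := by
          rw [← ENNReal.ofReal_mul (by positivity)]
          congr 1
          ring
      _ = ENNReal.ofReal (C * R ^ (-s)) * I := by rw [ENNReal.ofReal_toReal hT]

theorem comb {p ρ C₁ C₂ κ₁ κ₂ : ℝ} {X Y : ℝ≥0∞} (hρ : 1 ≤ ρ) (hC₁ : 0 < C₁) (hC₂ : 0 < C₂)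
    (hX : X ≤ ENNReal.ofReal (C₁ * ρ ^ (-κ₁))) (hY : Y ≤ ENNReal.ofReal (C₂ * ρ ^ (-κ₂))) :
    ENNReal.ofReal (2 ^ p) * (X + Y) ≤
      ENNReal.ofReal (2 ^ p * (C₁ + C₂) * ρ ^ (-(min κ₁ κ₂))) := by
  have hρ0 : 0 < ρ := by linarith
  calc ENNReal.ofReal (2 ^ p) * (X + Y)
      ≤ ENNReal.ofReal (2 ^ p) * (ENNReal.ofReal (C₁ * ρ ^ (-κ₁)) +
        ENNReal.ofReal (C₂ * ρ ^ (-κ₂))) := by gcongr
    _ = ENNReal.ofReal (2 ^ p * (C₁ * ρ ^ (-κ₁) + C₂ * ρ ^ (-κ₂))) := by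
        rw [← ENNReal.ofReal_add (by positivity) (by positivity),
          ← ENNReal.ofReal_mul (by positivity)]
    _ ≤ _ := by
        refine ENNReal.ofReal_le_ofReal ?_
        have h1 : ρ ^ (-κ₁) ≤ ρ ^ (-(min κ₁ κ₂)) :=
          Real.rpow_le_rpow_of_exponent_le hρ (by linarith [min_le_left κ₁ κ₂])
        have h2 : ρ ^ (-κ₂) ≤ ρ ^ (-(min κ₁ κ₂)) :=
          Real.rpow_le_rpow_of_exponent_le hρ (by linarith [min_le_right κ₁ κ₂])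
        calc 2 ^ p * (C₁ * ρ ^ (-κ₁) + C₂ * ρ ^ (-κ₂))
            ≤ 2 ^ p * (C₁ * ρ ^ (-(min κ₁ κ₂)) + C₂ * ρ ^ (-(min κ₁ κ₂))) := by gcongr
          _ = _ := by ring

/-- Decay of the twice averaged density at the scale `ρ^a`. -/
def Dc (m : ℕ) (s p a : ℝ) : Prop := ∃ C κ : ℝ, 0 < C ∧ 0 < κ ∧
  ∀ b : ℝ → E (m + 1) → ℂ, Bd 1 b → Gag s b ≤ 1 → ∀ ρ : ℝ, 1 ≤ ρ →
    W p (An (m + 1) ρ) (Av (ρ ^ a) (Av (ρ ^ a) b)) ≤ ENNReal.ofReal (C * ρ ^ (-κ))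

theorem N2_const {k : ℕ} (b : ℝ → E k → ℂ) (h : Bd 1 b) :
    N2 b ≤ ENNReal.ofReal (Real.pi * (sg k).real univ + 1) := by
  refine (N2_sup 1 fun θ _ u _ => h.le θ u).trans (ENNReal.ofReal_le_ofReal ?_)
  linarith

theorem Dc_base (m : ℕ) (hm : 1 ≤ m) (s p : ℝ) (hp : 2 < p)
    (hpq : p < 2 * (((m : ℝ) + 3) / (m + 1))) (h1 : E1 m p 1 0 < 0) (h2 : E2 m p 1 0 < 0) :
    Dc m s p 1 := by
  obtain ⟨C, κ, hC, hκ, h⟩ := av_asym m hm p hp hpq 1 0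
    (Real.pi * (sg (m + 1)).real univ + 1) le_rfl one_lt_two (by positivity) h1 h2
  refine ⟨C, κ, hC, hκ, fun b hb _ ρ hρ => ?_⟩
  have hρ0 : 0 < ρ := by linarith
  have hR : (0 : ℝ) < ρ ^ (1 : ℝ) := by positivity
  have hb' := Av_bd hR.le hb
  refine h _ (hb'.mono one_le_two) ρ hρ ?_
  rw [neg_zero, Real.rpow_zero, mul_one]
  exact N2_const _ hb'

theorem Av_sub {k : ℕ} {R : ℝ} (hR : 0 < R) {B B' : ℝ} {b b' : ℝ → E k → ℂ} (h : Bd B b)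
    (h' : Bd B' b') (θ : ℝ) (u : E k) :
    Av R (fun θ u => b θ u - b' θ u) θ u = Av R b θ u - Av R b' θ u :=
  A_sub k R hR (b θ) (b' θ) (h.meas1 θ) (h'.meas1 θ) ⟨B, h.le θ⟩ ⟨B', h'.le θ⟩ u

theorem Av_comm {k : ℕ} (hk : 2 ≤ k) {R R' : ℝ} (hR : 0 < R) (hR' : 0 < R') {B : ℝ}
    {b : ℝ → E k → ℂ} (h : Bd B b) (θ : ℝ) (u : E k) (hu : ‖u‖ = 1) :
    Av R (Av R' b) θ u = Av R' (Av R b) θ u :=
  A_comm k hk R R' hR hR' (b θ) (h.meas1 θ) ⟨B, h.le θ⟩ u hu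

theorem Dc_step (m : ℕ) (hm : 1 ≤ m) (s p : ℝ) (hs : 0 < s) (hp : 2 < p)
    (hpq : p < 2 * (((m : ℝ) + 3) / (m + 1))) (a a' : ℝ) (ha : 1 ≤ a) (haa : a ≤ a')
    (ha2 : a' < 2) (h1 : E1 m p a (s * a) < 0) (h2 : E2 m p a (s * a) < 0)
    (h3 : E1 m p a' (s * a) < 0) (h4 : E2 m p a' (s * a) < 0) (hD : Dc m s p a) :
    Dc m s p a' := by
  obtain ⟨C, κ, hC, hκ, hd⟩ := hD
  obtain ⟨C₀, hC₀, hrem⟩ := N2_rem (m + 1) (by omega) s hs
  obtain ⟨C₁, κ₁, hC₁, hκ₁, hd1⟩ := av_asym m hm p hp hpq a (s * a) (4 * C₀) ha (by linarith)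
    (by positivity) h1 h2
  obtain ⟨C₂, κ₂, hC₂, hκ₂, hd2⟩ := av_asym m hm p hp hpq a' (s * a) (4 * C₀) (by linarith) ha2
    (by positivity) h3 h4
  refine ⟨2 ^ p * (2 ^ p * (C + C₂) + C₁), min (min κ κ₂) κ₁, by positivity,
    lt_min (lt_min hκ hκ₂) hκ₁, fun b hb hG ρ hρ => ?_⟩
  have hρ0 : 0 < ρ := by linarith
  set R : ℝ := ρ ^ a with hRdef
  set R' : ℝ := ρ ^ a' with hR'def
  have hR1 : 1 ≤ R := Real.one_le_rpow hρ (by linarith)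
  have hR'1 : 1 ≤ R' := Real.one_le_rpow hρ (by linarith)
  have hR : 0 < R := by linarith
  have hR' : 0 < R' := by linarith
  have hAb := Av_bd hR.le hb
  have hAb' := Av_bd hR'.le hb
  set d : ℝ → E (m + 1) → ℂ := fun θ u => Av R' b θ u - Av R b θ u with hddef
  have hdb : Bd 2 d := (hAb'.sub hAb).mono (by norm_num)
  -- the size of `d`
  have hRs : R ^ (-s) = ρ ^ (-(s * a)) := by
    rw [hRdef, ← Real.rpow_mul hρ0.le]
    congr 1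
    ring
  have hRs' : R' ^ (-s) ≤ ρ ^ (-(s * a)) := by
    rw [hR'def, ← Real.rpow_mul hρ0.le]
    refine Real.rpow_le_rpow_of_exponent_le hρ ?_
    nlinarith
  have hN2d : N2 d ≤ ENNReal.ofReal (4 * C₀ * ρ ^ (-(s * a))) := by
    have g1 : N2 (fun θ u => b θ u - Av R b θ u) ≤ ENNReal.ofReal (C₀ * ρ ^ (-(s * a))) := by
      refine (hrem 1 b hb R hR1).trans ?_
      calc ENNReal.ofReal (C₀ * R ^ (-s)) * Gag s b ≤ ENNReal.ofReal (C₀ * R ^ (-s)) * 1 := by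
            gcongr
        _ = _ := by rw [mul_one, hRs]
    have g2 : N2 (fun θ u => Av R' b θ u - b θ u) ≤ ENNReal.ofReal (C₀ * ρ ^ (-(s * a))) := by
      have g3 : N2 (fun θ u => Av R' b θ u - b θ u) = N2 (fun θ u => b θ u - Av R' b θ u) := by
        unfold N2
        simp_rw [enorm_sub_rev]
      rw [g3]
      refine (hrem 1 b hb R' hR'1).trans ?_
      calc ENNReal.ofReal (C₀ * R' ^ (-s)) * Gag s b ≤ ENNReal.ofReal (C₀ * R' ^ (-s)) * 1 := by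
            gcongr
        _ ≤ _ := by
            rw [mul_one]
            refine ENNReal.ofReal_le_ofReal ?_
            gcongr
    calc N2 d ≤ 2 * (N2 (fun θ u => Av R' b θ u - b θ u) + N2 (fun θ u => b θ u - Av R b θ u)) :=
          N2_add (hAb'.sub hb) (hb.sub hAb) d fun θ u => by
            rw [hddef]
            ring
      _ ≤ 2 * (ENNReal.ofReal (C₀ * ρ ^ (-(s * a))) + ENNReal.ofReal (C₀ * ρ ^ (-(s * a)))) := by
          gcongr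
      _ = _ := by
          rw [← ENNReal.ofReal_add (by positivity) (by positivity),
            show (2 : ℝ≥0∞) = ENNReal.ofReal 2 by norm_num, ← ENNReal.ofReal_mul (by norm_num)]
          congr 1
          ring
  have w1 := hd1 d hdb ρ hρ hN2d
  have w2 := hd2 d hdb ρ hρ hN2d
  have w0 := hd b hb hG ρ hρ
  rw [← hRdef] at w0 w1
  rw [← hR'def] at w2
  have hAAb := Av_bd hR.le hAb
  have hAAb' := Av_bd hR'.le hAb'
  have hAd := Av_bd hR.le hdb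
  have hAd' := Av_bd hR'.le hdb
  have hs1 : Bd (1 + 2) (fun θ u => Av R (Av R b) θ u + Av R' d θ u) :=
    ⟨hAAb.meas.add hAd'.meas, fun θ u => (norm_add_le _ _).trans
      (add_le_add (hAAb.le θ u) (hAd'.le θ u))⟩
  have hs2 : Bd (1 + 2 + 2) (fun θ u => (Av R (Av R b) θ u + Av R' d θ u) + Av R d θ u) :=
    ⟨hs1.meas.add hAd.meas, fun θ u => (norm_add_le _ _).trans
      (add_le_add (hs1.le θ u) (hAd.le θ u))⟩
  have heq : ∀ θ ∈ Ioo (0 : ℝ) Real.pi, ∀ u : E (m + 1), ‖u‖ = 1 →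
      Av R' (Av R' b) θ u = (Av R (Av R b) θ u + Av R' d θ u) + Av R d θ u := by
    intro θ _ u hu
    have e1 : Av R' d θ u = Av R' (Av R' b) θ u - Av R' (Av R b) θ u :=
      Av_sub hR' hAb' hAb θ u
    have e2 : Av R d θ u = Av R (Av R' b) θ u - Av R (Av R b) θ u :=
      Av_sub hR hAb' hAb θ u
    have e3 : Av R (Av R' b) θ u = Av R' (Av R b) θ u :=
      Av_comm (by omega) hR hR' hb θ u hu
    rw [e1, e2, e3]
    ring
  rw [W_congr (by omega) hAAb' hs2 heq]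
  refine (W_add hs1 hAd (by linarith) _).trans ?_
  refine comb hρ (by positivity) hC₁ ?_ w1
  exact (W_add hAAb hAd' (by linarith) _).trans (comb hρ hC hC₂ w0 w2)

theorem decay (m : ℕ) (hm : 1 ≤ m) (s p : ℝ) (hs0 : 0 < s)
    (hp : 2 * ((m : ℝ) + 2) / (m + 1) < p)
    (hsp : 2 * (2 * m - s * (3 * m - 1)) < (p - 2) * ((m + 1) * m + 2 * s * (2 * m + 1)))
    (hpq : p < 2 * (((m : ℝ) + 3) / (m + 1))) :
    ∃ C κ : ℝ, 0 < C ∧ 0 < κ ∧ ∀ b : ℝ → E (m + 1) → ℂ, Bd 1 b → Gag s b ≤ 1 →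
    ∀ ρ : ℝ, 1 ≤ ρ → W p (An (m + 1) ρ) b ≤ ENNReal.ofReal (C * ρ ^ (-κ)) := by
  obtain ⟨hp2, A₀, η, hA1, hη, hA2, hE, hE3, hE10, hE20⟩ := params m hm s p hs0 hp hsp
  have hbase := Dc_base m hm s p hp2 hpq hE10 hE20
  have hstep : ∀ a a' : ℝ, 1 ≤ a → a ≤ A₀ → a ≤ a' → a' ≤ a + η → Dc m s p a → Dc m s p a' := by
    intro a a' h1 h2 h3 h4 hD
    obtain ⟨g1, g2⟩ := hE a a h1 h2 le_rfl (by linarith)
    obtain ⟨g3, g4⟩ := hE a a' h1 h2 h3 h4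
    exact Dc_step m hm s p hs0 hp2 hpq a a' h1 h3 (by linarith) g1 g2 g3 g4 hD
  have hall : ∀ j : ℕ, 1 + (j : ℝ) * η ≤ A₀ → Dc m s p (1 + (j : ℝ) * η) := by
    intro j
    induction j with
    | zero =>
      intro _
      simpa using hbase
    | succ j ih =>
      intro h
      have h1 : 1 + (j : ℝ) * η ≤ A₀ := by
        push_cast at h
        nlinarith
      refine hstep _ _ ?_ h1 ?_ ?_ (ih h1)
      · have : 0 ≤ (j : ℝ) * η := by positivity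
        linarith
      · push_cast
        nlinarith
      · push_cast
        nlinarith
  have hDA : Dc m s p A₀ := by
    have h0 : 0 ≤ (A₀ - 1) / η := div_nonneg (by linarith) hη.le
    have h1 : ((⌊(A₀ - 1) / η⌋₊ : ℕ) : ℝ) ≤ (A₀ - 1) / η := Nat.floor_le h0
    have h2 : (A₀ - 1) / η < (⌊(A₀ - 1) / η⌋₊ : ℝ) + 1 := Nat.lt_floor_add_one _
    rw [le_div_iff₀ hη] at h1
    rw [div_lt_iff₀ hη] at h2
    have h3 : 1 + ((⌊(A₀ - 1) / η⌋₊ : ℕ) : ℝ) * η ≤ A₀ := by linarith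
    refine hstep _ _ ?_ h3 h3 ?_ (hall _ h3)
    · have : 0 ≤ ((⌊(A₀ - 1) / η⌋₊ : ℕ) : ℝ) * η := by positivity
      linarith
    · nlinarith
  obtain ⟨C, κ, hC, hκ, hd⟩ := hDA
  obtain ⟨C₀, hC₀, hrem⟩ := N2_rem (m + 1) (by omega) s hs0
  obtain ⟨C₁, κ₁, hC₁, hκ₁, hd1⟩ := rem_asym m hm p hp2 hpq (s * A₀) (4 * C₀) (by positivity) hE3
  refine ⟨2 ^ p * (C + C₁), min κ κ₁, by positivity, lt_min hκ hκ₁, fun b hb hG ρ hρ => ?_⟩
  have hρ0 : 0 < ρ := by linarith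
  set R : ℝ := ρ ^ A₀ with hRdef
  have hR1 : 1 ≤ R := Real.one_le_rpow hρ (by linarith)
  have hR : 0 < R := by linarith
  have hAb := Av_bd hR.le hb
  have hAAb := Av_bd hR.le hAb
  have hRs : R ^ (-s) = ρ ^ (-(s * A₀)) := by
    rw [hRdef, ← Real.rpow_mul hρ0.le]
    congr 1
    ring
  set d : ℝ → E (m + 1) → ℂ := fun θ u => b θ u - Av R (Av R b) θ u with hddef
  have hdb : Bd 2 d := (hb.sub hAAb).mono (by norm_num)
  have g1 : N2 (fun θ u => b θ u - Av R b θ u) ≤ ENNReal.ofReal (C₀ * ρ ^ (-(s * A₀))) := by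
    refine (hrem 1 b hb R hR1).trans ?_
    calc ENNReal.ofReal (C₀ * R ^ (-s)) * Gag s b ≤ ENNReal.ofReal (C₀ * R ^ (-s)) * 1 := by
          gcongr
      _ = _ := by rw [mul_one, hRs]
  have g2 : N2 (Av R (fun θ u => b θ u - Av R b θ u)) ≤ ENNReal.ofReal (C₀ * ρ ^ (-(s * A₀))) :=
    (Av_N2 (by omega) hR (hb.sub hAb)).trans g1
  have hN2d : N2 d ≤ ENNReal.ofReal (4 * C₀ * ρ ^ (-(s * A₀))) := by
    calc N2 d ≤ 2 * (N2 (fun θ u => b θ u - Av R b θ u) +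
          N2 (Av R (fun θ u => b θ u - Av R b θ u))) :=
          N2_add (hb.sub hAb) (Av_bd hR.le (hb.sub hAb)) d fun θ u => by
            rw [Av_sub hR hb hAb θ u, hddef]
            ring
      _ ≤ 2 * (ENNReal.ofReal (C₀ * ρ ^ (-(s * A₀))) + ENNReal.ofReal (C₀ * ρ ^ (-(s * A₀)))) := by
          gcongr
      _ = _ := by
          rw [← ENNReal.ofReal_add (by positivity) (by positivity),
            show (2 : ℝ≥0∞) = ENNReal.ofReal 2 by norm_num, ← ENNReal.ofReal_mul (by norm_num)]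
          congr 1
          ring
  have w0 := hd b hb hG ρ hρ
  rw [← hRdef] at w0
  have w1 := hd1 d hdb ρ hρ hN2d
  have heq : b = fun θ u => Av R (Av R b) θ u + d θ u := by
    funext θ u
    rw [hddef]
    ring
  rw [heq]
  have := W_add hAAb hdb (p := p) (by linarith) (An (m + 1) ρ)
  rw [← heq] at this ⊢
  exact this.trans (comb hρ hC hC₁ w0 w1)

end Pool.Agent.V5helper17.RL
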