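import Mathlib
import Pool.Agent.V5helper17.RL.Decay
set_option autoImplicit false

/-! # The global estimate -/

namespace Pool.Agent.V5helper17.RL

open MeasureTheory Set Complex Metric
open scoped ENNReal RealInnerProductSpace
open Pool.Agent.H789R2.FR (E sg T sg_finite A D)
open Pool.Agent.H438R2.BR (J)
open Pool.Agent.H438R2.BR.T10 (e0)

theorem cover (k : ℕ) :
    (univ : Set (E k)) ⊆ closedBall 0 1 ∪ ⋃ i : ℕ, An k ((2 : ℝ) ^ i) := by
  intro x _
  rcases le_or_gt ‖x‖ 1 with h | h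
  · left
    rwa [mem_closedBall, dist_zero_right]
  · right
    obtain ⟨i, h1, h2⟩ := exists_nat_pow_near h.le (one_lt_two : (1 : ℝ) < 2)
    rw [mem_iUnion]
    refine ⟨i, h1, ?_⟩
    rw [pow_succ] at h2
    linarith

theorem W_ball (k : ℕ) (hk : 2 ≤ k) (p : ℝ) (hp : 2 < p) : ∃ C : ℝ, 0 < C ∧
    ∀ b : ℝ → E k → ℂ, Bd 1 b → W p (closedBall 0 1) b ≤ ENNReal.ofReal C := by
  obtain ⟨C, hC, h⟩ := L2cyl k hk
  have := sg_finite (k + 1)
  set S : ℝ := (sg (k + 1)).real univ with hS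
  have hS0 : 0 ≤ S := measureReal_nonneg
  refine ⟨S ^ (p - 2) * (C * (Real.pi * (sg k).real univ + 1)) + 1, by positivity,
    fun b hb => ?_⟩
  have h1 : ∀ x z, ENNReal.ofReal (‖U b x z‖ ^ p) ≤
      ENNReal.ofReal (S ^ (p - 2)) * ‖U b x z‖ₑ ^ 2 := by
    intro x z
    have h2 : ‖U b x z‖ ≤ S := by
      have := U_le hb x z
      rwa [one_mul] at this
    rw [← ofReal_norm, ← ENNReal.ofReal_pow (norm_nonneg _), ← ENNReal.ofReal_mul (by positivity)]
    refine ENNReal.ofReal_le_ofReal ?_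
    rcases (norm_nonneg (U b x z)).eq_or_lt with h0 | h0
    · rw [← h0, Real.zero_rpow (by linarith)]
      simp
    · have h3 : ‖U b x z‖ ^ p = ‖U b x z‖ ^ (p - 2) * ‖U b x z‖ ^ 2 := by
        rw [← Real.rpow_natCast ‖U b x z‖ 2, ← Real.rpow_add h0]
        congr 1
        push_cast
        ring
      rw [h3]
      refine mul_le_mul_of_nonneg_right ?_ (by positivity)
      exact Real.rpow_le_rpow h0.le h2 (by linarith)
  calc W p (closedBall 0 1) b
      ≤ ∫⁻ x in closedBall (0 : E k) 1, ∫⁻ z : ℝ,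
          ENNReal.ofReal (S ^ (p - 2)) * ‖U b x z‖ₑ ^ 2 :=
        lintegral_mono fun x => lintegral_mono fun z => h1 x z
    _ = ENNReal.ofReal (S ^ (p - 2)) * ∫⁻ x in closedBall (0 : E k) 1, ∫⁻ z : ℝ,
          ‖U b x z‖ₑ ^ 2 := by
        simp_rw [lintegral_const_mul' _ _ ENNReal.ofReal_ne_top]
    _ ≤ ENNReal.ofReal (S ^ (p - 2)) * (ENNReal.ofReal (C * 1) *
          ENNReal.ofReal (Real.pi * (sg k).real univ + 1)) := by
        gcongr
        refine (h 1 b hb 1 one_pos).trans ?_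
        gcongr
        exact N2_const b hb
    _ = ENNReal.ofReal (S ^ (p - 2) * (C * (Real.pi * (sg k).real univ + 1))) := by
        rw [← ENNReal.ofReal_mul (by positivity), ← ENNReal.ofReal_mul (by positivity), mul_one]
    _ ≤ _ := by
        refine ENNReal.ofReal_le_ofReal ?_
        linarith

theorem W_univ {k : ℕ} {B : ℝ} {b : ℝ → E k → ℂ} (h : Bd B b) (p : ℝ) :
    ∫⁻ X : E (k + 1), ENNReal.ofReal (‖T (Gb b) X‖ ^ p) = W p univ b := by
  have hm : Measurable fun X : E (k + 1) => ENNReal.ofReal (‖T (Gb b) X‖ ^ p) :=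
    ((Pool.Agent.H789R2.FR.Lp_T_meas (Gb_meas h)).measurable.norm.pow_const p).ennreal_ofReal
  rw [lint_phys _ hm]
  unfold W
  rw [Measure.restrict_univ]
  rfl

theorem glob_low (m : ℕ) (hm : 1 ≤ m) (s p : ℝ) (hs0 : 0 < s)
    (hp : 2 * ((m : ℝ) + 2) / (m + 1) < p)
    (hsp : 2 * (2 * m - s * (3 * m - 1)) < (p - 2) * ((m + 1) * m + 2 * s * (2 * m + 1)))
    (hpq : p < 2 * (((m : ℝ) + 3) / (m + 1))) :
    ∃ C : ℝ, 0 < C ∧ ∀ b : ℝ → E (m + 1) → ℂ, Bd 1 b → Gag s b ≤ 1 →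
    ∫⁻ X : E (m + 1 + 1), ENNReal.ofReal (‖T (Gb b) X‖ ^ p) ≤ ENNReal.ofReal C := by
  have hp2 : 2 < p := by
    refine lt_trans ?_ hp
    rw [lt_div_iff₀ (by positivity)]
    linarith
  obtain ⟨C₁, κ, hC₁, hκ, h1⟩ := decay m hm s p hs0 hp hsp hpq
  obtain ⟨C₂, hC₂, h2⟩ := W_ball (m + 1) (by omega) p hp2
  have hr0 : (0 : ℝ) < 2 ^ (-κ) := by positivity
  have hr1 : (2 : ℝ) ^ (-κ) < 1 := Real.rpow_lt_one_of_one_lt_of_neg one_lt_two (by linarith)
  have hg : 0 < (1 - (2 : ℝ) ^ (-κ))⁻¹ := by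
    have : 0 < 1 - (2 : ℝ) ^ (-κ) := by linarith
    positivity
  refine ⟨C₂ + C₁ * (1 - 2 ^ (-κ))⁻¹, by positivity, fun b hb hG => ?_⟩
  rw [W_univ hb]
  have hsum : ∑' i : ℕ, ENNReal.ofReal (C₁ * ((2 : ℝ) ^ i) ^ (-κ)) =
      ENNReal.ofReal (C₁ * (1 - 2 ^ (-κ))⁻¹) := by
    have e1 : ∀ i : ℕ, C₁ * ((2 : ℝ) ^ i) ^ (-κ) = C₁ * ((2 : ℝ) ^ (-κ)) ^ i := by
      intro i
      rw [← Real.rpow_natCast, ← Real.rpow_natCast, ← Real.rpow_mul (by norm_num),
        ← Real.rpow_mul (by norm_num)]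
      congr 2
      ring
    simp_rw [e1]
    rw [← ENNReal.ofReal_tsum_of_nonneg]
    · rw [tsum_mul_left, tsum_geometric_of_lt_one hr0.le hr1]
    · intro i
      positivity
    · exact (summable_geometric_of_lt_one hr0.le hr1).mul_left _
  calc W p univ b ≤ W p (closedBall 0 1 ∪ ⋃ i : ℕ, An (m + 1) ((2 : ℝ) ^ i)) b :=
        W_mono_set p (cover (m + 1)) b
    _ ≤ W p (closedBall 0 1) b + W p (⋃ i : ℕ, An (m + 1) ((2 : ℝ) ^ i)) b :=
        lintegral_union_le _ _ _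
    _ ≤ W p (closedBall 0 1) b + ∑' i : ℕ, W p (An (m + 1) ((2 : ℝ) ^ i)) b := by
        gcongr
        exact lintegral_iUnion_le _ _
    _ ≤ ENNReal.ofReal C₂ + ∑' i : ℕ, ENNReal.ofReal (C₁ * ((2 : ℝ) ^ i) ^ (-κ)) := by
        gcongr with i
        · exact h2 b hb
        · exact h1 b hb hG ((2 : ℝ) ^ i) (one_le_pow₀ one_le_two)
    _ = _ := by
        rw [hsum, ← ENNReal.ofReal_add hC₂.le (by positivity)]

theorem exists_low (m : ℕ) (hm : 1 ≤ m) (s p : ℝ) (hs0 : 0 < s)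
    (hp : 2 * ((m : ℝ) + 2) / (m + 1) < p)
    (hsp : 2 * (2 * m - s * (3 * m - 1)) < (p - 2) * ((m + 1) * m + 2 * s * (2 * m + 1))) :
    ∃ p' : ℝ, p' ≤ p ∧ 2 * ((m : ℝ) + 2) / (m + 1) < p' ∧
    2 * (2 * m - s * (3 * m - 1)) < (p' - 2) * ((m + 1) * m + 2 * s * (2 * m + 1)) ∧
    p' < 2 * (((m : ℝ) + 3) / (m + 1)) := by
  have hm0 : (1 : ℝ) ≤ m := by exact_mod_cast hm
  have hm1 : (0 : ℝ) < m + 1 := by linarith
  rcases lt_or_ge p (2 * (((m : ℝ) + 3) / (m + 1))) with h | h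
  · exact ⟨p, le_rfl, hp, hsp, h⟩
  · have hden : (0 : ℝ) < (m + 1) * m + 2 * s * (2 * m + 1) := by positivity
    set c : ℝ := max (2 * ((m : ℝ) + 2) / (m + 1))
      (2 + 2 * (2 * m - s * (3 * m - 1)) / ((m + 1) * m + 2 * s * (2 * m + 1))) with hc
    have hcq : c < 2 * (((m : ℝ) + 3) / (m + 1)) := by
      refine max_lt ?_ ?_
      · rw [mul_div_assoc]
        have : ((m : ℝ) + 2) / (m + 1) < (m + 3) / (m + 1) := by
          gcongr
          linarith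
        linarith
      · have e1 : 2 * (((m : ℝ) + 3) / (m + 1)) = 2 + 4 / (m + 1) := by
          field_simp
          ring
        rw [e1]
        have : 2 * (2 * m - s * (3 * m - 1)) / ((m + 1) * m + 2 * s * (2 * m + 1)) <
            4 / (m + 1) := by
          rw [div_lt_div_iff₀ hden hm1]
          have h5 : 0 < s * ((3 * (m : ℝ) - 1) * (m + 1)) :=
            mul_pos hs0 (mul_pos (by linarith) hm1)
          have h6 : 0 < s * (2 * (m : ℝ) + 1) := mul_pos hs0 (by linarith)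
          linarith
        linarith
    refine ⟨(c + 2 * (((m : ℝ) + 3) / (m + 1))) / 2, by linarith, ?_, ?_, by linarith⟩
    · have : 2 * ((m : ℝ) + 2) / (m + 1) ≤ c := le_max_left _ _
      linarith
    · have h1 : 2 + 2 * (2 * m - s * (3 * m - 1)) / ((m + 1) * m + 2 * s * (2 * m + 1)) ≤ c :=
        le_max_right _ _
      rw [← div_lt_iff₀ hden]
      linarith

theorem glob (m : ℕ) (hm : 1 ≤ m) (s p : ℝ) (hs0 : 0 < s)
    (hp : 2 * ((m : ℝ) + 2) / (m + 1) < p)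
    (hsp : 2 * (2 * m - s * (3 * m - 1)) < (p - 2) * ((m + 1) * m + 2 * s * (2 * m + 1))) :
    ∃ C : ℝ, 0 < C ∧ ∀ b : ℝ → E (m + 1) → ℂ, Bd 1 b → Gag s b ≤ 1 →
    ∫⁻ X : E (m + 1 + 1), ENNReal.ofReal (‖T (Gb b) X‖ ^ p) ≤ ENNReal.ofReal C := by
  obtain ⟨p', hp', h1, h2, h3⟩ := exists_low m hm s p hs0 hp hsp
  obtain ⟨C, hC, h⟩ := glob_low m hm s p' hs0 h1 h2 h3
  have hp0 : 0 < p' := by
    refine lt_trans ?_ h1
    positivity
  have := sg_finite (m + 1 + 1)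
  set S : ℝ := (sg (m + 1 + 1)).real univ with hS
  have hS0 : 0 ≤ S := measureReal_nonneg
  refine ⟨S ^ (p - p') * C + 1, by positivity, fun b hb hG => ?_⟩
  have h4 : ∀ X : E (m + 1 + 1), ENNReal.ofReal (‖T (Gb b) X‖ ^ p) ≤
      ENNReal.ofReal (S ^ (p - p')) * ENNReal.ofReal (‖T (Gb b) X‖ ^ p') := by
    intro X
    have h5 : ‖T (Gb b) X‖ ≤ S := by
      have := Pool.Agent.H789R2.FR.Lp_T_bdd (Gb_le hb) X
      rwa [one_mul] at this
    rw [← ENNReal.ofReal_mul (by positivity)]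
    refine ENNReal.ofReal_le_ofReal ?_
    rcases (norm_nonneg (T (Gb b) X)).eq_or_lt with h0 | h0
    · rw [← h0, Real.zero_rpow (by linarith)]
      positivity
    · have h6 : ‖T (Gb b) X‖ ^ p = ‖T (Gb b) X‖ ^ (p - p') * ‖T (Gb b) X‖ ^ p' := by
        rw [← Real.rpow_add h0]
        congr 1
        ring
      rw [h6]
      refine mul_le_mul_of_nonneg_right ?_ (by positivity)
      exact Real.rpow_le_rpow h0.le h5 (by linarith)
  calc ∫⁻ X : E (m + 1 + 1), ENNReal.ofReal (‖T (Gb b) X‖ ^ p)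
      ≤ ∫⁻ X : E (m + 1 + 1), ENNReal.ofReal (S ^ (p - p')) *
          ENNReal.ofReal (‖T (Gb b) X‖ ^ p') := lintegral_mono h4
    _ = ENNReal.ofReal (S ^ (p - p')) * ∫⁻ X : E (m + 1 + 1),
          ENNReal.ofReal (‖T (Gb b) X‖ ^ p') := lintegral_const_mul' _ _ ENNReal.ofReal_ne_top
    _ ≤ ENNReal.ofReal (S ^ (p - p')) * ENNReal.ofReal C := by
        gcongr
        exact h b hb hG
    _ = ENNReal.ofReal (S ^ (p - p') * C) := by rw [ENNReal.ofReal_mul (by positivity)]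
    _ ≤ _ := ENNReal.ofReal_le_ofReal (by linarith)

end Pool.Agent.V5helper17.RL
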